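import Pool.Agent.Y820.LT.Stm

set_option autoImplicit false

/-!
# Project LT, task P: autocorrelations at differences of random sums
-/

namespace Pool.Agent.Y820.LT.P484
open Finset
open Pool.Agent.H807R2.Dav
open Pool.Agent.H373R2.T7
open Pool.Agent.W93.DG
open Pool.Agent.W93.HD
open Pool.Agent.W93.TD (G_sq bad_sq)
open Pool.Agent.W93.RD (EE)
open Pool.Agent.TH894.CW
open Pool.Agent.TH894.SM (Ph VV VV_nonneg VV_four dl dl_abs Om nw card_Om Pos mu mu_pos Ph_le cor cor_FF)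

lemma Gc_nat (z X a : ℕ) (h1 : 1 ≤ a) (h2 : a ≤ X) :
    Gc z X (a : ℤ) = ArithmeticFunction.vonMangoldt a - lamz z a := by
  unfold Gc lamI lamzI
  rw [if_pos (by exact_mod_cast h2), if_pos (by exact_mod_cast h1), if_pos (by exact_mod_cast h1),
    Int.toNat_natCast]

lemma Gc_lt (z X : ℕ) (n : ℤ) (h : n < 1) : Gc z X n = 0 := by
  unfold Gc lamI lamzI
  rw [if_neg (by omega : ¬ 1 ≤ n), if_neg (by omega : ¬ 1 ≤ n), sub_zero, ite_self]

lemma Gc_gt (z X : ℕ) (n : ℤ) (h : (X : ℤ) < n) : Gc z X n = 0 := by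
  unfold Gc
  rw [if_neg (by omega)]

/-- the autocorrelation -/
lemma PC_cor (z X : ℕ) (h : ℤ) :
    PC z X h = cor (fun n => ArithmeticFunction.vonMangoldt n - lamz z n) X h := by
  unfold PC cor
  rw [sum_comm]
  symm
  refine sum_nbij' (fun a : ℕ => (a : ℤ)) (fun m : ℤ => m.toNat) ?_ ?_ ?_ ?_ ?_
  · intro a ha
    rw [mem_Icc] at ha ⊢
    omega
  · intro m hm
    rw [mem_Icc] at hm ⊢
    omega
  · intro a _
    simp
  · intro m hm
    rw [mem_Icc] at hm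
    exact Int.toNat_of_nonneg (by omega)
  · intro a' ha'
    rw [mem_Icc] at ha'
    simp only
    rw [Gc_nat z X a' ha'.1 ha'.2]
    by_cases h1 : (a' : ℤ) + h < 1
    · rw [Gc_lt _ _ _ h1, mul_zero]
      apply sum_eq_zero
      intro a ha
      rw [mem_Icc] at ha
      rw [if_neg (by omega)]
    by_cases h2 : (X : ℤ) < a' + h
    · rw [Gc_gt _ _ _ h2, mul_zero]
      apply sum_eq_zero
      intro a ha
      rw [mem_Icc] at ha
      rw [if_neg (by omega)]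
    obtain ⟨y, hy⟩ : ∃ y : ℕ, (y : ℤ) = a' + h := ⟨((a' : ℤ) + h).toNat, by omega⟩
    rw [← hy, Gc_nat z X y (by omega) (by omega), sum_eq_single y, if_pos (by omega)]
    · ring
    · intro a _ hne
      rw [if_neg (by omega)]
    · intro h'
      exfalso
      apply h'
      rw [mem_Icc]
      omega

lemma PC_out (z X : ℕ) (h : ℤ) (hh : (X : ℤ) ≤ |h|) : PC z X h = 0 := by
  unfold PC
  apply sum_eq_zero
  intro m hm
  rw [mem_Icc] at hm
  rcases le_abs'.mp hh with h1 | h1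
  · rw [Gc_lt z X (m + h) (by omega), mul_zero]
  · rw [Gc_gt z X (m + h) (by omega), mul_zero]

/-- the weight of the frequencies -/
noncomputable def Vu (z X M : ℕ) (u : ℤ) (r : ℕ) : ℂ :=
  ((‖FF (fun n => ArithmeticFunction.vonMangoldt n - lamz z n) X M r‖ ^ 2 : ℝ) : ℂ) *
    ee ((u : ℝ) * ((r : ℝ) / (M : ℝ)))

lemma Vu_norm (z X M : ℕ) (u : ℤ) (r : ℕ) :
    ‖Vu z X M u r‖ = ‖FF (fun n => ArithmeticFunction.vonMangoldt n - lamz z n) X M r‖ ^ 2 := by
  unfold Vu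
  rw [norm_mul, norm_ee, mul_one, Complex.norm_real, Real.norm_of_nonneg (sq_nonneg _)]

lemma PC_EE (z X M : ℕ) (hX : 1 ≤ X) (hM : 2 * X ≤ M) (u v : ℤ) :
    (M : ℝ) ^ 2 * PC z X (v - u) ^ 2 ≤ ‖EE (Vu z X M u) M v‖ ^ 2 := by
  rcases lt_or_ge |v - u| (X : ℤ) with h | h
  · have h1 := cor_FF (fun n => ArithmeticFunction.vonMangoldt n - lamz z n) X M (by omega) (v - u)
      (by omega)
    have h2 : EE (Vu z X M u) M v =
        ((M * cor (fun n => ArithmeticFunction.vonMangoldt n - lamz z n) X (v - u) : ℝ) : ℂ) := by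
      rw [← h1]
      unfold EE Vu
      apply sum_congr rfl
      intro r _
      rw [mul_assoc, ← ee_add]
      congr 2
      push_cast
      ring
    rw [h2, Complex.norm_real, Real.norm_eq_abs, sq_abs, mul_pow, PC_cor]
  · rw [PC_out z X _ h]
    have : (M : ℝ) ^ 2 * 0 ^ 2 = 0 := by ring
    rw [this]
    positivity

end Pool.Agent.Y820.LT.P484

namespace Pool.Agent.Y820.LT
open Finset
open Pool.Agent.H807R2.Dav
open Pool.Agent.H373R2.T7
open Pool.Agent.W93.DG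
open Pool.Agent.W93.HD
open Pool.Agent.W93.TD (G_sq bad_sq)
open Pool.Agent.W93.RD (EE)
open Pool.Agent.TH894.CW
open Pool.Agent.TH894.SM (Ph VV VV_nonneg VV_four dl dl_abs Om nw card_Om Pos mu mu_pos Ph_le cor cor_FF)
open Pool.Agent.Y820.LT.P484

theorem t_P : S_P := by
  classical
  intro b hb
  have hbn : 0 < b := by omega
  have hb1 : 1 < b := by omega
  have hbr : (2 : ℝ) ≤ b := by exact_mod_cast hb
  obtain ⟨R, hR, hbad⟩ := bad_sq b hb
  obtain ⟨A, B, hUA, hB⟩ := hbad (mu b) 3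
  obtain ⟨C, hC0, hfour⟩ := VV_four b hb
  obtain ⟨η, hη0, hη1, hcore⟩ := core b hb R hR
  obtain ⟨k0, h0⟩ := hcore A hUA
  refine ⟨R, A, B + 1, hR, hUA, fun δ hδ => ?_⟩
  obtain ⟨t₀, ht₀⟩ := pow_small η (δ / 2 / (4 * C + 1)) hη0 hη1 (by positivity)
  refine ⟨t₀ + 4, fun t ht Ez => ?_⟩
  obtain ⟨k1, h1⟩ := hB Ez
  obtain ⟨k2, h2⟩ := G_sq Ez
  obtain ⟨k3, h3⟩ := hfour Ez
  obtain ⟨k4, h4⟩ := hh_small b A (512 * b) hb
  obtain ⟨k5, hk5⟩ := exists_nat_ge (2 * (14 * (b : ℝ) ^ 2) / δ)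
  refine ⟨k0 + k1 + k2 + k3 + k4 + k5 + 256 * b + 64, fun K hK z hz1 hz2 e he J hJ => ?_⟩
  obtain ⟨hL1, hL2⟩ := logX b K hb
  have hK8 : (64 : ℝ) ≤ K := by exact_mod_cast (by omega : 64 ≤ K)
  have hK0 : (0 : ℝ) < K := by linarith
  obtain ⟨L, hL⟩ : ∃ L, L = Real.log ((b ^ K : ℕ) : ℝ) := ⟨_, rfl⟩
  have hL4 : 4 ≤ L := by rw [hL]; linarith
  have hzB : L ^ B ≤ z := (pow_le_pow_right₀ (by linarith) (Nat.le_succ B)).trans (by rw [hL]; exact hz1)
  have hzL : L ≤ z := by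
    refine le_trans ?_ (by rw [hL]; exact hz1 : L ^ (B + 1) ≤ z)
    exact le_self_pow₀ (by linarith) (by omega)
  have hz : 1 ≤ z := by
    have : (1 : ℝ) ≤ z := by linarith
    exact_mod_cast this
  have hKX : K < b ^ K := Nat.lt_pow_self hb1
  have hXM : b ^ K ≤ b ^ (K + 1) := Nat.pow_le_pow_right hbn (by omega)
  have h512 : 512 * 2 * hh b A K ≤ 512 * b * hh b A K := Nat.mul_le_mul_right _ (Nat.mul_le_mul_left _ hb)
  have hgK := h4 K (by omega)
  have hh1 : 1 ≤ hh b A K := by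
    unfold hh
    exact Nat.mul_pos (by omega) (by omega)
  obtain ⟨hJc, hJsub⟩ := Pos_card b R K (hh b A K) J hR hh1 (by omega) hJ
  have hbadK := h1 K (by omega) z (by rw [← hL]; exact hzB) hz2
  have hmass := h2 (b ^ K) (by omega) (b ^ (K + 1)) hXM z hz hz2
  have hfourK := h3 K (by omega) z (by rw [← hL]; exact hzL) hz2 e he (J 1) hJsub hJc
  have hcoreK := h0 K (by omega) 0 e he J hJ t (by omega)
  have hp := ht₀ t (by omega)
  rw [← hL] at hmass
  rw [← hL] at hL2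
  have hX1 : 1 ≤ b ^ K := Nat.one_le_pow _ _ hbn
  have h2X : 2 * b ^ K ≤ b ^ (K + 1) := by rw [pow_succ']; exact Nat.mul_le_mul_right _ hb
  obtain ⟨X, hX⟩ : ∃ X, X = b ^ K := ⟨_, rfl⟩
  obtain ⟨M, hM⟩ : ∃ M, M = b ^ (K + 1) := ⟨_, rfl⟩
  rw [← hX, ← hM] at hmass hfourK h2X
  rw [← hX] at hX1 hbadK ⊢
  rw [← hM] at hbadK hcoreK
  have hX0 : (0 : ℝ) < X := by exact_mod_cast hX1
  have hM0 : (0 : ℝ) < M := by exact_mod_cast (by omega : 0 < M)
  obtain ⟨T, hT⟩ : ∃ T : ℝ, T = ((J 1).card : ℝ) := ⟨_, rfl⟩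
  have hT0 : 0 < T := by rw [hT]; exact_mod_cast (by omega : 0 < (J 1).card)
  rw [← hT] at hfourK hcoreK
  -- the fourth moment
  have hf4 : ∑ r ∈ range M, ∑ r' ∈ range M, ‖FF (fun n => ArithmeticFunction.vonMangoldt n - lamz z n) X M r‖ ^ 2 *
      ‖FF (fun n => ArithmeticFunction.vonMangoldt n - lamz z n) X M r'‖ ^ 2 *
        ‖Ph (dl b e) (J 1) (((r' : ℝ) - r) / (M : ℝ))‖ ^ 4 ≤ 4 * C * ((M : ℝ) * X) ^ 2 * T ^ 4 := by
    have e2 : ∀ r, ‖FF (fun n => ArithmeticFunction.vonMangoldt n - lamz z n) X M r‖ ^ 2 ≤ 2 * VV z X M r := by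
      intro r
      rw [FF_sub]
      have e3 := norm_sub_le (FF (fun n => ArithmeticFunction.vonMangoldt n) X M r) (FF (lamz z) X M r)
      have e4 := pow_le_pow_left₀ (norm_nonneg _) e3 2
      unfold VV
      nlinarith [sq_nonneg (‖FF (fun n => ArithmeticFunction.vonMangoldt n) X M r‖ - ‖FF (lamz z) X M r‖)]
    calc _ ≤ ∑ r ∈ range M, ∑ r' ∈ range M, 4 * (VV z X M r * VV z X M r' *
        ‖Ph (dl b e) (J 1) (((r' : ℝ) - r) / (M : ℝ))‖ ^ 4) := by
          apply sum_le_sum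
          intro r _
          apply sum_le_sum
          intro r' _
          have e5 := e2 r
          have e6 := e2 r'
          have v0 := VV_nonneg z X M r
          rw [show 4 * (VV z X M r * VV z X M r' *
            ‖Ph (dl b e) (J 1) (((r' : ℝ) - r) / (M : ℝ))‖ ^ 4) = ((2 * VV z X M r) * (2 * VV z X M r')) *
            ‖Ph (dl b e) (J 1) (((r' : ℝ) - r) / (M : ℝ))‖ ^ 4 by ring]
          apply mul_le_mul_of_nonneg_right _ (by positivity)
          exact mul_le_mul e5 e6 (by positivity) (by positivity)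
      _ = 4 * ∑ r ∈ range M, ∑ r' ∈ range M, (VV z X M r * VV z X M r' *
        ‖Ph (dl b e) (J 1) (((r' : ℝ) - r) / (M : ℝ))‖ ^ 4) := by
          rw [mul_sum]
          apply sum_congr rfl
          intro r _
          rw [mul_sum]
      _ ≤ 4 * (C * ((M : ℝ) * X) ^ 2 * T ^ 4) := by linarith
      _ = _ := by ring
  -- the second moment for a fixed `ω`
  have hone : ∀ u : ℤ, ∑ ω' ∈ Om J t, PC z X (∑ c, dl b e (ω' c) - u) ^ 2 ≤ δ * (X : ℝ) ^ 2 * (Om J t).card := by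
    intro u
    have e1 := hcoreK (Vu z X M u) (M * X / (K : ℝ) ^ 3) (fun r hr S hS => by
      have e2 := hbadK (mu b * (M - r)) (mu b) (mu_pos b) ((Nat.lt_pow_self hb1).le) S hS
      simp only [Vu_norm]
      exact e2)
    simp only [Vu_norm] at e1
    have e3 : (M : ℝ) ^ 2 * ∑ ω' ∈ Om J t, PC z X (∑ c, dl b e (ω' c) - u) ^ 2 ≤
        ∑ ω' ∈ Om J t, ‖EE (Vu z X M u) M (nw b 0 e ω')‖ ^ 2 := by
      rw [mul_sum]
      apply sum_le_sum
      intro ω' _
      have e4 := PC_EE z X M hX1 h2X u (nw b 0 e ω')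
      have e5 : nw b 0 e ω' = ∑ c, dl b e (ω' c) := by
        unfold nw
        simp
      rw [e5] at e4 ⊢
      exact e4
    have hη' : 0 ≤ (1 - η) ^ (t - 4) := pow_nonneg (by linarith) _
    have hpart1 : (M : ℝ) * X / (K : ℝ) ^ 3 *
        ∑ r ∈ range M, ‖FF (fun n => ArithmeticFunction.vonMangoldt n - lamz z n) X M r‖ ^ 2 ≤ δ / 2 * (M * X) ^ 2 := by
      have e6 : 14 * (b : ℝ) ^ 2 / K ≤ δ / 2 := by
        have e4 : 2 * (14 * (b : ℝ) ^ 2) / δ ≤ K := hk5.trans (by exact_mod_cast (by omega : k5 ≤ K))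
        rw [div_le_iff₀ hδ] at e4
        rw [div_le_iff₀ hK0]
        linarith
      have e7 : L ^ 2 ≤ (b * K) ^ 2 := pow_le_pow_left₀ (by linarith) hL2 2
      calc _ ≤ (M : ℝ) * X / (K : ℝ) ^ 3 * (M * (14 * X * L ^ 2)) := mul_le_mul_of_nonneg_left hmass (by positivity)
        _ ≤ (M : ℝ) * X / (K : ℝ) ^ 3 * (M * (14 * X * (b * K) ^ 2)) := by
            apply mul_le_mul_of_nonneg_left _ (by positivity)
            apply mul_le_mul_of_nonneg_left _ hM0.le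
            exact mul_le_mul_of_nonneg_left e7 (by positivity)
        _ = (14 * (b : ℝ) ^ 2 / K) * (M * X) ^ 2 := by
            field_simp
        _ ≤ _ := mul_le_mul_of_nonneg_right e6 (by positivity)
    have hpart2 : (1 - η) ^ (t - 4) / T ^ 4 * ∑ r ∈ range M, ∑ r' ∈ range M,
        ‖FF (fun n => ArithmeticFunction.vonMangoldt n - lamz z n) X M r‖ ^ 2 *
        ‖FF (fun n => ArithmeticFunction.vonMangoldt n - lamz z n) X M r'‖ ^ 2 *
        ‖Ph (dl b e) (J 1) (((r' : ℝ) - r) / (M : ℝ))‖ ^ 4 ≤ δ / 2 * (M * X) ^ 2 := by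
      calc _ ≤ (1 - η) ^ (t - 4) / T ^ 4 * (4 * C * ((M : ℝ) * X) ^ 2 * T ^ 4) := mul_le_mul_of_nonneg_left hf4 (by positivity)
        _ = ((1 - η) ^ (t - 4) * (4 * C)) * (M * X) ^ 2 := by field_simp
        _ ≤ (δ / 2 / (4 * C + 1) * (4 * C)) * (M * X) ^ 2 := by
            apply mul_le_mul_of_nonneg_right _ (by positivity)
            exact mul_le_mul_of_nonneg_right hp (by positivity)
        _ ≤ _ := by
            apply mul_le_mul_of_nonneg_right _ (by positivity)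
            rw [div_mul_eq_mul_div, div_le_iff₀ (by positivity)]
            nlinarith
    have e8 : (M : ℝ) ^ 2 * ∑ ω' ∈ Om J t, PC z X (∑ c, dl b e (ω' c) - u) ^ 2 ≤
        (M : ℝ) ^ 2 * (δ * (X : ℝ) ^ 2 * (Om J t).card) := by
      refine e3.trans (e1.trans ?_)
      have e9 : (M : ℝ) ^ 2 * (δ * (X : ℝ) ^ 2 * (Om J t).card) = (δ * (M * X) ^ 2) * (Om J t).card := by ring
      rw [e9]
      apply mul_le_mul_of_nonneg_right _ (Nat.cast_nonneg _)
      linarith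
    exact le_of_mul_le_mul_left e8 (by positivity)
  calc ∑ ω ∈ Om J t, ∑ ω' ∈ Om J t, PC z X (∑ c, dl b e (ω' c) - ∑ c, dl b e (ω c)) ^ 2
      ≤ ∑ ω ∈ Om J t, δ * (X : ℝ) ^ 2 * (Om J t).card := sum_le_sum fun ω _ => hone _
    _ = _ := by
      rw [sum_const, nsmul_eq_mul]
      ring

end Pool.Agent.Y820.LT
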