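import Pool.Agent.Y820.LT.Stm
import Pool.Agent.TH894.SM1

set_option autoImplicit false

/-! Romanoff's sum with an arbitrary power of the weight. -/

namespace Pool.Agent.Y820.LT.RR
open Finset
open Pool.Agent.H373R2.T7
open Pool.Agent.W93.HD
open Pool.Agent.TH894.SM (card_diff cnt_one cnt_all card_pf)

/-- the weight of a set of primes -/
noncomputable def wD (D : ℕ) (T : Finset ℕ) : ℝ := ∏ p ∈ T, (D : ℝ) / (p : ℝ)

lemma wD_nonneg (D : ℕ) (T : Finset ℕ) : 0 ≤ wD D T := prod_nonneg fun _ _ => by positivity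

lemma prod_eq_wD (D : ℕ) (S : Finset ℕ) : ∏ p ∈ S, (1 + (D : ℝ) / (p : ℝ)) = ∑ T ∈ S.powerset, wD D T := by
  classical
  rw [Finset.prod_one_add]
  rfl

lemma one_le_prodD (D : ℕ) (S : Finset ℕ) : (1 : ℝ) ≤ ∏ p ∈ S, (1 + (D : ℝ) / (p : ℝ)) := by
  classical
  induction S using Finset.induction_on with
  | empty => simp
  | insert a s ha ih =>
    rw [prod_insert ha]
    have : (0 : ℝ) ≤ D / a := by positivity
    nlinarith

lemma prodD_le (D : ℕ) (S : Finset ℕ) : ∏ p ∈ S, (1 + (D : ℝ) / (p : ℝ)) ≤ (∏ p ∈ S, (1 + 1 / (p : ℝ))) ^ D := by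
  rw [← prod_pow]
  apply prod_le_prod
  · intro p _; positivity
  · intro p _
    have h : (0 : ℝ) ≤ 1 / p := by positivity
    have e : (D : ℝ) / p = D * (1 / p) := by ring
    rw [e]
    exact one_add_mul_le_pow (by linarith) D

lemma pow_le_lin (κ : ℕ) (x : ℝ) (h0 : 0 ≤ x) (h1 : x ≤ 1) : (1 + x) ^ κ ≤ 1 + (2 ^ κ - 1) * x := by
  induction κ with
  | zero => simp
  | succ n ih =>
    have h2 : (1 : ℝ) ≤ 2 ^ n := one_le_pow₀ (by norm_num)
    calc (1 + x) ^ (n + 1) = (1 + x) ^ n * (1 + x) := pow_succ _ _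
      _ ≤ (1 + (2 ^ n - 1) * x) * (1 + x) := mul_le_mul_of_nonneg_right ih (by linarith)
      _ = 1 + x + (2 ^ n - 1) * x + (2 ^ n - 1) * (x * x) := by ring
      _ ≤ 1 + x + (2 ^ n - 1) * x + (2 ^ n - 1) * x := by
          have h3 : x * x ≤ x := by nlinarith
          have := mul_le_mul_of_nonneg_left h3 (show (0 : ℝ) ≤ 2 ^ n - 1 by linarith)
          linarith
      _ = 1 + (2 ^ (n + 1) - 1) * x := by rw [pow_succ]; ring

lemma gg_pow_le (κ h : ℕ) : gg h ^ κ ≤ ∏ p ∈ h.primeFactors, (1 + ((2 ^ κ : ℕ) : ℝ) / (p : ℝ)) := by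
  unfold gg
  rw [← prod_pow]
  apply prod_le_prod
  · intro p _; positivity
  · intro p hp
    have hp1 : (1 : ℝ) ≤ p := by exact_mod_cast (Nat.prime_of_mem_primeFactors hp).one_le
    have h0 : (0 : ℝ) < p := by linarith
    have h1 : (1 : ℝ) / p ≤ 1 := by rw [div_le_one h0]; exact hp1
    have h : (0 : ℝ) ≤ 1 / p := by positivity
    have h2 := pow_le_lin κ (1 / p) h h1
    push_cast
    have e : (2 : ℝ) ^ κ / p = 2 ^ κ * (1 / p) := by ring
    rw [e]
    linarith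

/-- powers of the logarithm against the square root -/
lemma log_powD (A D : ℕ) (hD : 1 ≤ D) : ∃ C : ℝ, 0 ≤ C ∧ ∀ x : ℕ, 1 ≤ x →
    Real.log ((A * x * x + 3 : ℕ) : ℝ) ^ D ≤ C * √(x : ℝ) := by
  obtain ⟨ε, hε⟩ : ∃ ε : ℝ, ε = 1 / (4 * D) := ⟨_, rfl⟩
  have hD0 : (0 : ℝ) < D := by exact_mod_cast hD
  have hε0 : 0 < ε := by rw [hε]; positivity
  have hεD : ε * D = 1 / 4 := by rw [hε]; field_simp
  refine ⟨(1 / ε) ^ D * ((A : ℝ) + 3) ^ (1 / 4 : ℝ), by positivity, fun x hx => ?_⟩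
  have hxr : (1 : ℝ) ≤ x := by exact_mod_cast hx
  have hx0 : (0 : ℝ) < x := by linarith
  have hA0 : (0 : ℝ) ≤ A := Nat.cast_nonneg A
  have hy : (1 : ℝ) ≤ ((A * x * x + 3 : ℕ) : ℝ) := by exact_mod_cast (by omega : 1 ≤ A * x * x + 3)
  have hy2 : ((A * x * x + 3 : ℕ) : ℝ) ≤ ((A : ℝ) + 3) * (x : ℝ) ^ 2 := by
    push_cast
    nlinarith [mul_le_mul hxr hxr (by norm_num) (by linarith)]
  have h1 : Real.log ((A * x * x + 3 : ℕ) : ℝ) ≤ ((A * x * x + 3 : ℕ) : ℝ) ^ ε / ε :=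
    Real.log_le_rpow_div (by linarith) hε0
  have h2 : ((A * x * x + 3 : ℕ) : ℝ) ^ ε ≤ (((A : ℝ) + 3) * (x : ℝ) ^ 2) ^ ε :=
    Real.rpow_le_rpow (by linarith) hy2 hε0.le
  have h3 : Real.log ((A * x * x + 3 : ℕ) : ℝ) ≤ 1 / ε * (((A : ℝ) + 3) * (x : ℝ) ^ 2) ^ ε := by
    refine h1.trans ?_
    rw [div_eq_mul_inv, mul_comm, one_div]
    exact mul_le_mul_of_nonneg_left h2 (by positivity)
  have h0 : 0 ≤ Real.log ((A * x * x + 3 : ℕ) : ℝ) := Real.log_nonneg hy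
  refine (pow_le_pow_left₀ h0 h3 D).trans (le_of_eq ?_)
  rw [mul_pow, Real.mul_rpow (by positivity) (by positivity), mul_pow, ← Real.rpow_natCast (((A : ℝ) + 3) ^ ε),
    ← Real.rpow_mul (by positivity), ← Real.rpow_natCast (((x : ℝ) ^ 2) ^ ε), ← Real.rpow_mul (by positivity),
    ← Real.rpow_natCast (x : ℝ) 2, ← Real.rpow_mul (by positivity), Real.sqrt_eq_rpow, hεD]
  have e2 : ((2 : ℕ) : ℝ) * (1 / 4) = 1 / 2 := by norm_num
  rw [e2]
  ring

/-- the sum over all sets of primes -/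
lemma rom_sets (D : ℕ) (hD : 1 ≤ D) (b : ℕ) (hb : 2 ≤ b) : ∃ C : ℝ, 0 ≤ C ∧ ∀ K : ℕ, 1 ≤ K → ∀ P : Finset ℕ, (∀ p ∈ P, p.Prime) → P.card ≤ 4 * b * K + 3 →
    ∑ T ∈ P.powerset, wD D T * (((K / oT b T : ℕ) : ℝ) + 1) ≤ C * K := by
  classical
  obtain ⟨C, hC1, hC⟩ := mert_prod
  obtain ⟨Q, hQ0, hQ⟩ := log_powD (4 * b) D hD
  obtain ⟨C', hC'⟩ : ∃ C' : ℝ, C' = (3 * C) ^ D * Q := ⟨_, rfl⟩
  have hC'0 : 0 ≤ C' := by rw [hC']; positivity
  have hU : ∀ x : ℕ, 1 ≤ x → ∀ S : Finset ℕ, (∀ p ∈ S, p.Prime) → S.card ≤ 4 * b * x * x + 3 →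
      ∏ p ∈ S, (1 + (D : ℝ) / (p : ℝ)) ≤ C' * √(x : ℝ) := by
    intro x hx S hS hcard
    have h1 := prod_U C (by linarith) hC S hS (4 * b * x * x + 3) (by omega) hcard
    have h2 : (1 : ℝ) ≤ ∏ p ∈ S, (1 + 1 / (p : ℝ)) := one_le_prod_one_add S
    refine (prodD_le D S).trans ((pow_le_pow_left₀ (by linarith) h1 D).trans ?_)
    have h3 : (3 * C) ^ D * Real.log ((4 * b * x * x + 3 : ℕ) : ℝ) ^ D ≤ (3 * C) ^ D * (Q * √(x : ℝ)) :=
      mul_le_mul_of_nonneg_left (hQ x hx) (by positivity)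
    have e1 : (3 * C * Real.log ((4 * b * x * x + 3 : ℕ) : ℝ)) ^ D = (3 * C) ^ D * Real.log ((4 * b * x * x + 3 : ℕ) : ℝ) ^ D := by rw [mul_pow]
    have e2 : C' * √(x : ℝ) = (3 * C) ^ D * (Q * √(x : ℝ)) := by rw [hC']; ring
    rw [e1, e2]
    exact h3
  refine ⟨4 * C', by positivity, fun K hK P hP hPc => ?_⟩
  have hK0 : (0 : ℝ) < K := by exact_mod_cast hK
  set α : ℕ → ℝ := fun o => ∑ T ∈ P.powerset.filter (fun T => oT b T = o ∧ ∃ s, 1 ≤ s ∧ ∀ p ∈ T, p ∣ b ^ (2 * s) - 1), wD D T with hα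
  have hα0 : ∀ o, 0 ≤ α o := fun o => sum_nonneg fun T _ => wD_nonneg D T
  -- the partial sums
  have hA : ∀ x : ℕ, 1 ≤ x → ∑ o ∈ Icc 1 x, α o ≤ C' * √(x : ℝ) := by
    intro x hx
    set U := (Icc 1 x).biUnion (fun o => (b ^ (2 * o) - 1).primeFactors) with hUd
    have h1 : ∑ o ∈ Icc 1 x, α o ≤ ∑ T ∈ U.powerset, wD D T := by
      have h2 : ∀ o ∈ Icc 1 x, α o ≤ ∑ T ∈ U.powerset, (if oT b T = o then wD D T else 0) := by
        intro o ho
        rw [← sum_filter]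
        apply sum_le_sum_of_subset_of_nonneg
        · intro T hT
          rw [mem_filter, mem_powerset] at hT
          rw [mem_filter, mem_powerset]
          refine ⟨?_, hT.2.1⟩
          intro p hp
          rw [hUd, mem_biUnion]
          refine ⟨o, ho, ?_⟩
          obtain ⟨s, hs1, hs2⟩ := hT.2.2
          have h3 := (oT_mem b T s hs1 hs2).2 p hp
          rw [hT.2.1] at h3
          rw [Nat.mem_primeFactors]
          refine ⟨hP p (hT.1 hp), h3, ?_⟩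
          rw [mem_Icc] at ho
          have : 2 ^ 1 ≤ b ^ (2 * o) := by
            calc 2 ^ 1 ≤ b ^ 1 := Nat.pow_le_pow_left hb 1
              _ ≤ b ^ (2 * o) := Nat.pow_le_pow_right (by omega) (by omega)
          omega
        · intro T _ _
          exact wD_nonneg D T
      refine (sum_le_sum h2).trans ?_
      rw [sum_comm]
      apply sum_le_sum
      intro T _
      rw [sum_ite_eq]
      split_ifs
      · exact le_rfl
      · exact wD_nonneg D T
    rw [← prod_eq_wD D] at h1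
    refine h1.trans (hU x hx U ?_ ?_)
    · intro p hp
      obtain ⟨o, _, hp⟩ := mem_biUnion.1 hp
      exact Nat.prime_of_mem_primeFactors hp
    · have h2 : U.card ≤ ∑ o ∈ Icc 1 x, 2 * b * x := by
        refine card_biUnion_le.trans (sum_le_sum fun o ho => ?_)
        rw [mem_Icc] at ho
        exact (card_pf_le b o hb ho.1).trans (Nat.mul_le_mul_left _ ho.2)
      rw [sum_const, Nat.card_Icc, smul_eq_mul] at h2
      have : (x + 1 - 1) * (2 * b * x) = 2 * b * x * x := by rw [Nat.add_sub_cancel]; ring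
      have h3 : 2 * b * x * x ≤ 4 * b * x * x := by
        apply Nat.mul_le_mul_right
        apply Nat.mul_le_mul_right
        omega
      omega
  -- splitting
  have hsplit : ∑ T ∈ P.powerset, wD D T * (((K / oT b T : ℕ) : ℝ) + 1) =
      ∑ T ∈ P.powerset, wD D T * ((K / oT b T : ℕ) : ℝ) + ∑ T ∈ P.powerset, wD D T := by
    rw [← sum_add_distrib]
    exact sum_congr rfl fun T _ => by ring
  have hpart2 : ∑ T ∈ P.powerset, wD D T ≤ C' * K := by
    rw [← prod_eq_wD D]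
    refine (hU K hK P hP ?_).trans ?_
    · refine hPc.trans ?_
      have : 4 * b * K * 1 ≤ 4 * b * K * K := Nat.mul_le_mul_left _ hK
      omega
    · apply mul_le_mul_of_nonneg_left _ hC'0
      rw [Real.sqrt_le_left hK0.le]
      have : (1 : ℝ) ≤ K := by exact_mod_cast hK
      nlinarith
  have hpart1 : ∑ T ∈ P.powerset, wD D T * ((K / oT b T : ℕ) : ℝ) ≤ K * ∑ o ∈ Icc 1 K, α o / o := by
    have h1 : ∀ T ∈ P.powerset, wD D T * ((K / oT b T : ℕ) : ℝ) ≤
        ∑ o ∈ Icc 1 K, (if (oT b T = o ∧ ∃ s, 1 ≤ s ∧ ∀ p ∈ T, p ∣ b ^ (2 * s) - 1) then wD D T * (K / o) else 0) := by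
      intro T _
      have hnn : ∀ o ∈ Icc 1 K, 0 ≤ (if (oT b T = o ∧ ∃ s, 1 ≤ s ∧ ∀ p ∈ T, p ∣ b ^ (2 * s) - 1) then wD D T * ((K : ℝ) / o) else 0) := by
        intro o _
        split_ifs
        · exact mul_nonneg (wD_nonneg D T) (by positivity)
        · exact le_rfl
      by_cases h2 : oT b T ∈ Icc 1 K
      · have h3 : ∃ s, 1 ≤ s ∧ ∀ p ∈ T, p ∣ b ^ (2 * s) - 1 := by
          by_contra hcon
          have : oT b T = 0 := by
            unfold oT
            have hempty : {s : ℕ | 1 ≤ s ∧ ∀ p ∈ T, p ∣ b ^ (2 * s) - 1} = ∅ := by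
              rw [Set.eq_empty_iff_forall_notMem]
              intro s hs
              exact hcon ⟨s, hs⟩
            rw [hempty]
            exact Nat.sInf_empty
          rw [this, mem_Icc] at h2
          omega
        refine le_trans ?_ (single_le_sum hnn h2)
        rw [if_pos ⟨rfl, h3⟩]
        exact mul_le_mul_of_nonneg_left Nat.cast_div_le (wD_nonneg D T)
      · have h3 : K / oT b T = 0 := by
          rw [mem_Icc] at h2
          rcases Nat.eq_zero_or_pos (oT b T) with h4 | h4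
          · rw [h4, Nat.div_zero]
          · exact Nat.div_eq_of_lt (by omega)
        rw [h3, Nat.cast_zero, mul_zero]
        exact sum_nonneg hnn
    refine (sum_le_sum h1).trans ?_
    rw [sum_comm, mul_sum]
    apply sum_le_sum
    intro o _
    rw [← sum_filter, ← sum_mul]
    apply le_of_eq
    simp only [hα]
    ring
  rw [hsplit]
  have h1 := abel_sum α C' hC'0 hA K
  have h2 : (∑ o ∈ Icc 1 K, α o) / ((K : ℝ) + 1) ≤ C' := by
    rw [div_le_iff₀ (by positivity)]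
    refine (hA K hK).trans ?_
    apply mul_le_mul_of_nonneg_left _ hC'0
    rw [Real.sqrt_le_left (by positivity)]
    nlinarith
  have h3 : C' * (2 - 2 / √((K : ℝ) + 1)) ≤ C' * 2 := by
    apply mul_le_mul_of_nonneg_left _ hC'0
    have : 0 ≤ 2 / √((K : ℝ) + 1) := by positivity
    linarith
  have h4 : ∑ o ∈ Icc 1 K, α o / o ≤ 3 * C' := by linarith
  have h5 : (K : ℝ) * ∑ o ∈ Icc 1 K, α o / o ≤ K * (3 * C') := mul_le_mul_of_nonneg_left h4 hK0.le
  linarith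
/-- the large and the small primes do not matter -/
lemma gg_pow_split (κ b Y n : ℕ) (hY : 1 ≤ Y) (hn : n.primeFactors.card ≤ Y) :
    gg n ^ κ ≤ (1 + ((2 ^ κ : ℕ) : ℝ)) ^ b * Real.exp ((2 ^ κ : ℕ) : ℝ) *
      ∑ T ∈ (n.primeFactors.filter (fun p => b < p ∧ p ≤ Y)).powerset, wD (2 ^ κ) T := by
  classical
  obtain ⟨D, hD⟩ : ∃ D : ℕ, D = 2 ^ κ := ⟨_, rfl⟩
  have hY0 : (0 : ℝ) < Y := by exact_mod_cast hY
  have hD0 : (0 : ℝ) ≤ D := Nat.cast_nonneg D
  refine (gg_pow_le κ n).trans ?_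
  rw [← hD]
  rw [← prod_eq_wD, ← prod_filter_mul_prod_filter_not n.primeFactors (fun p => p ≤ b),
    ← prod_filter_mul_prod_filter_not (n.primeFactors.filter (fun p => ¬ p ≤ b)) (fun p => p ≤ Y)]
  have h1 : ∏ p ∈ n.primeFactors.filter (fun p => p ≤ b), (1 + (D : ℝ) / (p : ℝ)) ≤ (1 + (D : ℝ)) ^ b := by
    have h2 : ∏ p ∈ n.primeFactors.filter (fun p => p ≤ b), (1 + (D : ℝ) / (p : ℝ)) ≤ ∏ _p ∈ n.primeFactors.filter (fun p => p ≤ b), (1 + (D : ℝ)) := by
      apply prod_le_prod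
      · intro p _; positivity
      · intro p hp
        rw [mem_filter] at hp
        have hp1 : (1 : ℝ) ≤ p := by exact_mod_cast (Nat.prime_of_mem_primeFactors hp.1).one_le
        have : (D : ℝ) / p ≤ D := div_le_self hD0 hp1
        linarith
    rw [prod_const] at h2
    refine h2.trans ?_
    apply pow_le_pow_right₀ (by linarith)
    have h3 : n.primeFactors.filter (fun p => p ≤ b) ⊆ Icc 1 b := by
      intro p hp
      rw [mem_filter] at hp
      rw [mem_Icc]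
      exact ⟨(Nat.prime_of_mem_primeFactors hp.1).one_le, hp.2⟩
    have := card_le_card h3
    rwa [Nat.card_Icc, Nat.add_sub_cancel] at this
  have h2 : ∏ p ∈ (n.primeFactors.filter (fun p => ¬ p ≤ b)).filter (fun p => ¬ p ≤ Y), (1 + (D : ℝ) / (p : ℝ)) ≤ Real.exp D := by
    have h3 : ∏ p ∈ (n.primeFactors.filter (fun p => ¬ p ≤ b)).filter (fun p => ¬ p ≤ Y), (1 + (D : ℝ) / (p : ℝ)) ≤
        ∏ _p ∈ (n.primeFactors.filter (fun p => ¬ p ≤ b)).filter (fun p => ¬ p ≤ Y), (1 + (D : ℝ) / (Y : ℝ)) := by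
      apply prod_le_prod
      · intro p _; positivity
      · intro p hp
        rw [mem_filter] at hp
        have h4 : (Y : ℝ) ≤ p := by exact_mod_cast (by omega : Y ≤ p)
        have : (D : ℝ) / p ≤ D / Y := div_le_div_of_nonneg_left hD0 hY0 h4
        linarith
    rw [prod_const] at h3
    refine h3.trans ?_
    have h4 : (1 + (D : ℝ) / (Y : ℝ)) ^ ((n.primeFactors.filter (fun p => ¬ p ≤ b)).filter (fun p => ¬ p ≤ Y)).card ≤ (1 + (D : ℝ) / (Y : ℝ)) ^ Y :=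
      pow_le_pow_right₀ (by have : (0 : ℝ) ≤ D / Y := by positivity
                            linarith) (((card_filter_le _ _).trans (card_filter_le _ _)).trans hn)
    refine h4.trans ?_
    have h5 : (1 + (D : ℝ) / (Y : ℝ)) ^ Y ≤ Real.exp (D / Y) ^ Y := by
      apply pow_le_pow_left₀ (by positivity)
      rw [add_comm]
      exact Real.add_one_le_exp _
    refine h5.trans (le_of_eq ?_)
    rw [← Real.exp_nat_mul]
    congr 1
    field_simp
  have h3 : (n.primeFactors.filter (fun p => ¬ p ≤ b)).filter (fun p => p ≤ Y) = n.primeFactors.filter (fun p => b < p ∧ p ≤ Y) := by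
    rw [filter_filter]
    apply filter_congr
    intro p _
    rw [not_le]
  rw [h3]
  have g1 : 1 ≤ ∏ p ∈ n.primeFactors.filter (fun p => p ≤ b), (1 + (D : ℝ) / (p : ℝ)) := one_le_prodD D _
  have g2 : 1 ≤ ∏ p ∈ (n.primeFactors.filter (fun p => ¬ p ≤ b)).filter (fun p => ¬ p ≤ Y), (1 + (D : ℝ) / (p : ℝ)) := one_le_prodD D _
  have g3 : 1 ≤ ∏ p ∈ n.primeFactors.filter (fun p => b < p ∧ p ≤ Y), (1 + (D : ℝ) / (p : ℝ)) := one_le_prodD D _
  obtain ⟨x, hx⟩ : ∃ x, x = ∏ p ∈ n.primeFactors.filter (fun p => p ≤ b), (1 + (D : ℝ) / (p : ℝ)) := ⟨_, rfl⟩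
  obtain ⟨y, hy⟩ : ∃ y, y = ∏ p ∈ (n.primeFactors.filter (fun p => ¬ p ≤ b)).filter (fun p => ¬ p ≤ Y), (1 + (D : ℝ) / (p : ℝ)) := ⟨_, rfl⟩
  obtain ⟨v, hv⟩ : ∃ v, v = ∏ p ∈ n.primeFactors.filter (fun p => b < p ∧ p ≤ Y), (1 + (D : ℝ) / (p : ℝ)) := ⟨_, rfl⟩
  rw [← hx] at h1 g1 ⊢
  rw [← hy] at h2 g2 ⊢
  rw [← hv] at g3 ⊢
  calc x * (v * y) = (x * y) * v := by ring
    _ ≤ ((1 + (D : ℝ)) ^ b * Real.exp D) * v := by
        apply mul_le_mul_of_nonneg_right _ (by linarith)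
        exact mul_le_mul h1 h2 (by linarith) (by positivity)

/-- Romanoff's sum for `e j * b ^ j + s` -/
theorem rom_pow (κ : ℕ) (b : ℕ) (hb : 2 ≤ b) : ∃ C : ℝ, 0 ≤ C ∧ ∀ K : ℕ, 1 ≤ K → ∀ e : ℕ → ℤ, (∀ j, e j ≠ 0 ∧ |e j| < b) →
    ∀ J ⊆ range K, ∀ s : ℤ, |s| ≤ (b : ℤ) ^ (2 * K) →
    ∑ j ∈ J, (if e j * (b : ℤ) ^ j + s = 0 then 0 else gg (e j * (b : ℤ) ^ j + s).natAbs ^ κ) ≤ C * K := by
  classical
  obtain ⟨C, hC0, hC⟩ := rom_sets (2 ^ κ) (Nat.one_le_two_pow) b hb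
  refine ⟨(1 + ((2 ^ κ : ℕ) : ℝ)) ^ b * Real.exp ((2 ^ κ : ℕ) : ℝ) * (2 * b * C), by positivity, fun K hK e he J hJ s hs => ?_⟩
  obtain ⟨Y, hY⟩ : ∃ Y, Y = 4 * b * K := ⟨_, rfl⟩
  have hbK : 1 ≤ b * K := Nat.mul_pos (by omega) hK
  have hY' : Y = 4 * (b * K) := by rw [hY]; ring
  obtain ⟨P, hP⟩ : ∃ P, P = (Icc 1 Y).filter (fun p => p.Prime ∧ b < p) := ⟨_, rfl⟩
  -- size
  have hsize : ∀ j ∈ J, e j * (b : ℤ) ^ j + s ≠ 0 → (e j * (b : ℤ) ^ j + s).natAbs.primeFactors.card ≤ Y := by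
    intro j hj hne
    have hj' := mem_range.1 (hJ hj)
    apply card_pf
    · omega
    · have h1 : |e j * (b : ℤ) ^ j + s| ≤ 2 * (b : ℤ) ^ (2 * K) := by
        refine (abs_add_le _ _).trans ?_
        rw [abs_mul, abs_of_nonneg (show (0 : ℤ) ≤ (b : ℤ) ^ j by positivity)]
        have h2 : |e j| * (b : ℤ) ^ j ≤ (b : ℤ) ^ (2 * K) := by
          calc |e j| * (b : ℤ) ^ j ≤ b * (b : ℤ) ^ j := mul_le_mul_of_nonneg_right (he j).2.le (by positivity)
            _ = (b : ℤ) ^ (j + 1) := by ring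
            _ ≤ (b : ℤ) ^ (2 * K) := pow_le_pow_right₀ (by exact_mod_cast (by omega : 1 ≤ b)) (by omega)
        linarith
      have h2 : ((e j * (b : ℤ) ^ j + s).natAbs : ℤ) ≤ ((2 * b ^ (2 * K) : ℕ) : ℤ) := by
        rw [Int.natCast_natAbs]
        push_cast
        exact h1
      have h3 : (e j * (b : ℤ) ^ j + s).natAbs ≤ 2 * b ^ (2 * K) := by exact_mod_cast h2
      refine h3.trans ?_
      have h4 : b ^ (2 * K) ≤ 2 ^ (b * (2 * K)) := by
        rw [pow_mul 2 b (2 * K)]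
        exact Nat.pow_le_pow_left Nat.lt_two_pow_self.le _
      calc 2 * b ^ (2 * K) ≤ 2 * 2 ^ (b * (2 * K)) := Nat.mul_le_mul_left _ h4
        _ = 2 ^ (b * (2 * K) + 1) := by rw [pow_succ']
        _ ≤ 2 ^ Y := by
            apply Nat.pow_le_pow_right (by norm_num)
            have e5 : b * (2 * K) = 2 * (b * K) := by ring
            rw [hY', e5]
            omega
  -- each position
  have hpos : ∀ j ∈ J, (if e j * (b : ℤ) ^ j + s = 0 then 0 else gg (e j * (b : ℤ) ^ j + s).natAbs ^ κ) ≤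
      (1 + ((2 ^ κ : ℕ) : ℝ)) ^ b * Real.exp ((2 ^ κ : ℕ) : ℝ) * ∑ T ∈ P.powerset, (if (∀ p ∈ T, (p : ℤ) ∣ e j * (b : ℤ) ^ j + s) then wD (2 ^ κ) T else 0) := by
    intro j hj
    have hnn : ∀ T ∈ P.powerset, 0 ≤ (if (∀ p ∈ T, (p : ℤ) ∣ e j * (b : ℤ) ^ j + s) then wD (2 ^ κ) T else 0) := by
      intro T _
      split_ifs
      · exact wD_nonneg _ T
      · exact le_rfl
    by_cases hne : e j * (b : ℤ) ^ j + s = 0
    · rw [if_pos hne]
      exact mul_nonneg (by positivity) (sum_nonneg hnn)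
    · rw [if_neg hne]
      refine (gg_pow_split κ b Y _ (by omega) (hsize j hj hne)).trans ?_
      apply mul_le_mul_of_nonneg_left _ (by positivity)
      rw [← sum_filter]
      apply sum_le_sum_of_subset_of_nonneg
      · intro T hT
        rw [mem_powerset] at hT
        rw [mem_filter, mem_powerset]
        constructor
        · intro p hp
          have := hT hp
          rw [mem_filter] at this
          rw [hP, mem_filter, mem_Icc]
          have hpp := Nat.prime_of_mem_primeFactors this.1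
          exact ⟨⟨hpp.one_le, this.2.2⟩, hpp, this.2.1⟩
        · intro p hp
          have := hT hp
          rw [mem_filter] at this
          exact Int.natCast_dvd.2 (Nat.dvd_of_mem_primeFactors this.1)
      · intro T _ _
        exact wD_nonneg _ T
  refine (sum_le_sum hpos).trans ?_
  rw [← mul_sum, mul_assoc ((1 + ((2 ^ κ : ℕ) : ℝ)) ^ b * Real.exp ((2 ^ κ : ℕ) : ℝ))]
  apply mul_le_mul_of_nonneg_left _ (by positivity)
  rw [sum_comm]
  have hcol : ∀ T ∈ P.powerset, ∑ j ∈ J, (if (∀ p ∈ T, (p : ℤ) ∣ e j * (b : ℤ) ^ j + s) then wD (2 ^ κ) T else 0) ≤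
      2 * b * (wD (2 ^ κ) T * (((K / oT b T : ℕ) : ℝ) + 1)) := by
    intro T hT
    rw [mem_powerset] at hT
    rw [← sum_filter, sum_const, nsmul_eq_mul]
    have h1 := cnt_all b K hb e he s T (fun p hp => by
      have := hT hp
      rw [hP, mem_filter] at this
      exact this.2) J hJ
    have h2 : ((J.filter (fun j => ∀ p ∈ T, (p : ℤ) ∣ e j * (b : ℤ) ^ j + s)).card : ℝ) ≤ 2 * b * (((K / oT b T : ℕ) : ℝ) + 1) := by
      exact_mod_cast h1
    calc _ ≤ (2 * b * (((K / oT b T : ℕ) : ℝ) + 1)) * wD (2 ^ κ) T := mul_le_mul_of_nonneg_right h2 (wD_nonneg _ T)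
      _ = _ := by ring
  refine (sum_le_sum hcol).trans ?_
  rw [← mul_sum, mul_assoc (2 * (b : ℝ))]
  apply mul_le_mul_of_nonneg_left _ (by positivity)
  apply hC K hK P
  · intro p hp
    rw [hP, mem_filter] at hp
    exact hp.2.1
  · have h1 : P.card ≤ (Icc 1 Y).card := by
      rw [hP]
      exact card_filter_le _ _
    rw [Nat.card_Icc] at h1
    omega

end Pool.Agent.Y820.LT.RR

namespace Pool.Agent.Y820.LT

theorem t_R : S_R := by
  intro b hb κ
  obtain ⟨C, hC, h⟩ := RR.rom_pow κ b hb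
  exact ⟨C, hC, fun K hK => h K (by omega)⟩

end Pool.Agent.Y820.LT
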