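import Pool.Agent.Y820.LT.Stm

set_option autoImplicit false

/-! The deterministic part with errors of the size of a small multiple of `N`. -/

namespace Pool.Agent.Y820.LT.DD
open Finset
open Pool.Agent.H807R2.Dav
open Pool.Agent.H373R2.T7
open Pool.Agent.W93.DG
open Pool.Agent.W93.RD
open Pool.Agent.W93.TD
open Pool.Agent.H560R3.GB

lemma tuple_transfer' (k B : ℕ) (c ε : ℝ) (hc : 0 < c) (hε : 0 < ε) : ∃ d0 : ℝ, 0 < d0 ∧ ∃ n1 : ℕ, ∀ N : ℕ, n1 ≤ N →
    ∀ a : Fin k → ℕ, (∀ i, a i ≤ B * N) → ∀ S : ℝ, c ≤ S →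
    |tupleCount (fun i => (a i : ℤ)) N - S * N| ≤ d0 * N →
    |(primeTuples a N : ℝ) - S * (N / Real.log N ^ (k + 1))| ≤ ε * (S * (N / Real.log N ^ (k + 1))) := by
  obtain ⟨δ, hδ0, hδ1, hδa, hδb⟩ := choose_delta k ε hε
  have hlim : Filter.Tendsto (fun n : ℕ => (n : ℝ)) Filter.atTop Filter.atTop := tendsto_natCast_atTop_atTop
  have h1 : ∀ᶠ n : ℕ in Filter.atTop, Real.log n ^ (k + 1) ≤ (δ * c) * (n : ℝ) ^ δ := by
    have h := (isLittleO_log_rpow_rpow_atTop ((k + 1 : ℕ) : ℝ) (show (0 : ℝ) < δ by positivity)).bound (show 0 < δ * c by positivity)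
    filter_upwards [hlim.eventually h, hlim.eventually_ge_atTop 1] with n hn hn1
    have h0 : 0 ≤ Real.log (n : ℝ) := Real.log_nonneg hn1
    rw [Real.norm_of_nonneg (by positivity), Real.norm_of_nonneg (by positivity), Real.rpow_natCast] at hn
    exact hn
  obtain ⟨n1, hn1⟩ := Filter.eventually_atTop.1 h1
  obtain ⟨n2, hn2⟩ := ev_L' (Real.log (B + 1) / δ + 1 / (δ * c) + 1)
  refine ⟨δ * c, by positivity, max n1 (max n2 3), fun N hN a ha S hS hT => ?_⟩
  have b1 := hn1 N ((le_max_left _ _).trans hN)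
  have b2 := hn2 N (((le_max_left _ _).trans (le_max_right _ _)).trans hN)
  have hN3 : 3 ≤ N := ((le_max_right _ _).trans (le_max_right _ _)).trans hN
  have hNr : (3 : ℝ) ≤ N := by exact_mod_cast hN3
  have hN0 : (0 : ℝ) < N := by linarith
  have hB0 : (0 : ℝ) ≤ B := Nat.cast_nonneg _
  have hB1 : (0 : ℝ) < (B : ℝ) + 1 := by linarith
  have hlB : 0 ≤ Real.log ((B : ℝ) + 1) := Real.log_nonneg (by linarith)
  set L := Real.log (N : ℝ) with hLd
  have q1 : 0 ≤ Real.log (B + 1) / δ := by positivity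
  have q2 : 0 < 1 / (δ * c) := by positivity
  have hL1 : 1 ≤ L := by linarith
  have hL0 : 0 < L := by linarith
  have hLB : Real.log ((B : ℝ) + 1) ≤ δ * L := by
    have h : Real.log ((B : ℝ) + 1) / δ ≤ L := by linarith
    rw [div_le_iff₀ hδ0] at h
    linarith
  have hLc : 1 / L ≤ δ * c := by
    have h : 1 / (δ * c) ≤ L := by linarith
    rw [div_le_iff₀ (by positivity)] at h ⊢
    linarith
  have hup := tuple_upper a N B ha
  have hlo := tuple_lower a N ((N : ℝ) ^ (1 - δ)) ((1 - δ) * L)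
    (Real.one_le_rpow (by linarith) (by linarith)) (mul_nonneg (by linarith) hL0.le)
    (by rw [Real.log_rpow hN0])
  set T := tupleCount (fun i => (a i : ℤ)) N with hTd
  set P : ℝ := (primeTuples a N : ℝ) with hP
  have hP0 : 0 ≤ P := Nat.cast_nonneg _
  set M : ℝ := S * N with hM
  have hMc : c * N ≤ M := mul_le_mul_of_nonneg_right hS hN0.le
  have hM0 : 0 < M := lt_of_lt_of_le (by positivity) hMc
  have hδM : δ * c * N ≤ δ * M := by
    calc δ * c * N = δ * (c * N) := by ring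
      _ ≤ δ * M := mul_le_mul_of_nonneg_left hMc hδ0.le
  obtain ⟨t1, t2⟩ := abs_le.1 (hT.trans hδM)
  -- upper
  have hLp : Real.log ((B + 1) * N) ≤ (1 + δ) * L := by
    rw [Real.log_mul hB1.ne' hN0.ne', ← hLd]
    linarith
  have hLp0 : 0 ≤ Real.log ((B + 1) * N) := by
    apply Real.log_nonneg
    nlinarith
  have u1 : T ≤ (1 + δ) ^ (k + 1) * (L ^ (k + 1) * P) := by
    refine hup.trans ?_
    rw [← mul_assoc, ← mul_pow]
    exact mul_le_mul_of_nonneg_right (pow_le_pow_left₀ hLp0 hLp _) hP0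
  -- lower
  have u2 : (1 - δ) ^ (k + 1) * (L ^ (k + 1) * P) ≤ T + δ * M := by
    rw [← mul_assoc, ← mul_pow]
    refine hlo.trans ?_
    apply add_le_add le_rfl
    have h5 : ((1 - δ) * L) ^ (k + 1) ≤ L ^ (k + 1) := by
      apply pow_le_pow_left₀ (mul_nonneg (by linarith) hL0.le)
      nlinarith
    have e : (N : ℝ) ^ (1 - δ) * (N : ℝ) ^ δ = N := by
      rw [← Real.rpow_add hN0]; norm_num
    calc ((1 - δ) * L) ^ (k + 1) * (N : ℝ) ^ (1 - δ) ≤ ((δ * c) * (N : ℝ) ^ δ) * (N : ℝ) ^ (1 - δ) :=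
          mul_le_mul_of_nonneg_right (h5.trans b1) (by positivity)
      _ = δ * (c * ((N : ℝ) ^ (1 - δ) * (N : ℝ) ^ δ)) := by ring
      _ = δ * (c * N) := by rw [e]
      _ ≤ δ * M := mul_le_mul_of_nonneg_left hMc hδ0.le
  set X : ℝ := L ^ (k + 1) * P with hX
  have g1 : (1 - ε) * M ≤ X := by
    have p1 : 0 < (1 + δ) ^ (k + 1) := by positivity
    have h6 : (1 - ε) * (1 + δ) ^ (k + 1) * M ≤ (1 - δ) * M := mul_le_mul_of_nonneg_right hδa hM0.le
    have h7 : (1 + δ) ^ (k + 1) * ((1 - ε) * M) ≤ (1 + δ) ^ (k + 1) * X := by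
      have : (1 + δ) ^ (k + 1) * ((1 - ε) * M) = (1 - ε) * (1 + δ) ^ (k + 1) * M := by ring
      linarith
    exact le_of_mul_le_mul_left h7 p1
  have g2 : X ≤ (1 + ε) * M := by
    have p1 : 0 < (1 - δ) ^ (k + 1) := by
      have : 0 < 1 - δ := by linarith
      positivity
    have h6 : (1 + 2 * δ) * M ≤ (1 + ε) * (1 - δ) ^ (k + 1) * M := mul_le_mul_of_nonneg_right hδb hM0.le
    have h7 : (1 - δ) ^ (k + 1) * X ≤ (1 - δ) ^ (k + 1) * ((1 + ε) * M) := by
      have : (1 - δ) ^ (k + 1) * ((1 + ε) * M) = (1 + ε) * (1 - δ) ^ (k + 1) * M := by ring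
      linarith
    exact le_of_mul_le_mul_left h7 p1
  have hLk : 0 < L ^ (k + 1) := by positivity
  have e1 : S * (N / L ^ (k + 1)) = M / L ^ (k + 1) := by rw [hM]; ring
  have e2 : P = X / L ^ (k + 1) := by rw [hX]; field_simp
  rw [e1, e2, ← sub_div, abs_div, abs_of_pos hLk, ← mul_div_assoc]
  apply div_le_div_of_nonneg_right _ hLk.le
  rw [abs_le]
  constructor <;> linarith

/-- the full singular series -/
lemma det2' (k B E1 U : ℕ) (hE1 : U + k + 4 ≤ E1) : ∃ n0 : ℕ, ∀ N : ℕ, n0 ≤ N → ∀ z : ℕ, Real.log N ^ E1 ≤ z →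
    (z : ℝ) ≤ Real.log N ^ (E1 + 1) →
    ∀ a : Fin k → ℕ, (∀ i, a i ≤ B * N) → (∀ i, a i ≠ 0) → (∀ i j, i ≠ j → a i ≠ a j) →
    ∃ S : ℝ, Filter.Tendsto (fun z => singZ (fun i => (a i : ℤ)) z) Filter.atTop (nhds S) ∧
      |S - singZ (fun i => (a i : ℤ)) z| ≤ 1 / Real.log N ^ (U + 2) := by
  obtain ⟨n2, h2⟩ := Vz_inv_small (E1 + 1)
  set c1 : ℕ := 1 + B with hc1
  set c2 : ℝ := (k + 1 : ℝ) ^ 2 + 4 * (k + 1) * ((k + k * k) * 8) with hc2
  obtain ⟨n5, h5⟩ := ev_L' (Real.log (2 * c1) + 4 * (k + k * k) + c2 + 3 * (k + 1) + 16)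
  refine ⟨max n2 (max n5 3), fun N hN z hz1 hz2 a ha hne hinj => ?_⟩
  have b2 := le_trans (le_max_left _ _) hN
  have b5 := le_trans (le_trans (le_max_left _ _) (le_max_right _ _)) hN
  have hN3 : 3 ≤ N := le_trans (le_trans (le_max_right _ _) (le_max_right _ _)) hN
  have hNr : (3 : ℝ) ≤ N := by exact_mod_cast hN3
  have hN0' : (0 : ℝ) < N := by linarith
  have hL := h5 N b5
  set L := Real.log N with hLd
  have hc1r : (1 : ℝ) ≤ c1 := by rw [hc1]; push_cast; linarith [Nat.cast_nonneg (α := ℝ) B]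
  have hk0 : (0 : ℝ) ≤ k := Nat.cast_nonneg _
  have hlc1 : 0 ≤ Real.log (2 * c1) := Real.log_nonneg (by linarith)
  have hc20 : 0 < c2 := by positivity
  have hkD : 0 ≤ 4 * ((k : ℝ) + k * k) := by positivity
  have hL16 : 16 ≤ L := by nlinarith
  have hL1 : 1 ≤ L := by linarith
  have hL0 : 0 < L := by linarith
  have hLa : Real.log (2 * c1) ≤ L := by linarith
  have hLb : 4 * ((k : ℝ) + k * k) ≤ L := by linarith
  have hLc : c2 ≤ L := by linarith
  have hLd' : 3 * ((k : ℝ) + 1) ≤ L := by linarith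
  have hz0 : (0 : ℝ) < z := lt_of_lt_of_le (by positivity) hz1
  have hzn : 1 ≤ z := by exact_mod_cast hz0
  have hV := h2 N b2 z hzn hz2
  set a' : Fin k → ℤ := fun i => (a i : ℤ) with ha'
  have ha1 : ∀ i, a' i ≠ 0 := fun i hi => hne i (by rw [ha'] at hi; simpa using hi)
  have ha2 : ∀ i j, i ≠ j → a' i ≠ a' j := fun i j hij he => hinj i j hij (by rw [ha'] at he; simpa using he)
  obtain ⟨S, hS, hSb⟩ := sing_limit a' ha1 ha2
  refine ⟨S, hS, ?_⟩
  -- size of the shifts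
  have hsize : ∀ i, (a' i).natAbs ≤ c1 * N := by
    intro i
    have h6 := ha i
    have h7 : (a' i).natAbs = a i := by rw [ha']; exact Int.natAbs_natCast _
    rw [h7, hc1, add_mul]
    omega
  set Y := 2 * c1 * N with hY
  have hbad := card_badP a' Y (fun i => (hsize i).trans (by rw [hY]; nlinarith [Nat.zero_le (c1 * N)])) (fun i j => by
    have h6 := Int.natAbs_sub_le (a' i) (a' j)
    have h7 := hsize i
    have h8 := hsize j
    rw [hY]
    calc (a' i - a' j).natAbs ≤ c1 * N + c1 * N := h6.trans (add_le_add h7 h8)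
      _ = _ := by ring)
  have hY1 : 1 ≤ Y := by rw [hY, hc1]; nlinarith
  have hlogY : (Nat.log 2 Y : ℝ) ≤ 4 * L := by
    refine (natlog_le Y hY1).trans ?_
    have h6 : (Y : ℝ) = (2 * c1) * N := by rw [hY]; push_cast; ring
    rw [h6, Real.log_mul (by positivity) hN0'.ne']
    linarith
  have hKc : Kc a' ≤ c2 * L := by
    unfold Kc
    have h6 : ((badP a').card : ℝ) ≤ (k + k * k) * (4 * L) := by
      have h7 : ((badP a').card : ℝ) ≤ (k + k * k) * (Nat.log 2 Y : ℝ) := by exact_mod_cast hbad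
      refine h7.trans ?_
      apply mul_le_mul_of_nonneg_left hlogY (by positivity)
    push_cast
    calc ((k : ℝ) + 1) ^ 2 + 4 * (k + 1) * ((badP a').card : ℝ) ≤ ((k : ℝ) + 1) ^ 2 * L + 4 * (k + 1) * ((k + k * k) * (4 * L)) := by
          apply add_le_add
          · exact le_mul_of_one_le_right (by positivity) hL1
          · gcongr
      _ ≤ c2 * L := by
          rw [hc2]
          have : 0 ≤ 4 * ((k : ℝ) + 1) * ((k + k * k) * (4 * L)) := by positivity
          nlinarith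
  have hKL : Kc a' ≤ L ^ 2 := by nlinarith
  have hL2z : L ^ 2 ≤ z := (pow_le_pow_right₀ hL1 (by omega)).trans hz1
  have h3k : 3 * (k + 1) ≤ z := by
    have h6 : (3 * ((k : ℝ) + 1)) ≤ z := by
      have : L ≤ L ^ 2 := by nlinarith
      linarith
    exact_mod_cast h6
  have hdiff := hSb z h3k (hKL.trans hL2z)
  have hsz := singZ_le a' z L hV
  have hs0 := singZ_nonneg a' z
  have hdiff2 : |S - singZ a' z| ≤ 1 / L ^ (U + 2) := by
    refine hdiff.trans ?_
    calc singZ a' z * (Kc a' / z) ≤ L ^ k * (L ^ 2 / L ^ E1) := by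
          apply mul_le_mul hsz _ (by
            apply div_nonneg _ hz0.le
            unfold Kc; positivity) (by positivity)
          apply div_le_div₀ (by positivity) hKL (by positivity) hz1
      _ = L ^ (k + 2) / L ^ E1 := by rw [pow_add]; ring
      _ ≤ 1 / L ^ (U + 2) := by
          rw [div_le_div_iff₀ (by positivity) (by positivity), one_mul, ← pow_add]
          exact pow_le_pow_right₀ hL1 (by omega)
  exact hdiff2

lemma ev_L'' (c : ℝ) : ∃ n : ℕ, ∀ N : ℕ, n ≤ N → c ≤ Real.log N := ev_L' c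

end Pool.Agent.Y820.LT.DD

namespace Pool.Agent.Y820.LT
open Finset
open Pool.Agent.H373R2.T7
open Pool.Agent.W93.TD
open Pool.Agent.H560R3.GB

theorem t_D : S_D := by
  intro k B E1 hk hE1 ε hε
  obtain ⟨c, hc, hlow⟩ := Pool.Agent.H373R2.T7.singZ_low k
  obtain ⟨d0, hd0, n3, h3⟩ := DD.tuple_transfer' k B c ε hc hε
  obtain ⟨δ, hδ⟩ : ∃ δ : ℝ, δ = min (ε / 4) (d0 / 4) := ⟨_, rfl⟩
  have hδ0 : 0 < δ := by rw [hδ]; exact lt_min (by positivity) (by positivity)
  have hδε : 4 * δ ≤ ε := by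
    have : δ ≤ ε / 4 := by rw [hδ]; exact min_le_left _ _
    linarith
  have hδd : 4 * δ ≤ d0 := by
    have : δ ≤ d0 / 4 := by rw [hδ]; exact min_le_right _ _
    linarith
  obtain ⟨n1, h1⟩ := det1 k B (E1 + 1) 1 hk
  obtain ⟨n2, h2⟩ := DD.det2' k B E1 0 (by omega)
  obtain ⟨n4, h4⟩ := DD.ev_L'' (1 + 1 / δ)
  refine ⟨δ, hδ0, n1 + n2 + n3 + n4 + 3, fun N hN z hz1 hz2 a ha hne hinj hD => ?_⟩
  have hL := h4 N (by omega)
  have hδi : 0 < 1 / δ := by positivity
  have hL1 : 1 ≤ Real.log (N : ℝ) := by linarith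
  have hL0 : 0 < Real.log (N : ℝ) := by linarith
  have hN0 : (0 : ℝ) ≤ N := Nat.cast_nonneg _
  have hLδ : 1 / Real.log (N : ℝ) ≤ δ := by
    rw [div_le_iff₀ hL0]
    have : 1 / δ ≤ Real.log N := by linarith
    rw [div_le_iff₀ hδ0] at this
    linarith
  have hz : 1 ≤ z := by
    have : (1 : ℝ) ≤ z := (one_le_pow₀ hL1).trans hz1
    exact_mod_cast this
  have e1 := h1 N (by omega) z hz hz2 a ha
  obtain ⟨S, hS, hS2⟩ := h2 N (by omega) z hz1 hz2 a ha hne hinj
  have e2 : (N : ℝ) / Real.log N ^ 1 ≤ δ * N := by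
    rw [pow_one, div_eq_mul_one_div, mul_comm]
    exact mul_le_mul_of_nonneg_right hLδ hN0
  have e3 : 1 / Real.log (N : ℝ) ^ (0 + 2) ≤ δ := by
    refine le_trans ?_ hLδ
    apply one_div_le_one_div_of_le hL0
    exact le_self_pow₀ hL1 (by norm_num)
  have e4 : |tupleCount (fun i => (a i : ℤ)) N - S * N| ≤ 4 * δ * N := by
    have q1 : tupleCount (fun i => (a i : ℤ)) N - S * N =
        (tupleCount (fun i => (a i : ℤ)) N - singZ (fun i => (a i : ℤ)) z * N) - (S - singZ (fun i => (a i : ℤ)) z) * N := by ring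
    rw [q1]
    refine (abs_sub _ _).trans ?_
    rw [abs_mul, abs_of_nonneg hN0]
    have q2 := mul_le_mul_of_nonneg_right (hS2.trans e3) hN0
    have q3 : 0 ≤ δ * (N : ℝ) := by positivity
    linarith
  refine ⟨S, hS, e4.trans (mul_le_mul_of_nonneg_right hδε hN0), fun hadm => ?_⟩
  have hcS : c ≤ S := ge_of_tendsto' hS (hlow _ hadm)
  refine ⟨lt_of_lt_of_le hc hcS, ?_⟩
  exact h3 N (by omega) a ha S hcS (e4.trans (mul_le_mul_of_nonneg_right hδd hN0))

end Pool.Agent.Y820.LT
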