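import Pool.Agent.Y820.LT.SB2

set_option autoImplicit false

/-! The upper bound of the sieve for the two kinds of weights. -/

namespace Pool.Agent.Y820.LT.SB
open Finset
open Pool.Agent.H373R2.T7
open Pool.Agent.W93.HD

lemma Ew_pos (W y m : ℕ) (hm : m ∈ Ew W y) : 1 ≤ m := by
  unfold Ew at hm
  rw [mem_image] at hm
  obtain ⟨p, hp, rfl⟩ := hm
  rw [mem_product, mem_Icc, mem_Icc] at hp
  exact Nat.one_le_pow _ _ (by omega)

lemma card_shift (W y : ℕ) (I : Finset ℤ) (h : ℤ) : (I.filter (fun n => (n + h).toNat ∈ Ew W y)).card ≤ (Ew W y).card := by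
  apply card_le_card_of_injOn (fun n => (n + h).toNat)
  · intro n hn
    rw [mem_coe, mem_filter] at hn
    exact hn.2
  · intro n hn n' hn' he
    rw [mem_coe, mem_filter] at hn hn'
    have h1 := Ew_pos W y _ hn.2
    have h2 := Ew_pos W y _ hn'.2
    simp only at he
    omega

section
variable {ι : Type} [Fintype ι] [DecidableEq ι]

open Classical in
/-- the count by the fundamental lemma -/
lemma count_le (C0 K0 : ℕ) (hC0 : 1 ≤ C0)
    (hfl : ∀ b : ℕ, C0 ≤ b → ∀ y : ℕ, 2 ≤ y → ∀ (X : ℕ) (P : Finset ℕ) (R : ℕ → ℕ → Prop),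
      (∀ p ∈ P, p.Prime ∧ p ≤ y ∧ ((range p).filter (fun a => R p a)).card ≤ Fintype.card ι) →
      |(((Icc 1 X).filter (fun n => ∀ p ∈ P, ¬ R p (n % p))).card : ℝ) -
        X * ∏ p ∈ P, (1 - (((range p).filter (fun a => R p a)).card : ℝ) / p)| ≤
      (1 / 2 : ℝ) ^ b * (X * ∏ p ∈ P, (1 - (((range p).filter (fun a => R p a)).card : ℝ) / p)) +
        ((Pool.Agent.W41.JJ y : ℝ) + 2) * ((y : ℝ) ^ (2 * (C0 * b)) * (K0 * (y : ℝ) ^ (2 * (C0 * b)))))
    (y z : ℕ) (hy : 3 ≤ y) (hyK : 2 * K0 ≤ y) (hzy : z ≤ y) (N : ℕ) (τ : ι → Bool) (h : ι → ℤ) (hh : ∀ i j, i ≠ j → h i ≠ h j) :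
    (((Icc (-(N : ℤ)) N).filter (fun n => ∀ i, cop (if τ i then y else z) (n + h i))).card : ℝ) ≤
      2 * (2 * N + 1) * ((∏ i, Vz (if τ i then y else z)) * ∏ i, ∏ j, (if i = j then 1 else gg (h i - h j).natAbs) ^ (2 * Fintype.card ι)) +
        (y : ℝ) ^ (4 * (C0 * C0) + 2) := by
  obtain ⟨X, hX⟩ : ∃ X, X = 2 * N + 1 := ⟨_, rfl⟩
  obtain ⟨c, hc⟩ : ∃ c : ℤ, c = N + 1 := ⟨_, rfl⟩
  have h1 := hfl C0 le_rfl y (by omega) X (pz y) (fun p a => Rr c (fun i p => τ i = true ∨ p ≤ z) h p a) (fun p hp => by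
    rw [mem_pz] at hp
    refine ⟨hp.2, hp.1, ?_⟩
    exact nu_le c (fun i p => τ i = true ∨ p ≤ z) h p hp.2.pos)
  have h2 := prod_local c τ h hh z y hzy
  obtain ⟨V, hV⟩ : ∃ V : ℝ, V = ∏ p ∈ pz y, (1 - (nu c (fun i p => τ i = true ∨ p ≤ z) h p : ℝ) / p) := ⟨_, rfl⟩
  have h3 : ∏ p ∈ pz y, (1 - (((range p).filter (fun a => Rr c (fun i p => τ i = true ∨ p ≤ z) h p a)).card : ℝ) / p) = V := by
    rw [hV]
    rfl
  rw [h3] at h1
  rw [← hV] at h2
  have hV0 : 0 ≤ V := by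
    rw [hV]
    apply prod_nonneg
    intro p hp
    have hp0 := (mem_pz.1 hp).2.pos
    rw [sub_nonneg, div_le_one (by exact_mod_cast hp0)]
    have : nu c (fun i p => τ i = true ∨ p ≤ z) h p ≤ p := by
      unfold nu
      exact (card_filter_le _ _).trans (card_range p).le
    exact_mod_cast this
  have h4 := (abs_le.1 h1).2
  have h5 : (1 / 2 : ℝ) ^ C0 ≤ 1 := pow_le_one₀ (by norm_num) (by norm_num)
  have h6 : ((Pool.Agent.W41.JJ y : ℝ) + 2) * ((y : ℝ) ^ (2 * (C0 * C0)) * (K0 * (y : ℝ) ^ (2 * (C0 * C0)))) ≤ (y : ℝ) ^ (4 * (C0 * C0) + 2) := by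
    have e1 : ((Pool.Agent.W41.JJ y : ℝ) + 2) ≤ 2 * y := by exact_mod_cast Pool.Agent.W41.JJ_small y hy
    have e2 : (2 * K0 : ℝ) ≤ y := by exact_mod_cast hyK
    have hy0 : (0 : ℝ) ≤ y := Nat.cast_nonneg _
    calc ((Pool.Agent.W41.JJ y : ℝ) + 2) * ((y : ℝ) ^ (2 * (C0 * C0)) * (K0 * (y : ℝ) ^ (2 * (C0 * C0)))) ≤
        (2 * y) * ((y : ℝ) ^ (2 * (C0 * C0)) * (K0 * (y : ℝ) ^ (2 * (C0 * C0)))) := mul_le_mul_of_nonneg_right e1 (by positivity)
      _ = (2 * K0) * ((y : ℝ) ^ (4 * (C0 * C0)) * y) := by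
          have : (y : ℝ) ^ (4 * (C0 * C0)) = (y : ℝ) ^ (2 * (C0 * C0)) * (y : ℝ) ^ (2 * (C0 * C0)) := by
            rw [← pow_add]; congr 1; ring
          rw [this]; ring
      _ ≤ y * ((y : ℝ) ^ (4 * (C0 * C0)) * y) := mul_le_mul_of_nonneg_right e2 (by positivity)
      _ = _ := by rw [pow_add]; ring
  have h7 : (((Icc (-(N : ℤ)) N).filter (fun n => ∀ i, cop (if τ i then y else z) (n + h i))).card : ℝ) ≤
      (((Icc 1 X).filter (fun n => ∀ p ∈ pz y, ¬ Rr c (fun i p => τ i = true ∨ p ≤ z) h p (n % p))).card : ℝ) := by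
    have : ((Icc (-(N : ℤ)) N).filter (fun n => ∀ i, cop (if τ i then y else z) (n + h i))).card ≤
        ((Icc 1 X).filter (fun n => ∀ p ∈ pz y, ¬ Rr c (fun i p => τ i = true ∨ p ≤ z) h p (n % p))).card := by
      apply card_le_card_of_injOn (fun n => (n + c).toNat)
      · intro n hn
        rw [mem_coe, mem_filter, mem_Icc] at hn
        obtain ⟨⟨hn1, hn2⟩, hn3⟩ := hn
        rw [mem_coe, mem_filter, mem_Icc]
        beta_reduce
        have hnn : (((n + c).toNat : ℕ) : ℤ) = n + c := Int.toNat_of_nonneg (by omega)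
        refine ⟨⟨by omega, by omega⟩, fun p hp => ?_⟩
        rw [Rr_mod]
        rintro ⟨i, hact, hd⟩
        rw [hnn] at hd
        have e : n + c - c + h i = n + h i := by ring
        rw [e] at hd
        have h8 := hn3 i
        rw [mem_pz] at hp
        unfold cop at h8
        cases hτ : τ i
        · rw [hτ] at h8 hact
          simp only [Bool.false_eq_true, false_or, if_false] at h8 hact
          exact h8 p (mem_pz.2 ⟨hact, hp.2⟩) hd
        · rw [hτ] at h8
          simp only [if_true] at h8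
          exact h8 p (mem_pz.2 hp) hd
      · intro n hn n' hn' he
        rw [mem_coe, mem_filter, mem_Icc] at hn hn'
        obtain ⟨⟨hn1, hn2⟩, _⟩ := hn
        obtain ⟨⟨hn1', hn2'⟩, _⟩ := hn'
        simp only at he
        omega
    exact_mod_cast this
  have hXr : (X : ℝ) = 2 * N + 1 := by rw [hX]; push_cast; ring
  have hX0 : (0 : ℝ) ≤ X := Nat.cast_nonneg _
  have h8 : (1 / 2 : ℝ) ^ C0 * (X * V) ≤ X * V := by
    have : 0 ≤ X * V := mul_nonneg hX0 hV0
    nlinarith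
  have h9 : 2 * (X : ℝ) * V ≤ 2 * (X : ℝ) * ((∏ i, Vz (if τ i then y else z)) * ∏ i, ∏ j, (if i = j then 1 else gg (h i - h j).natAbs) ^ (2 * Fintype.card ι)) :=
    mul_le_mul_of_nonneg_left h2 (by positivity)
  rw [← hXr]
  linarith

end

end Pool.Agent.Y820.LT.SB

namespace Pool.Agent.Y820.LT
open Finset
open Pool.Agent.H373R2.T7
open Pool.Agent.W93.HD
open SB

theorem t_SB : S_SB := by
  classical
  intro ι _ _ B Ez
  obtain ⟨k, hk⟩ : ∃ k, k = Fintype.card ι := ⟨_, rfl⟩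
  obtain ⟨C0, K0, hC0, hK0, hfl⟩ := Pool.Agent.TH892.SW.fl_set (Fintype.card ι)
  obtain ⟨CV, hCV, hV⟩ := Vz_log_le
  obtain ⟨E, hE⟩ : ∃ E, E = 4 * (C0 * C0) + 2 := ⟨_, rfl⟩
  obtain ⟨m, hm⟩ : ∃ m, m = 2 * E := ⟨_, rfl⟩
  obtain ⟨Y1, hY1⟩ := root m (2 * K0 + 3) (by omega)
  obtain ⟨C', hC'⟩ : ∃ C' : ℝ, C' = 3 * (2 * m * CV) := ⟨_, rfl⟩
  have hm1 : (1 : ℝ) ≤ m := by exact_mod_cast (by omega : 1 ≤ m)
  have hC'1 : 1 ≤ C' := by rw [hC']; nlinarith
  obtain ⟨n1, h1⟩ := ev_log' (k + 1) (3 ^ k * (1 + 2 ^ k * (k * 6)))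
  obtain ⟨n2, h2⟩ := ev_log' (m * (Ez + 1)) 1
  obtain ⟨n3, h3⟩ := ev_L' 2
  obtain ⟨n4, h4⟩ := Vz_inv_small Ez
  refine ⟨2 * (2 * B + 1) * C' ^ k + 1, 2 * k, Y1 + n1 + n2 + n3 + n4 + B + 3, by positivity, fun Y hY z hz2 hz τ h hh hinj => ?_⟩
  obtain ⟨y, hy1, hy2, hyY, hlog⟩ := hY1 Y (by omega)
  obtain ⟨L, hL⟩ : ∃ L, L = Real.log (Y : ℝ) := ⟨_, rfl⟩
  have hY0 : (0 : ℝ) < Y := by exact_mod_cast (by omega : 0 < Y)
  have hL2 : 2 ≤ L := by rw [hL]; exact h3 Y (by omega)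
  have hL0 : 0 < L := by linarith
  have hVz := h4 Y (by omega) z (by omega) hz
  rw [← hL] at hlog hz hVz
  have e1 := h1 Y (by omega)
  have e2 := h2 Y (by omega)
  rw [← hL] at e1 e2
  have hss : √(Y : ℝ) * √(Y : ℝ) = Y := Real.mul_self_sqrt hY0.le
  have hs0 : 0 ≤ √(Y : ℝ) := Real.sqrt_nonneg _
  have hy0 : (0 : ℝ) < y := by exact_mod_cast (by omega : 0 < y)
  have hy1' : (1 : ℝ) ≤ y := by exact_mod_cast (by omega : 1 ≤ y)
  -- the level is larger than `z`
  have hzy : z ≤ y := by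
    have hly : L ≤ 2 * m * Real.log y := hlog
    have h5 : (z : ℝ) ≤ y := by
      -- `z ^ m ≤ L ^ (m Ez) ≤ √Y / L ^ m`, and `Y < (y + 1) ^ m` is hidden in the logarithms; use `log z`
      by_contra hcon
      push Not at hcon
      have hz0 : (0 : ℝ) < z := by linarith
      have h6 : Real.log y ≤ Real.log z := Real.log_le_log hy0 hcon.le
      have h7 : Real.log z ≤ Ez * Real.log L := by
        calc Real.log z ≤ Real.log (L ^ Ez) := Real.log_le_log hz0 hz
          _ = Ez * Real.log L := Real.log_pow _ _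
      have h8 : (m * (Ez + 1) : ℕ) * Real.log L ≤ L / 2 := by
        have h9 : Real.log (1 * L ^ (m * (Ez + 1))) ≤ Real.log √(Y : ℝ) := Real.log_le_log (by positivity) e2
        rw [one_mul, Real.log_pow, Real.log_sqrt hY0.le, ← hL] at h9
        exact h9
      have hlL : 0 < Real.log L := Real.log_pos (by linarith)
      push_cast at h8
      have h10 : 2 * (m : ℝ) * Real.log y ≤ 2 * m * (Ez * Real.log L) :=
        mul_le_mul_of_nonneg_left (h6.trans h7) (by positivity)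
      have h11 : 2 * (m : ℝ) * (Ez * Real.log L) + 2 * m * Real.log L ≤ L := by nlinarith
      have h12 : 0 < 2 * (m : ℝ) * Real.log L := by positivity
      linarith
    exact_mod_cast h5
  -- the weights
  obtain ⟨W, hW⟩ : ∃ W, W = Y ^ 3 := ⟨_, rfl⟩
  have hW1 : 1 ≤ W := by rw [hW]; exact Nat.one_le_pow _ _ (by omega)
  have hlogW : Real.log (W : ℝ) = 3 * L := by rw [hW, hL]; push_cast; rw [Real.log_pow]; norm_num
  obtain ⟨U, hU⟩ : ∃ U : ι → ℝ, U = fun i => if τ i then 3 * L else (Vz z)⁻¹ := ⟨_, rfl⟩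
  have hU0 : ∀ i, 0 ≤ U i := by
    intro i
    rw [hU]
    simp only
    split_ifs
    · positivity
    · exact (inv_pos.2 (Vz_pos z)).le
  have hU3 : ∀ i, U i ≤ 3 * L := by
    intro i
    rw [hU]
    simp only
    split_ifs
    · exact le_rfl
    · linarith
  obtain ⟨r, hr⟩ : ∃ r : ℤ → ι → ℝ, r = fun n i => if cop (if τ i then y else z) (n + h i) then 1 else 0 := ⟨_, rfl⟩
  obtain ⟨ex, hex⟩ : ∃ ex : ℤ → ι → ℝ, ex = fun n i => if (τ i = true ∧ (n + h i).toNat ∈ Ew W y) then 1 else 0 := ⟨_, rfl⟩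
  have hpt : ∀ n ∈ Icc (-(B * Y : ℤ)) (B * Y), ∀ i, w z (τ i) (n + h i) ≤ U i * (r n i + ex n i) := by
    intro n hn i
    rw [mem_Icc] at hn
    have hnW : n + h i ≤ W := by
      have a1 := (abs_le.1 (hh i)).2
      have a2 : B * Y + Y ^ 2 ≤ W := by
        rw [hW]
        calc B * Y + Y ^ 2 ≤ Y * Y + Y ^ 2 := by
              have : B * Y ≤ Y * Y := Nat.mul_le_mul_right _ (by omega)
              omega
          _ = 2 * Y ^ 2 := by ring
          _ ≤ Y * Y ^ 2 := Nat.mul_le_mul_right _ (by omega)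
          _ = _ := by ring
      have a3 : ((B * Y + Y ^ 2 : ℕ) : ℤ) ≤ W := by exact_mod_cast a2
      push_cast at a3
      linarith [hn.2]
    rw [hr, hex, hU]
    simp only
    cases hτ : τ i
    · simp only [Bool.false_eq_true, if_false, false_and, add_zero]
      unfold w
      rw [if_neg (by simp)]
      exact lamzI_le z _
    · simp only [if_true, true_and]
      unfold w
      rw [if_pos rfl]
      have := lamI_le W y hW1 (n + h i) hnW
      rw [hlogW] at this
      exact this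
  have hprod : ∀ n ∈ Icc (-(B * Y : ℤ)) (B * Y), ∏ i, w z (τ i) (n + h i) ≤ (∏ i, U i) * (∏ i, r n i + 2 ^ k * ∑ i, ex n i) := by
    intro n hn
    have a1 : ∏ i, w z (τ i) (n + h i) ≤ ∏ i, (U i * (r n i + ex n i)) := by
      apply prod_le_prod
      · intro i _
        unfold w
        split_ifs
        · exact lamI_nonneg _
        · exact lamzI_nonneg _ _
      · intro i _
        exact hpt n hn i
    rw [prod_mul_distrib] at a1
    refine a1.trans ?_
    apply mul_le_mul_of_nonneg_left _ (prod_nonneg fun i _ => hU0 i)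
    rw [hk]
    apply prod01
    · intro i
      rw [hr]
      beta_reduce
      by_cases hc : cop (if τ i then y else z) (n + h i)
      · right; rw [if_pos hc]
      · left; rw [if_neg hc]
    · intro i
      rw [hex]
      simp only
      split_ifs
      · right; rfl
      · left; rfl
  refine (sum_le_sum hprod).trans ?_
  rw [← mul_sum, sum_add_distrib, ← mul_sum]
  -- the count
  have hcount : ∑ n ∈ Icc (-(B * Y : ℤ)) (B * Y), ∏ i, r n i =
      (((Icc (-((B * Y : ℕ) : ℤ)) (B * Y : ℕ)).filter (fun n => ∀ i, cop (if τ i then y else z) (n + h i))).card : ℝ) := by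
    have a1 : ∀ n, ∏ i, r n i = if (∀ i, cop (if τ i then y else z) (n + h i)) then 1 else 0 := by
      intro n
      rw [hr]
      simp only
      split_ifs with a2
      · apply prod_eq_one
        intro i _
        rw [if_pos (a2 i)]
      · push Not at a2
        obtain ⟨i, a3⟩ := a2
        apply prod_eq_zero (mem_univ i)
        rw [if_neg a3]
    simp only [a1]
    rw [← sum_filter, sum_const, nsmul_eq_mul, mul_one]
    push_cast
    rfl
  obtain ⟨G, hG⟩ : ∃ G : ℝ, G = ∏ i, ∏ j, (if i = j then 1 else gg (h i - h j).natAbs) ^ (2 * k) := ⟨_, rfl⟩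
  have hG1 : 1 ≤ G := by
    rw [hG]
    apply one_le_prodR
    intro i _
    apply one_le_prodR
    intro j _
    apply one_le_pow₀
    split_ifs
    · exact le_rfl
    · exact one_le_gg _
  rw [← hG]
  have hcnt := count_le C0 K0 hC0 hfl y z (by omega) (by omega) hzy (B * Y) τ h hinj
  rw [← hk, ← hG, ← hcount, ← hE] at hcnt
  -- the exceptional part
  have hexs : ∑ n ∈ Icc (-(B * Y : ℤ)) (B * Y), ∑ i, ex n i ≤ k * (y * (6 * L)) := by
    rw [sum_comm]
    have a1 : ∀ i ∈ (univ : Finset ι), ∑ n ∈ Icc (-(B * Y : ℤ)) (B * Y), ex n i ≤ y * (6 * L) := by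
      intro i _
      rw [hex]
      simp only
      rw [← sum_filter, sum_const, nsmul_eq_mul, mul_one]
      have a2 : ((Icc (-(B * Y : ℤ)) (B * Y)).filter (fun n => τ i = true ∧ (n + h i).toNat ∈ Ew W y)).card ≤ (Ew W y).card := by
        refine le_trans (card_le_card ?_) (card_shift W y (Icc (-(B * Y : ℤ)) (B * Y)) (h i))
        intro n hn
        rw [mem_filter] at hn ⊢
        exact ⟨hn.1, hn.2.2⟩
      have a3 := a2.trans (card_Ew W y)
      have a4 : (((Icc (-(B * Y : ℤ)) (B * Y)).filter (fun n => τ i = true ∧ (n + h i).toNat ∈ Ew W y)).card : ℝ) ≤ y * (Nat.log 2 W : ℕ) := by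
        exact_mod_cast a3
      refine a4.trans ?_
      apply mul_le_mul_of_nonneg_left _ hy0.le
      have := natlog_le W hW1
      rw [hlogW] at this
      linarith
    refine (sum_le_sum a1).trans (le_of_eq ?_)
    rw [sum_const, nsmul_eq_mul, card_univ, ← hk]
  -- the products of the weights
  have hUV : (∏ i, U i) * ∏ i, Vz (if τ i then y else z) ≤ C' ^ k := by
    rw [← prod_mul_distrib]
    calc ∏ i, (U i * Vz (if τ i then y else z)) ≤ ∏ _i : ι, C' := by
          apply prod_le_prod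
          · intro i _
            exact mul_nonneg (hU0 i) (Vz_pos _).le
          · intro i _
            rw [hU]
            simp only
            cases hτ : τ i
            · simp only [Bool.false_eq_true, if_false]
              rw [inv_mul_cancel₀ (Vz_pos z).ne']
              exact hC'1
            · simp only [if_true]
              have a1 := hV y (by omega)
              have a2 := (Vz_pos y).le
              calc 3 * L * Vz y ≤ 3 * (2 * m * Real.log y) * Vz y := by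
                    apply mul_le_mul_of_nonneg_right _ a2
                    linarith
                _ = 3 * (2 * m * (Vz y * Real.log y)) := by ring
                _ ≤ 3 * (2 * m * CV) := by
                    apply mul_le_mul_of_nonneg_left _ (by norm_num)
                    exact mul_le_mul_of_nonneg_left a1 (by positivity)
                _ = C' := by rw [hC']
      _ = C' ^ k := by rw [prod_const, card_univ, hk]
  have hUk : ∏ i, U i ≤ (3 * L) ^ k := by
    calc ∏ i, U i ≤ ∏ _i : ι, (3 * L) := prod_le_prod (fun i _ => hU0 i) (fun i _ => hU3 i)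
      _ = _ := by rw [prod_const, card_univ, hk]
  have hUnn : 0 ≤ ∏ i, U i := prod_nonneg fun i _ => hU0 i
  -- powers of the level
  have hyE : (y : ℝ) ^ E ≤ √(Y : ℝ) := by
    apply Real.le_sqrt_of_sq_le
    rw [← pow_mul, mul_comm E 2, ← hm]
    exact_mod_cast hyY
  have hys : (y : ℝ) ≤ √(Y : ℝ) := (le_self_pow₀ hy1' (by omega)).trans hyE
  -- the small terms
  have hsmall : (∏ i, U i) * ((y : ℝ) ^ E + 2 ^ k * (k * (y * (6 * L)))) ≤ Y * G := by
    have a1 : (y : ℝ) ^ E + 2 ^ k * (k * (y * (6 * L))) ≤ √(Y : ℝ) * ((1 + 2 ^ k * (k * 6)) * L) := by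
      have a2 : 2 ^ k * ((k : ℝ) * (y * (6 * L))) ≤ 2 ^ k * (k * (√(Y : ℝ) * (6 * L))) := by
        apply mul_le_mul_of_nonneg_left _ (by positivity)
        apply mul_le_mul_of_nonneg_left _ (by positivity)
        exact mul_le_mul_of_nonneg_right hys (by positivity)
      have a3 : √(Y : ℝ) ≤ √(Y : ℝ) * L := le_mul_of_one_le_right hs0 (by linarith)
      calc _ ≤ √(Y : ℝ) * L + 2 ^ k * (k * (√(Y : ℝ) * (6 * L))) := by linarith
        _ = _ := by ring
    calc (∏ i, U i) * ((y : ℝ) ^ E + 2 ^ k * (k * (y * (6 * L)))) ≤ (3 * L) ^ k * (√(Y : ℝ) * ((1 + 2 ^ k * (k * 6)) * L)) :=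
          mul_le_mul hUk a1 (by positivity) (by positivity)
      _ = √(Y : ℝ) * (3 ^ k * (1 + 2 ^ k * (k * 6)) * L ^ (k + 1)) := by rw [mul_pow, pow_succ]; ring
      _ ≤ √(Y : ℝ) * √(Y : ℝ) := mul_le_mul_of_nonneg_left e1 hs0
      _ = Y := hss
      _ ≤ Y * G := le_mul_of_one_le_right hY0.le hG1
  have hmain : (∏ i, U i) * (2 * (2 * ((B * Y : ℕ) : ℝ) + 1) * ((∏ i, Vz (if τ i then y else z)) * G)) ≤
      2 * (2 * B + 1) * C' ^ k * Y * G := by
    have a1 : (2 * ((B * Y : ℕ) : ℝ) + 1) ≤ (2 * B + 1) * Y := by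
      push_cast
      have : (1 : ℝ) ≤ Y := by exact_mod_cast (by omega : 1 ≤ Y)
      linarith
    calc (∏ i, U i) * (2 * (2 * ((B * Y : ℕ) : ℝ) + 1) * ((∏ i, Vz (if τ i then y else z)) * G)) =
        ((∏ i, U i) * ∏ i, Vz (if τ i then y else z)) * (2 * (2 * ((B * Y : ℕ) : ℝ) + 1)) * G := by ring
      _ ≤ C' ^ k * (2 * ((2 * B + 1) * Y)) * G := by
          apply mul_le_mul_of_nonneg_right _ (by linarith)
          apply mul_le_mul hUV _ (by positivity) (by positivity)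
          linarith
      _ = _ := by ring
  have hexk : 2 ^ k * ∑ n ∈ Icc (-(B * Y : ℤ)) (B * Y), ∑ i, ex n i ≤ 2 ^ k * (k * (y * (6 * L))) :=
    mul_le_mul_of_nonneg_left hexs (by positivity)
  calc (∏ i, U i) * (∑ n ∈ Icc (-(B * Y : ℤ)) (B * Y), ∏ i, r n i + 2 ^ k * ∑ n ∈ Icc (-(B * Y : ℤ)) (B * Y), ∑ i, ex n i)
      ≤ (∏ i, U i) * ((2 * (2 * ((B * Y : ℕ) : ℝ) + 1) * ((∏ i, Vz (if τ i then y else z)) * G) + (y : ℝ) ^ E) + 2 ^ k * (k * (y * (6 * L)))) := by
        apply mul_le_mul_of_nonneg_left _ hUnn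
        linarith
    _ = (∏ i, U i) * (2 * (2 * ((B * Y : ℕ) : ℝ) + 1) * ((∏ i, Vz (if τ i then y else z)) * G)) +
        (∏ i, U i) * ((y : ℝ) ^ E + 2 ^ k * (k * (y * (6 * L)))) := by ring
    _ ≤ 2 * (2 * B + 1) * C' ^ k * Y * G + Y * G := add_le_add hmain hsmall
    _ = _ := by ring

end Pool.Agent.Y820.LT
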