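import Pool.Agent.Y820.LT.Stm

set_option autoImplicit false

/-! Interpolation between the points of a grid. -/

namespace Pool.Agent.Y820.LT
open Finset
open Pool.Agent.H560R3.GB (primeTuples)

lemma primeTuples_mono {k : ℕ} (a : Fin k → ℕ) (N N' : ℕ) (h : N ≤ N') : primeTuples a N ≤ primeTuples a N' := by
  unfold primeTuples
  apply card_le_card
  apply filter_subset_filter
  exact Icc_subset_Icc_right h

/-- the points of the grid -/
def grid (m m₀ X : ℕ) : Finset ℕ := ((Icc 1 m).image (fun j => j * X / m)).filter (fun N => X ≤ 2 * m₀ * N)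

lemma grid_card (m m₀ X : ℕ) : (grid m m₀ X).card ≤ m := by
  unfold grid
  refine (card_filter_le _ _).trans (card_image_le.trans ?_)
  rw [Nat.card_Icc]
  omega

lemma grid_le (m m₀ X N : ℕ) (hm : 1 ≤ m) (hN : N ∈ grid m m₀ X) : N ≤ X ∧ X ≤ 2 * m₀ * N := by
  unfold grid at hN
  rw [mem_filter, mem_image] at hN
  obtain ⟨⟨j, hj, rfl⟩, h2⟩ := hN
  rw [mem_Icc] at hj
  refine ⟨?_, h2⟩
  apply Nat.div_le_of_le_mul
  exact Nat.mul_le_mul_right _ hj.2

lemma grid_near (m m₀ X N : ℕ) (hm₀ : 1 ≤ m₀) (hm : 8 * m₀ ≤ m) (hX : m ≤ X) (h1 : X ≤ m₀ * N) (h2 : N ≤ X) :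
    ∃ A ∈ grid m m₀ X, ∃ C ∈ grid m m₀ X, A ≤ N ∧ N ≤ C ∧ (C : ℝ) ≤ (1 + 4 * m₀ / m) * N ∧ (N : ℝ) ≤ (1 + 4 * m₀ / m) * A := by
  have hm1 : 1 ≤ m := by omega
  have hm0 : (0 : ℝ) < m := by exact_mod_cast hm1
  have hX1 : 1 ≤ X := by omega
  have hX0 : (0 : ℝ) < X := by exact_mod_cast hX1
  have hm₀0 : (0 : ℝ) < m₀ := by exact_mod_cast hm₀
  obtain ⟨j, hj⟩ : ∃ j, j = N * m / X := ⟨_, rfl⟩
  have hj1 : j * X ≤ N * m := by rw [hj]; exact Nat.div_mul_le_self _ _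
  have hj2 : N * m < (j + 1) * X := by
    rw [hj]
    have := Nat.lt_div_mul_add (a := N * m) (b := X) hX1
    rw [add_mul, one_mul]
    exact this
  have h1r : (X : ℝ) ≤ m₀ * N := by exact_mod_cast h1
  have hj1r : (j : ℝ) * X ≤ N * m := by exact_mod_cast hj1
  have hj2r : (N : ℝ) * m < (j + 1) * X := by exact_mod_cast hj2
  have hmX : (m : ℝ) ≤ X := by exact_mod_cast hX
  have hm8 : 8 * (m₀ : ℝ) ≤ m := by exact_mod_cast hm
  -- the lower point
  obtain ⟨A, hA⟩ : ∃ A, A = j * X / m := ⟨_, rfl⟩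
  have hAN : A ≤ N := by
    rw [hA]
    apply Nat.div_le_of_le_mul
    rw [mul_comm m N]
    exact hj1
  have hA2 : (j : ℝ) * X < (A + 1) * m := by
    have : j * X < (j * X / m) * m + m := Nat.lt_div_mul_add hm1
    rw [← hA] at this
    have h3 : ((j * X : ℕ) : ℝ) < ((A * m + m : ℕ) : ℝ) := by exact_mod_cast this
    push_cast at h3
    linarith
  have hNA : (N : ℝ) * m < A * m + 2 * X := by nlinarith
  have hAX : (X : ℝ) ≤ 2 * m₀ * A := by
    -- `m X ≤ m₀ m N < m₀ m A + 2 m₀ X ≤ m₀ m A + m X / 4`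
    have h3 : (m : ℝ) * X ≤ m₀ * (N * m) := by nlinarith
    have h4 : (m₀ : ℝ) * (N * m) ≤ m₀ * (A * m + 2 * X) := mul_le_mul_of_nonneg_left hNA.le hm₀0.le
    have h5 : 8 * (m₀ : ℝ) * X ≤ m * X := mul_le_mul_of_nonneg_right hm8 hX0.le
    have h6 : (m : ℝ) * X * 3 ≤ 4 * (m₀ * A) * m := by nlinarith
    have h7 : (m : ℝ) * X ≤ m * (2 * m₀ * A) := by nlinarith
    exact le_of_mul_le_mul_left h7 hm0
  have hj0 : 1 ≤ j := by
    by_contra hcon
    have : j = 0 := by omega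
    rw [hA, this, zero_mul, Nat.zero_div] at hAX
    simp at hAX
    linarith
  have hjm : j ≤ m := by
    by_contra hcon
    push Not at hcon
    have h3 : (m + 1) * X ≤ j * X := Nat.mul_le_mul_right _ hcon
    have h4 : N * m ≤ X * m := Nat.mul_le_mul_right _ h2
    have h5 : (m + 1) * X = X * m + X := by ring
    omega
  have hAg : A ∈ grid m m₀ X := by
    unfold grid
    rw [mem_filter, mem_image]
    refine ⟨⟨j, mem_Icc.2 ⟨hj0, hjm⟩, hA.symm⟩, ?_⟩
    exact_mod_cast hAX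
  have hNA' : (N : ℝ) ≤ (1 + 4 * m₀ / m) * A := by
    have h3 : (N : ℝ) * m ≤ ((1 + 4 * m₀ / m) * A) * m := by
      have e : ((1 + 4 * (m₀ : ℝ) / m) * A) * m = A * m + 2 * (2 * m₀ * A) := by field_simp; ring
      rw [e]
      linarith
    exact le_of_mul_le_mul_right h3 hm0
  refine ⟨A, hAg, ?_⟩
  rcases Nat.eq_or_lt_of_le h2 with h3 | h3
  · -- the last point
    refine ⟨N, ?_, hAN, le_rfl, ?_, hNA'⟩
    · unfold grid
      rw [mem_filter, mem_image]
      refine ⟨⟨m, mem_Icc.2 ⟨hm1, le_rfl⟩, ?_⟩, ?_⟩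
      · rw [h3, Nat.mul_div_cancel_left _ hm1]
      · calc X ≤ m₀ * N := h1
          _ ≤ 2 * m₀ * N := Nat.mul_le_mul_right _ (by omega)
    · have : (0 : ℝ) ≤ 4 * m₀ / m * N := by positivity
      linarith
  · obtain ⟨C, hC⟩ : ∃ C, C = (j + 1) * X / m := ⟨_, rfl⟩
    have hNC : N ≤ C := by
      rw [hC, Nat.le_div_iff_mul_le hm1]
      exact hj2.le
    have hjm' : j + 1 ≤ m := by
      by_contra hcon
      have : j = m := by omega
      rw [this] at hj1
      have h4 : N * m < X * m := Nat.mul_lt_mul_of_pos_right h3 hm1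
      have h5 : m * X = X * m := mul_comm _ _
      omega
    refine ⟨C, ?_, hAN, hNC, ?_, hNA'⟩
    · unfold grid
      rw [mem_filter, mem_image]
      refine ⟨⟨j + 1, mem_Icc.2 ⟨by omega, hjm'⟩, hC.symm⟩, ?_⟩
      calc X ≤ m₀ * N := h1
        _ ≤ 2 * m₀ * N := Nat.mul_le_mul_right _ (by omega)
        _ ≤ 2 * m₀ * C := Nat.mul_le_mul_left _ hNC
    · have h4 : C * m ≤ (j + 1) * X := by rw [hC]; exact Nat.div_mul_le_self _ _
      have h5 : (C : ℝ) * m ≤ (j + 1) * X := by exact_mod_cast h4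
      have h6 : (C : ℝ) * m ≤ ((1 + 4 * m₀ / m) * N) * m := by
        have e : ((1 + 4 * (m₀ : ℝ) / m) * N) * m = N * m + 4 * (m₀ * N) := by field_simp
        rw [e]
        nlinarith
      exact le_of_mul_le_mul_right h6 hm0

/-- interpolation -/
lemma interp {k : ℕ} (a : Fin k → ℕ) (S ε κ : ℝ) (hS : 0 < S) (hε : 0 < ε) (hε1 : ε ≤ 1) (hκ : κ = ε / 4) (A N C : ℕ) (hA : 2 ≤ A) (hAN : A ≤ N)
    (hNC : N ≤ C) (hC : (C : ℝ) ≤ (1 + κ) * N) (hA' : (N : ℝ) ≤ (1 + κ) * A)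
    (h1 : |(primeTuples a A : ℝ) - S * (A / Real.log A ^ (k + 1))| ≤ κ * (S * (A / Real.log A ^ (k + 1))))
    (h2 : |(primeTuples a C : ℝ) - S * (C / Real.log C ^ (k + 1))| ≤ κ * (S * (C / Real.log C ^ (k + 1)))) :
    |(primeTuples a N : ℝ) - S * (N / Real.log N ^ (k + 1))| ≤ ε * (S * (N / Real.log N ^ (k + 1))) := by
  have hκ0 : 0 < κ := by rw [hκ]; positivity
  have hA0 : (0 : ℝ) < A := by exact_mod_cast (by omega : 0 < A)
  have hN0 : (0 : ℝ) < N := by exact_mod_cast (by omega : 0 < N)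
  have hC0 : (0 : ℝ) < C := by exact_mod_cast (by omega : 0 < C)
  have lA : 0 < Real.log (A : ℝ) := Real.log_pos (by exact_mod_cast (by omega : 1 < A))
  have lN : Real.log (A : ℝ) ≤ Real.log N := Real.log_le_log hA0 (by exact_mod_cast hAN)
  have lC : Real.log (N : ℝ) ≤ Real.log C := Real.log_le_log hN0 (by exact_mod_cast hNC)
  have pA : (primeTuples a A : ℝ) ≤ primeTuples a N := by exact_mod_cast primeTuples_mono a A N hAN
  have pC : (primeTuples a N : ℝ) ≤ primeTuples a C := by exact_mod_cast primeTuples_mono a N C hNC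
  obtain ⟨f, hf⟩ : ∃ f, f = S * ((N : ℝ) / Real.log N ^ (k + 1)) := ⟨_, rfl⟩
  have lN0 : 0 < Real.log (N : ℝ) := by linarith
  have lC0 : 0 < Real.log (C : ℝ) := by linarith
  have hf0 : 0 < f := by rw [hf]; positivity
  have u1 : S * ((C : ℝ) / Real.log C ^ (k + 1)) ≤ (1 + κ) * f := by
    have e1 : (C : ℝ) / Real.log C ^ (k + 1) ≤ ((1 + κ) * N) / Real.log N ^ (k + 1) :=
      div_le_div₀ (by positivity) hC (by positivity) (pow_le_pow_left₀ lN0.le lC _)
    calc S * ((C : ℝ) / Real.log C ^ (k + 1)) ≤ S * (((1 + κ) * N) / Real.log N ^ (k + 1)) := mul_le_mul_of_nonneg_left e1 hS.le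
      _ = _ := by rw [hf]; ring
  have u2 : f ≤ (1 + κ) * (S * ((A : ℝ) / Real.log A ^ (k + 1))) := by
    have e1 : (N : ℝ) / Real.log N ^ (k + 1) ≤ ((1 + κ) * A) / Real.log A ^ (k + 1) :=
      div_le_div₀ (by positivity) hA' (by positivity) (pow_le_pow_left₀ lA.le lN _)
    calc f = S * ((N : ℝ) / Real.log N ^ (k + 1)) := hf
      _ ≤ S * (((1 + κ) * A) / Real.log A ^ (k + 1)) := mul_le_mul_of_nonneg_left e1 hS.le
      _ = _ := by ring
  rw [← hf]
  obtain ⟨g, hg⟩ : ∃ g, g = S * ((A : ℝ) / Real.log A ^ (k + 1)) := ⟨_, rfl⟩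
  obtain ⟨q, hq⟩ : ∃ q, q = S * ((C : ℝ) / Real.log C ^ (k + 1)) := ⟨_, rfl⟩
  rw [← hg] at h1 u2
  rw [← hq] at h2 u1
  have v1 := (abs_le.1 h1).1
  have v2 := (abs_le.1 h2).2
  rw [abs_le]
  constructor
  · -- the lower bound
    have e1 : (1 - κ) * g ≤ primeTuples a N := by linarith
    have e2 : (1 - ε) * f ≤ (1 - κ) * g := by
      have hg0 : 0 < g := by rw [hg]; positivity
      have e3 : (1 - ε) * f ≤ (1 - ε) * ((1 + κ) * g) := mul_le_mul_of_nonneg_left u2 (by linarith)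
      have e4 : (1 - ε) * (1 + κ) ≤ 1 - κ := by
        rw [hκ]
        nlinarith
      have e5 := mul_le_mul_of_nonneg_right e4 hg0.le
      linarith
    linarith
  · have e1 : (primeTuples a N : ℝ) ≤ (1 + κ) * q := by linarith
    have e2 : (1 + κ) * q ≤ (1 + κ) * ((1 + κ) * f) := mul_le_mul_of_nonneg_left u1 (by linarith)
    have e3 : (1 + κ) * (1 + κ) ≤ 1 + ε := by
      rw [hκ]
      nlinarith
    have e4 := mul_le_mul_of_nonneg_right e3 hf0.le
    linarith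

end Pool.Agent.Y820.LT
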