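import Pool.Agent.Y820.LT.G2
import Pool.Agent.Y820.LT.I1

set_option autoImplicit false

/-! The theorem of Linnik type, from the four tasks. -/

namespace Pool.Agent.Y820.LT
open Finset
open Pool.Agent.H373R2.T7 (lamI lamzI lamz Vz Vz_pos Vz_inv_small lamI_nonneg lamzI_nonneg singZ tupleCount Admissible)
open Pool.Agent.H560R3.GB (primeTuples)
open Pool.Agent.W93.DG (hh logX hh_small)
open Pool.Agent.TH894.SM (dl Om Pos)

/-- the length of the digits -/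
lemma par_K (b : ℕ) (hb : 2 ≤ b) (B k₀ : ℕ) (X : ℕ) (hX : b ^ k₀ < X) : ∃ c : ℕ, 1 ≤ c ∧ k₀ ≤ c ∧ (B + 1) * X ≤ b ^ c ∧
    b ^ (c - 1) < (B + 1) * X ∧ b ^ c ≤ b * ((B + 1) * X) ∧ 2 * b ^ c ≤ b ^ (c + 1) ∧ b ^ (c + 1) ≤ b ^ 2 * (B + 1) * X ∧ X ≤ b ^ (c + 1) := by
  have hb1 : 1 < b := by omega
  obtain ⟨c, hc⟩ : ∃ c, c = Nat.clog b ((B + 1) * X) := ⟨_, rfl⟩
  have hXle : X ≤ (B + 1) * X := Nat.le_mul_of_pos_left _ (by omega)
  have hk1 : 1 ≤ b ^ k₀ := Nat.one_le_pow _ _ (by omega)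
  have hc1 : (B + 1) * X ≤ b ^ c := by rw [hc]; exact Nat.le_pow_clog hb1 _
  have hc0 : 1 ≤ c := by
    by_contra h0
    have : c = 0 := by omega
    rw [this, pow_zero] at hc1
    omega
  have hc2 : b ^ (c - 1) < (B + 1) * X := by
    rw [hc]
    exact Nat.pow_pred_clog_lt_self hb1 (by omega)
  have hbc : b ^ c = b * b ^ (c - 1) := by rw [← pow_succ']; congr 1; omega
  have hbK : b ^ (c + 1) = b * b ^ c := by rw [pow_succ']
  have hbc' : b ^ c ≤ b * ((B + 1) * X) := by rw [hbc]; exact Nat.mul_le_mul_left _ hc2.le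
  have h2c : 2 * b ^ c ≤ b ^ (c + 1) := by rw [hbK]; exact Nat.mul_le_mul_right _ hb
  have hck : k₀ ≤ c := by
    by_contra hcon
    push Not at hcon
    have : b ^ c ≤ b ^ k₀ := Nat.pow_le_pow_right (by omega) hcon.le
    omega
  refine ⟨c, hc0, hck, hc1, hc2, hbc', h2c, ?_, by omega⟩
  rw [hbK]
  calc b * b ^ c ≤ b * (b * ((B + 1) * X)) := Nat.mul_le_mul_left _ hbc'
    _ = _ := by ring

/-- the level of the model -/
lemma par_z (E1 BP : ℕ) (hE : BP + 1 ≤ E1) (m₀ : ℕ) (hm₀ : 1 ≤ m₀) (c₀ : ℕ) : ∃ X₀ : ℕ, ∀ X : ℕ, X₀ ≤ X → ∀ Y : ℕ, X ≤ Y → Y ≤ c₀ * X →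
    ∃ z : ℕ, 2 ≤ z ∧ Real.log Y ^ BP ≤ z ∧ (z : ℝ) ≤ Real.log Y ^ (E1 + 1) ∧
    ∀ N : ℕ, N ≤ X → X ≤ m₀ * N → Real.log N ^ E1 ≤ z ∧ (z : ℝ) ≤ Real.log N ^ (E1 + 1) := by
  obtain ⟨N1, hN1⟩ : ∃ N1 : ℕ, Real.exp (2 ^ (E1 + 1)) ≤ N1 := ⟨_, Nat.le_ceil _⟩
  refine ⟨m₀ * (N1 + c₀ * m₀ + 2) + 2, fun X hX Y hXY hYX => ?_⟩
  have hX0 : (0 : ℝ) < X := by exact_mod_cast (by omega : 0 < X)
  have hY0 : (0 : ℝ) < Y := by exact_mod_cast (by omega : 0 < Y)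
  obtain ⟨LY, hLY⟩ : ∃ LY, LY = Real.log (Y : ℝ) := ⟨_, rfl⟩
  obtain ⟨z, hz⟩ : ∃ z, z = ⌈LY ^ E1⌉₊ := ⟨_, rfl⟩
  have key : ∀ N : ℕ, N ≤ X → X ≤ m₀ * N → (2 : ℝ) ^ (E1 + 1) ≤ Real.log N ∧ Real.log N ≤ LY ∧ LY ≤ 2 * Real.log N := by
    intro N hN1' hN2
    have hNb : N1 + c₀ * m₀ + 2 ≤ N := by
      by_contra hcon
      push Not at hcon
      have : m₀ * N ≤ m₀ * (N1 + c₀ * m₀ + 2) := Nat.mul_le_mul_left _ hcon.le
      omega
    have hN0 : (0 : ℝ) < N := by exact_mod_cast (by omega : 0 < N)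
    refine ⟨?_, ?_, ?_⟩
    · rw [Real.le_log_iff_exp_le hN0]
      refine hN1.trans ?_
      exact_mod_cast (by omega : N1 ≤ N)
    · rw [hLY]
      exact Real.log_le_log hN0 (by exact_mod_cast hN1'.trans hXY)
    · have : Y ≤ N * N := by
        calc Y ≤ c₀ * X := hYX
          _ ≤ c₀ * (m₀ * N) := Nat.mul_le_mul_left _ hN2
          _ = (c₀ * m₀) * N := by ring
          _ ≤ N * N := Nat.mul_le_mul_right _ (by omega)
      rw [hLY]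
      calc Real.log Y ≤ Real.log ((N : ℝ) * N) := Real.log_le_log hY0 (by exact_mod_cast this)
        _ = 2 * Real.log N := by rw [Real.log_mul hN0.ne' hN0.ne']; ring
  have h2E : (2 : ℝ) ≤ 2 ^ (E1 + 1) := by
    calc (2 : ℝ) = 2 ^ 1 := (pow_one _).symm
      _ ≤ _ := pow_le_pow_right₀ (by norm_num) (by omega)
  obtain ⟨k1, k2, _⟩ := key X le_rfl (Nat.le_mul_of_pos_left _ hm₀)
  have hLY0 : (2 : ℝ) ≤ LY := by linarith
  have hz1 : LY ^ E1 ≤ z := by rw [hz]; exact Nat.le_ceil _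
  have hz2 : (z : ℝ) ≤ 2 * LY ^ E1 := by
    have h1 : (z : ℝ) < LY ^ E1 + 1 := by rw [hz]; exact Nat.ceil_lt_add_one (by positivity)
    have h2 : (1 : ℝ) ≤ LY ^ E1 := one_le_pow₀ (by linarith)
    linarith
  have hz3 : (2 : ℝ) ≤ z := by
    calc (2 : ℝ) ≤ LY := hLY0
      _ = LY ^ 1 := (pow_one _).symm
      _ ≤ LY ^ E1 := pow_le_pow_right₀ (by linarith) (by omega)
      _ ≤ z := hz1
  refine ⟨z, by exact_mod_cast hz3, ?_, ?_, ?_⟩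
  · rw [← hLY]
    exact (pow_le_pow_right₀ (by linarith) (by omega)).trans hz1
  · rw [← hLY, pow_succ']
    exact hz2.trans (mul_le_mul_of_nonneg_right hLY0 (by positivity))
  · intro N hN1' hN2
    obtain ⟨q1, q2, q3⟩ := key N hN1' hN2
    have hLN0 : (0 : ℝ) ≤ Real.log N := by linarith
    refine ⟨(pow_le_pow_left₀ hLN0 q2 _).trans hz1, ?_⟩
    calc (z : ℝ) ≤ 2 * LY ^ E1 := hz2
      _ ≤ 2 * (2 * Real.log N) ^ E1 := by
          apply mul_le_mul_of_nonneg_left _ (by norm_num)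
          exact pow_le_pow_left₀ (by linarith) q3 _
      _ = 2 ^ (E1 + 1) * Real.log N ^ E1 := by rw [mul_pow, pow_succ]; ring
      _ ≤ Real.log N * Real.log N ^ E1 := mul_le_mul_of_nonneg_right q1 (by positivity)
      _ = _ := by rw [pow_succ']

/-- the reserved positions -/
lemma res_sub (φ Q u : ℕ) (hφ1 : 1 ≤ φ) (hu : u < Q) : (Icc 1 u).image (fun l => φ * l) ⊆ Ico 1 (φ * Q + 1) := by
  intro ν hν
  rw [mem_image] at hν
  obtain ⟨l, hl, rfl⟩ := hν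
  rw [mem_Icc] at hl
  rw [mem_Ico]
  constructor
  · exact Nat.mul_pos hφ1 hl.1
  · have : φ * l ≤ φ * Q := Nat.mul_le_mul_left _ (by omega)
    omega

lemma res_kap (b φ u : ℕ) (hφ1 : 1 ≤ φ) : ∑ ν ∈ (Icc 1 u).image (fun l => φ * l), b ^ ν = kap b φ u := by
  unfold kap
  rw [sum_image]
  intro l _ l' _ hll
  exact Nat.eq_of_mul_eq_mul_left hφ1 hll

/-- the set of exponents of one shift -/
def fullS (φ u : ℕ) (S' : Finset ℕ) : Finset ℕ := (Icc 1 u).image (fun l => φ * l) ∪ S'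

lemma fullS_sum (b φ Q u c : ℕ) (S' : Finset ℕ) (hφ1 : 1 ≤ φ) (hu : u < Q) (hS' : S' ⊆ Ico (φ * Q + 1) c) :
    ∑ ν ∈ fullS φ u S', b ^ ν = kap b φ u + ∑ ν ∈ S', b ^ ν := by
  unfold fullS
  rw [sum_union, res_kap b φ u hφ1]
  rw [disjoint_left]
  intro ν hν hν'
  have h1 := mem_Ico.1 (res_sub φ Q u hφ1 hu hν)
  have h2 := mem_Ico.1 (hS' hν')
  omega

lemma fullS_lt (φ Q u c : ℕ) (S' : Finset ℕ) (hφ1 : 1 ≤ φ) (hu : u < Q) (hc : φ * Q + 1 ≤ c) (hS' : S' ⊆ Ico (φ * Q + 1) c) :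
    ∀ ν ∈ fullS φ u S', ν < c := by
  intro ν hν
  unfold fullS at hν
  rw [mem_union] at hν
  rcases hν with hν | hν
  · have h1 := mem_Ico.1 (res_sub φ Q u hφ1 hu hν)
    omega
  · have h2 := mem_Ico.1 (hS' hν)
    omega

lemma fullS_card (φ Q u D : ℕ) (S' : Finset ℕ) (hu : u < Q) (hS' : S'.card ≤ D) : (fullS φ u S').card ≤ Q + D := by
  unfold fullS
  refine (card_union_le _ _).trans ?_
  have h1 := card_image_le (s := Icc 1 u) (f := fun l => φ * l)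
  rw [Nat.card_Icc] at h1
  omega

/-- the family of the corrected tuples -/
noncomputable def fam {s : ℕ} (b φ Q : ℕ) (T : Finset (Fin s → ℕ)) : Finset (Fin s → ℤ) :=
  (T ×ˢ Fintype.piFinset (fun _ : Fin s => range Q)).image (fun p => fun i => (p.1 i : ℤ) + (kap b φ (p.2 i) : ℤ))

lemma fam_card {s : ℕ} (b φ Q M : ℕ) (T : Finset (Fin s → ℕ)) (hT : T.card ≤ M) : (fam b φ Q T).card ≤ M * Q ^ s := by
  unfold fam
  refine card_image_le.trans ?_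
  rw [card_product, Fintype.card_piFinset]
  simp only [card_range, prod_const, card_univ, Fintype.card_fin]
  exact Nat.mul_le_mul_right _ hT

lemma fam_le {s : ℕ} (b φ Q c Z : ℕ) (hb : 2 ≤ b) (hφ1 : 1 ≤ φ) (hc : φ * Q + 1 ≤ c) (T : Finset (Fin s → ℕ)) (hT : ∀ h ∈ T, ∀ i, h i + b ^ c ≤ Z) :
    ∀ h ∈ fam b φ Q T, ∀ i, |h i| ≤ (Z : ℤ) := by
  intro h hh' i
  unfold fam at hh'
  rw [mem_image] at hh'
  obtain ⟨p, hp, rfl⟩ := hh'
  rw [mem_product, Fintype.mem_piFinset] at hp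
  have h1 := hT p.1 hp.1 i
  have h2 : kap b φ (p.2 i) < b ^ c := by
    rw [← res_kap b φ _ hφ1]
    apply Nat.geomSum_lt hb
    intro ν hν
    have := mem_Ico.1 (res_sub φ Q _ hφ1 (mem_range.1 (hp.2 i)) hν)
    omega
  beta_reduce
  rw [abs_of_nonneg (by positivity)]
  exact_mod_cast (by omega : p.1 i + kap b φ (p.2 i) ≤ Z)

/-- the shifts stay in the classes -/
lemma adm_full {s : ℕ} (b : ℕ) (h : Fin s → ℕ) (u : Fin s → ℕ) (S' : Fin s → Finset ℕ) (c : ℕ) (hS' : ∀ i, S' i ⊆ Ico ((Qp b s).totient * Qp b s + 1) c)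
    (hu : ∀ i, u i < Qp b s) (hu2 : ∀ i, ((Qp b s : ℕ) : ℤ) ∣ (kap b (Qp b s).totient (u i) : ℤ) + ((∑ ν ∈ S' i, b ^ ν : ℕ) : ℤ))
    (hadm : Admissible (fun i => (h i : ℤ))) :
    Admissible (fun i => ((h i + ∑ ν ∈ fullS (Qp b s).totient (u i) (S' i), b ^ ν : ℕ) : ℤ)) := by
  have hφ1 : 1 ≤ (Qp b s).totient := Nat.totient_pos.2 (Qp_pos b s)
  apply adm_shift (fun i => (h i : ℤ)) _ hadm
  intro p hp hps i
  have h1 : ((h i + ∑ ν ∈ fullS (Qp b s).totient (u i) (S' i), b ^ ν : ℕ) : ℤ) - (h i : ℤ) =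
      (kap b (Qp b s).totient (u i) : ℤ) + ((∑ ν ∈ S' i, b ^ ν : ℕ) : ℤ) := by
    rw [fullS_sum b _ (Qp b s) (u i) c (S' i) hφ1 (hu i) (hS' i)]
    push_cast
    ring
  rw [h1]
  apply small_dvd b s _ (hu2 i) _ p hp hps
  have h2 : b ∣ ∑ ν ∈ S' i, b ^ ν := by
    apply dvd_sum
    intro ν hν
    apply dvd_pow_self
    have := mem_Ico.1 (hS' i hν)
    omega
  exact dvd_add (Int.natCast_dvd_natCast.2 (kap_dvd b _ _ hφ1)) (Int.natCast_dvd_natCast.2 h2)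

/-- the formula at all points of the grid -/
theorem at_grid (hD : S_D) (hR : S_R) (hSB : S_SB) (hP : S_P) (b : ℕ) (hb : 2 ≤ b) (s : ℕ) (hs : 1 ≤ s) (M B m m₀ : ℕ) (hm : 1 ≤ m)
    (hm₀ : 1 ≤ m₀) (ε : ℝ) (hε : 0 < ε) :
    ∃ D X₀ : ℕ, ∀ X : ℕ, X₀ ≤ X → ∀ T : Finset (Fin s → ℕ), T.card ≤ M → (∀ h ∈ T, ∀ i, h i ≤ B * X) →
    ∃ S : Fin s → Finset ℕ, (∀ i, (S i).card ≤ D) ∧ (∀ i, ∀ ν ∈ S i, b ^ ν ≤ (B + 1) * X) ∧
      ∀ h ∈ T, (Admissible (fun i => (h i : ℤ)) → Admissible (fun i => ((h i + ∑ ν ∈ S i, b ^ ν : ℕ) : ℤ))) ∧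
        ∀ N ∈ grid m m₀ X, HLe ε N (fun i => h i + ∑ ν ∈ S i, b ^ ν) := by
  classical
  obtain ⟨BP, hgood⟩ := good_choice hSB hR hP b hb s hs
  obtain ⟨E1, hE1⟩ : ∃ E1, E1 = BP + s + 6 := ⟨_, rfl⟩
  obtain ⟨δ, hδ, n0, hdet⟩ := hD s ((B + b * (B + 1)) * (2 * m₀)) E1 hs (by omega) ε hε
  obtain ⟨δ₁, hδ₁⟩ : ∃ δ₁ : ℝ, δ₁ = δ / (s * (b ^ 2 * (B + 1)) * (2 * m₀)) := ⟨_, rfl⟩
  have hs0 : (0 : ℝ) < s := by exact_mod_cast hs
  have hm₀0 : (0 : ℝ) < m₀ := by exact_mod_cast hm₀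
  have hb0 : (0 : ℝ) < b := by exact_mod_cast (by omega : 0 < b)
  have hδ₁0 : 0 < δ₁ := by rw [hδ₁]; positivity
  have hφ1 : 1 ≤ (Qp b s).totient := Nat.totient_pos.2 (Qp_pos b s)
  obtain ⟨D, k₀, hch⟩ := hgood (E1 + 1) (M * Qp b s ^ s) m ((Qp b s).totient * Qp b s + 1) δ₁ (by omega) hδ₁0
  obtain ⟨x1, hx1⟩ := par_z E1 BP (by omega) (2 * m₀) (by omega) (b ^ 2 * (B + 1))
  refine ⟨Qp b s + D, x1 + 2 * m₀ * n0 + b ^ (k₀ + ((Qp b s).totient * Qp b s + 1)) + 1, fun X hX T hT hTb => ?_⟩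
  obtain ⟨c, hc0, hck, hc1, hc2, hbc', h2c, hYX, hXY⟩ := par_K b hb B (k₀ + ((Qp b s).totient * Qp b s + 1)) X (by omega)
  obtain ⟨z, hz2, hz3, hz4, hz5⟩ := hx1 X (by omega) (b ^ (c + 1)) hXY hYX
  have hBX : (B + 1) * X = B * X + X := by ring
  obtain ⟨S', hS's, hS'c, hS'n, hS'⟩ := hch (c + 1) (by omega) z hz2 hz3 hz4 (fam b (Qp b s).totient (Qp b s) T)
    (fam_card b _ _ M T hT) (fam_le b _ _ c (b ^ (c + 1)) hb hφ1 (by omega) T (fun h hh' i => by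
      have := hTb h hh' i
      omega)) (grid m m₀ X) (grid_card m m₀ X) (fun N hN => (grid_le m m₀ X N hm hN).1.trans hXY)
  simp only [Nat.add_sub_cancel] at hS's
  have hu : ∀ i, ∃ u ∈ range (Qp b s), ((Qp b s : ℕ) : ℤ) ∣ (kap b (Qp b s).totient u : ℤ) + ((∑ ν ∈ S' i, b ^ ν : ℕ) : ℤ) := by
    intro i
    exact res_choice b s _
  choose u hu1 hu2 using hu
  have hu1' : ∀ i, u i < Qp b s := fun i => mem_range.1 (hu1 i)
  have hlt : ∀ i, ∀ ν ∈ fullS (Qp b s).totient (u i) (S' i), ν < c := fun i =>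
    fullS_lt _ (Qp b s) (u i) c (S' i) hφ1 (hu1' i) (by omega) (hS's i)
  have hsum : ∀ i, ∑ ν ∈ fullS (Qp b s).totient (u i) (S' i), b ^ ν = kap b (Qp b s).totient (u i) + ∑ ν ∈ S' i, b ^ ν := fun i =>
    fullS_sum b _ (Qp b s) (u i) c (S' i) hφ1 (hu1' i) (hS's i)
  have hsle : ∀ i, ∑ ν ∈ fullS (Qp b s).totient (u i) (S' i), b ^ ν < b ^ c := fun i => Nat.geomSum_lt hb (hlt i)
  refine ⟨fun i => fullS (Qp b s).totient (u i) (S' i), fun i => fullS_card _ _ _ _ _ (hu1' i) (hS'c i), ?_, ?_⟩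
  · intro i ν hν
    exact (Nat.pow_le_pow_right (by omega) (by have := hlt i ν hν; omega)).trans hc2.le
  · intro h hh'
    refine ⟨adm_full b h u S' c hS's hu1' hu2, fun N hN => ?_⟩
    obtain ⟨hNX, hXN⟩ := grid_le m m₀ X N hm hN
    have hn0 : n0 ≤ N := by
      by_contra hcon
      push Not at hcon
      have : 2 * m₀ * N ≤ 2 * m₀ * n0 := Nat.mul_le_mul_left _ hcon.le
      omega
    obtain ⟨hz6, hz7⟩ := hz5 N hNX hXN
    have hmem : (fun i => (h i : ℤ) + (kap b (Qp b s).totient (u i) : ℤ)) ∈ fam b (Qp b s).totient (Qp b s) T := by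
      unfold fam
      rw [mem_image]
      refine ⟨(h, u), ?_, rfl⟩
      rw [mem_product, Fintype.mem_piFinset]
      exact ⟨hh', hu1⟩
    have haeq : ∀ i, ((h i + ∑ ν ∈ fullS (Qp b s).totient (u i) (S' i), b ^ ν : ℕ) : ℤ) =
        ((h i : ℤ) + (kap b (Qp b s).totient (u i) : ℤ)) + ∑ ν ∈ S' i, (b : ℤ) ^ ν := by
      intro i
      rw [hsum]
      push_cast
      ring
    obtain ⟨hg1, hg2⟩ := hS' _ hmem
    have hg3 := hg2 N hN
    apply hdet N hn0 z hz6 hz7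
    · intro i
      have h1 := hTb h hh' i
      have h2 := hsle i
      calc h i + ∑ ν ∈ fullS (Qp b s).totient (u i) (S' i), b ^ ν ≤ B * X + b * ((B + 1) * X) := by omega
        _ = (B + b * (B + 1)) * X := by ring
        _ ≤ (B + b * (B + 1)) * (2 * m₀ * N) := Nat.mul_le_mul_left _ hXN
        _ = _ := by ring
    · intro i
      have h1 : 0 < ∑ ν ∈ S' i, b ^ ν := sum_pos (fun ν _ => Nat.pow_pos (by omega)) (hS'n i)
      rw [hsum]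
      omega
    · intro i j hij heq
      apply hg1 i j hij
      beta_reduce
      rw [← haeq, ← haeq]
      exact_mod_cast heq
    · have h1 : ∀ n : ℕ, n ∈ Icc 1 N → ∀ i, (n : ℤ) + (((h i : ℤ) + (kap b (Qp b s).totient (u i) : ℤ)) + ∑ ν ∈ S' i, (b : ℤ) ^ ν) ≤
          ((b ^ (c + 1) : ℕ) : ℤ) := by
        intro n hn i
        rw [← haeq]
        have h1 := hTb h hh' i
        have h2 := hsle i
        have h3 := (mem_Icc.1 hn).2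
        exact_mod_cast (by omega : n + (h i + ∑ ν ∈ fullS (Qp b s).totient (u i) (S' i), b ^ ν) ≤ b ^ (c + 1))
      have h2 := hg3 h1
      have h3 : ∑ n ∈ Icc 1 N, ArithmeticFunction.vonMangoldt n *
          (∏ i, lamI ((n : ℤ) + ((h i + ∑ ν ∈ fullS (Qp b s).totient (u i) (S' i), b ^ ν : ℕ) : ℤ)) -
            ∏ i, lamzI z ((n : ℤ) + ((h i + ∑ ν ∈ fullS (Qp b s).totient (u i) (S' i), b ^ ν : ℕ) : ℤ))) =
          ∑ n ∈ Icc 1 N, ArithmeticFunction.vonMangoldt n *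
          (∏ i, lamI ((n : ℤ) + (((h i : ℤ) + (kap b (Qp b s).totient (u i) : ℤ)) + ∑ ν ∈ S' i, (b : ℤ) ^ ν)) -
            ∏ i, lamzI z ((n : ℤ) + (((h i : ℤ) + (kap b (Qp b s).totient (u i) : ℤ)) + ∑ ν ∈ S' i, (b : ℤ) ^ ν))) := by
        apply sum_congr rfl
        intro n _
        congr 2
        · apply prod_congr rfl
          intro i _
          rw [haeq]
        · apply prod_congr rfl
          intro i _
          rw [haeq]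
      rw [h3]
      refine h2.trans ?_
      have h4 : ((b ^ (c + 1) : ℕ) : ℝ) ≤ b ^ 2 * (B + 1) * X := by exact_mod_cast hYX
      have h5 : (X : ℝ) ≤ 2 * m₀ * N := by exact_mod_cast hXN
      calc (s : ℝ) * δ₁ * ((b ^ (c + 1) : ℕ) : ℝ) ≤ s * δ₁ * (b ^ 2 * (B + 1) * X) := mul_le_mul_of_nonneg_left h4 (by positivity)
        _ ≤ s * δ₁ * (b ^ 2 * (B + 1) * (2 * m₀ * N)) := by
            apply mul_le_mul_of_nonneg_left _ (by positivity)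
            exact mul_le_mul_of_nonneg_left h5 (by positivity)
        _ = δ * N := by
            rw [hδ₁]
            field_simp

/-- the theorem for all `N` in the range -/
theorem main_range (hD : S_D) (hR : S_R) (hSB : S_SB) (hP : S_P) (b : ℕ) (hb : 2 ≤ b) (s : ℕ) (hs : 1 ≤ s) (M B m₀ : ℕ)
    (hm₀ : 1 ≤ m₀) (ε : ℝ) (hε : 0 < ε) :
    ∃ D X₀ : ℕ, ∀ X : ℕ, X₀ ≤ X → ∀ T : Finset (Fin s → ℕ), T.card ≤ M → (∀ h ∈ T, ∀ i, h i ≤ B * X) →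
    (∀ h ∈ T, Admissible (fun i => (h i : ℤ))) →
    ∃ S : Fin s → Finset ℕ, (∀ i, (S i).card ≤ D) ∧ (∀ i, ∀ ν ∈ S i, b ^ ν ≤ (B + 1) * X) ∧
      ∀ h ∈ T, Admissible (fun i => ((h i + ∑ ν ∈ S i, b ^ ν : ℕ) : ℤ)) ∧ ∃ G : ℝ, 0 < G ∧
        Filter.Tendsto (fun z => singZ (fun i => ((h i + ∑ ν ∈ S i, b ^ ν : ℕ) : ℤ)) z) Filter.atTop (nhds G) ∧
        ∀ N : ℕ, N ≤ X → X ≤ m₀ * N →
          |(primeTuples (fun i => h i + ∑ ν ∈ S i, b ^ ν) N : ℝ) - G * (N / Real.log N ^ (s + 1))| ≤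
            ε * (G * (N / Real.log N ^ (s + 1))) := by
  obtain ⟨ε', hε'⟩ : ∃ ε', ε' = min ε 1 := ⟨_, rfl⟩
  have hε'0 : 0 < ε' := by rw [hε']; exact lt_min hε one_pos
  have hε'1 : ε' ≤ 1 := by rw [hε']; exact min_le_right _ _
  have hε'e : ε' ≤ ε := by rw [hε']; exact min_le_left _ _
  obtain ⟨κ, hκ⟩ : ∃ κ, κ = ε' / 4 := ⟨_, rfl⟩
  have hκ0 : 0 < κ := by rw [hκ]; positivity
  obtain ⟨m, hm⟩ := exists_nat_ge (4 * (m₀ : ℝ) / κ)
  obtain ⟨D, X₀, hX₀⟩ := at_grid hD hR hSB hP b hb s hs M B (m + 8 * m₀) m₀ (by omega) hm₀ κ hκ0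
  refine ⟨D, X₀ + (m + 8 * m₀) + 4 * m₀, fun X hX T hT hTb hTa => ?_⟩
  obtain ⟨S, hS1, hS2, hS3⟩ := hX₀ X (by omega) T hT hTb
  refine ⟨S, hS1, hS2, fun h hh' => ?_⟩
  obtain ⟨hadm, hgr⟩ := hS3 h hh'
  have hadm' := hadm (hTa h hh')
  refine ⟨hadm', ?_⟩
  have hmm : 4 * (m₀ : ℝ) / ((m + 8 * m₀ : ℕ) : ℝ) ≤ κ := by
    have h1 : (m : ℝ) ≤ ((m + 8 * m₀ : ℕ) : ℝ) := by exact_mod_cast (by omega : m ≤ m + 8 * m₀)
    have h2 : (0 : ℝ) < ((m + 8 * m₀ : ℕ) : ℝ) := by exact_mod_cast (by omega : 0 < m + 8 * m₀)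
    rw [div_le_iff₀ hκ0] at hm
    rw [div_le_iff₀ h2]
    have h3 := mul_le_mul_of_nonneg_left h1 hκ0.le
    linarith
  obtain ⟨A, hA, C, hC, hAX, hXC, hC', hA'⟩ := grid_near (m + 8 * m₀) m₀ X X hm₀ (by omega) (by omega) (Nat.le_mul_of_pos_left _ hm₀) le_rfl
  obtain ⟨G, hG1, hG2, hG3⟩ := hgr A hA
  obtain ⟨hG0, hG4⟩ := hG3 hadm'
  refine ⟨G, hG0, hG1, fun N hN1 hN2 => ?_⟩
  obtain ⟨A', hA1, C', hC1, hAN, hNC, hC2, hA2⟩ := grid_near (m + 8 * m₀) m₀ X N hm₀ (by omega) (by omega) hN2 hN1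
  have hgrid : ∀ N' ∈ grid (m + 8 * m₀) m₀ X, |(primeTuples (fun i => h i + ∑ ν ∈ S i, b ^ ν) N' : ℝ) - G * (N' / Real.log N' ^ (s + 1))| ≤
      κ * (G * (N' / Real.log N' ^ (s + 1))) := by
    intro N' hN'
    obtain ⟨G', hG1', _, hG3'⟩ := hgr N' hN'
    have : G' = G := tendsto_nhds_unique hG1' hG1
    rw [this] at hG3'
    exact (hG3' hadm').2
  have hA3 : 2 ≤ A' := by
    have h1 := (grid_le (m + 8 * m₀) m₀ X A' (by omega) hA1).2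
    by_contra hcon
    push Not at hcon
    have : 2 * m₀ * A' ≤ 2 * m₀ * 1 := Nat.mul_le_mul_left _ (by omega)
    omega
  have hN0 : (0 : ℝ) ≤ N := Nat.cast_nonneg _
  have hA0 : (0 : ℝ) ≤ A' := Nat.cast_nonneg _
  have e1 : (C' : ℝ) ≤ (1 + κ) * N := by
    refine hC2.trans ?_
    apply mul_le_mul_of_nonneg_right _ hN0
    linarith
  have e2 : (N : ℝ) ≤ (1 + κ) * A' := by
    refine hA2.trans ?_
    apply mul_le_mul_of_nonneg_right _ hA0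
    linarith
  have h5 := interp (fun i => h i + ∑ ν ∈ S i, b ^ ν) G ε' κ hG0 hε'0 hε'1 hκ A' N C' hA3 hAN hNC e1 e2 (hgrid A' hA1) (hgrid C' hC1)
  refine h5.trans ?_
  apply mul_le_mul_of_nonneg_right hε'e
  apply mul_nonneg hG0.le
  apply div_nonneg hN0
  have : 0 ≤ Real.log (N : ℝ) := Real.log_natCast_nonneg N
  positivity

end Pool.Agent.Y820.LT
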