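import Pool.Agent.Y820.LT.G2

set_option autoImplicit false

/-! The existence of a good choice, for all but a small proportion of a family of tuples. -/

namespace Pool.Agent.Y820.LT
open Finset
open Pool.Agent.H373R2.T7 (lamI lamzI lamz Vz Vz_pos Vz_inv_small lamI_nonneg lamzI_nonneg singZ tupleCount Admissible)
open Pool.Agent.W93.HD (gg one_le_gg)
open Pool.Agent.W93.DG (hh logX hh_small)
open Pool.Agent.TH894.SM (dl Om Pos)

/-- a point where the averages are small -/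
lemma exists_small2 {κ τ : Type*} (P : Finset κ) (hP : P.Nonempty) (T : Finset τ) (F : τ → κ → ℝ) (F3 : κ → ℝ) (ρ : ℝ) (hρ : 0 < ρ)
    (hF : ∀ h x, 0 ≤ F h x) (hF3 : ∀ x, 0 ≤ F3 x) (h1 : ∀ h ∈ T, ∑ x ∈ P, F h x ≤ ρ / 4 * P.card)
    (h3 : ∑ x ∈ P, F3 x ≤ 1 / 4 * P.card) : ∃ x ∈ P, F3 x < 1 ∧ ∑ h ∈ T, F h x ≤ ρ * T.card := by
  have hP0 : (0 : ℝ) < P.card := by exact_mod_cast card_pos.2 hP
  rcases T.eq_empty_or_nonempty with hT | hT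
  · subst hT
    by_contra hcon
    push Not at hcon
    have h4 : ∑ _x ∈ P, (1 : ℝ) ≤ ∑ x ∈ P, F3 x := by
      apply sum_le_sum
      intro x hx
      by_contra h5
      push Not at h5
      have := hcon x hx h5
      simp at this
    rw [sum_const, nsmul_eq_mul, mul_one] at h4
    linarith
  · have hT0 : (0 : ℝ) < T.card := by exact_mod_cast card_pos.2 hT
    have hρT : 0 < ρ * T.card := mul_pos hρ hT0
    have h5 : ∑ x ∈ P, (∑ h ∈ T, F h x) / (ρ * T.card) ≤ 1 / 4 * P.card := by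
      rw [← sum_div, div_le_iff₀ hρT, sum_comm]
      refine (sum_le_sum h1).trans (le_of_eq ?_)
      rw [sum_const, nsmul_eq_mul]
      ring
    by_contra hcon
    push Not at hcon
    have h6 : ∑ _x ∈ P, (1 : ℝ) ≤ ∑ x ∈ P, (F3 x + (∑ h ∈ T, F h x) / (ρ * T.card)) := by
      apply sum_le_sum
      intro x hx
      have e1 : 0 ≤ (∑ h ∈ T, F h x) / (ρ * T.card) := div_nonneg (sum_nonneg fun h _ => hF h x) hρT.le
      rcases lt_or_ge (F3 x) 1 with h7 | h7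
      · have h8 := hcon x hx h7
        have h9 : 1 ≤ (∑ h ∈ T, F h x) / (ρ * T.card) := by
          rw [le_div_iff₀ hρT, one_mul]
          exact h8.le
        linarith [hF3 x]
      · linarith
    rw [sum_const, nsmul_eq_mul, mul_one, sum_add_distrib] at h6
    linarith

section
variable {s t t' : ℕ} (b z Y : ℕ) (e : Fin s → ℕ → ℤ) (H : Finset (Fin s → ℤ)) (NN : Finset ℕ) (δ : ℝ)

lemma B1_sum' (ρ : ℝ) (hρ : 0 < ρ) (P : Finset (Fin s → Ch t t')) (n n' : ℕ) (hH : H.card ≤ n) (hNN : NN.card ≤ n') (hδ : 0 < δ) (hY : 0 < Y) (δ₀ : ℝ)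
    (hδ₀ : δ₀ = ρ * δ ^ 2 / (8 * (n * n' * s + 1)))
    (hD : ∀ h ∈ H, ∀ N ∈ NN, ∀ j : Fin s, ∑ x ∈ P, DD b z Y N e h j x ^ 2 ≤ δ₀ * (Y : ℝ) ^ 2 * P.card) :
    ∑ x ∈ P, B1 b z Y e H NN δ x ≤ ρ / 8 * P.card := by
  have hY0 : (0 : ℝ) < Y := by exact_mod_cast hY
  have hP0 : (0 : ℝ) ≤ P.card := Nat.cast_nonneg _
  have hδ₀0 : 0 ≤ δ₀ := by rw [hδ₀]; positivity
  unfold B1
  rw [sum_comm]
  have h1 : ∀ h ∈ H, ∑ x ∈ P, ∑ N ∈ NN, ∑ j, DD b z Y N e h j x ^ 2 / (δ ^ 2 * Y ^ 2) ≤ n' * (s * (δ₀ / δ ^ 2 * P.card)) := by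
    intro h hh'
    rw [sum_comm]
    have h2 : ∀ N ∈ NN, ∑ x ∈ P, ∑ j, DD b z Y N e h j x ^ 2 / (δ ^ 2 * Y ^ 2) ≤ s * (δ₀ / δ ^ 2 * P.card) := by
      intro N hN
      rw [sum_comm]
      refine (sum_le_sum (g := fun _ => δ₀ / δ ^ 2 * P.card) fun j _ => ?_).trans (le_of_eq ?_)
      · rw [← sum_div, div_le_iff₀ (by positivity)]
        refine (hD h hh' N hN j).trans (le_of_eq ?_)
        field_simp
      · rw [sum_const, nsmul_eq_mul, card_univ, Fintype.card_fin]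
    refine (sum_le_sum h2).trans ?_
    rw [sum_const, nsmul_eq_mul]
    apply mul_le_mul_of_nonneg_right _ (by positivity)
    exact_mod_cast hNN
  refine (sum_le_sum h1).trans ?_
  rw [sum_const, nsmul_eq_mul]
  have h2 : (H.card : ℝ) ≤ n := by exact_mod_cast hH
  calc (H.card : ℝ) * (n' * (s * (δ₀ / δ ^ 2 * P.card))) ≤ n * (n' * (s * (δ₀ / δ ^ 2 * P.card))) :=
        mul_le_mul_of_nonneg_right h2 (by positivity)
    _ = (n * n' * s * (δ₀ / δ ^ 2)) * P.card := by ring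
    _ ≤ ρ / 8 * P.card := by
        apply mul_le_mul_of_nonneg_right _ hP0
        have h3 : δ₀ / δ ^ 2 = ρ / (8 * (n * n' * s + 1)) := by rw [hδ₀]; field_simp
        have h4 : (0 : ℝ) ≤ n * n' * s := by positivity
        rw [h3, mul_div_assoc', div_le_div_iff₀ (by positivity) (by norm_num)]
        nlinarith [mul_nonneg h4 hρ.le]

lemma B2_sum' (ρ : ℝ) (Ω : Finset (Fin 3 × Fin t → ℕ)) (Cs : Finset (Fin t' → ℕ)) (n m₀ : ℕ) (hH : H.card ≤ n) (hm₀ : 1 ≤ m₀)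
    (hm : 8 * (n * s ^ 2 : ℝ) ≤ ρ * m₀) (hC : m₀ ≤ Cs.card)
    (hz : ∀ i : Fin s, ∀ v : ℤ, ∑ c ∈ Cs, (if gam b (e i) c + v = 0 then (1 : ℝ) else 0) ≤ 1) :
    ∑ x ∈ PP s Ω Cs, B2 b e H x ≤ ρ / 8 * (PP s Ω Cs).card := by
  classical
  have hP0 : (0 : ℝ) ≤ (PP s Ω Cs).card := Nat.cast_nonneg _
  have hm₀0 : (0 : ℝ) < m₀ := by exact_mod_cast hm₀
  unfold B2
  rw [sum_comm]
  have h1 : ∀ h ∈ H, ∑ x ∈ PP s Ω Cs, ∑ p ∈ (univ : Finset (Fin s × Fin s)).filter (fun p => p.1 ≠ p.2),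
      (if shf b e h x p.1 = shf b e h x p.2 then (1 : ℝ) else 0) ≤ s ^ 2 * ((PP s Ω Cs).card / m₀) := by
    intro h _
    rw [sum_comm]
    refine (sum_le_sum (g := fun _ => ((PP s Ω Cs).card : ℝ) / m₀) fun p hp => ?_).trans ?_
    · rw [le_div_iff₀ hm₀0, mul_comm]
      exact coin b e h Ω Cs m₀ hC hz p.1 p.2 (mem_filter.1 hp).2
    · rw [sum_const, nsmul_eq_mul]
      apply mul_le_mul_of_nonneg_right _ (by positivity)
      have h2 := card_filter_le (univ : Finset (Fin s × Fin s)) (fun p => p.1 ≠ p.2)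
      rw [card_univ, Fintype.card_prod, Fintype.card_fin] at h2
      rw [sq]
      exact_mod_cast h2
  refine (sum_le_sum h1).trans ?_
  rw [sum_const, nsmul_eq_mul]
  have h2 : (H.card : ℝ) ≤ n := by exact_mod_cast hH
  calc (H.card : ℝ) * (s ^ 2 * ((PP s Ω Cs).card / m₀)) ≤ n * (s ^ 2 * ((PP s Ω Cs).card / m₀)) :=
        mul_le_mul_of_nonneg_right h2 (by positivity)
    _ = (n * s ^ 2 / m₀) * (PP s Ω Cs).card := by ring
    _ ≤ ρ / 8 * (PP s Ω Cs).card := by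
        apply mul_le_mul_of_nonneg_right _ hP0
        rw [div_le_div_iff₀ hm₀0 (by norm_num)]
        linarith

end

theorem good_choice3 (hSB : S_SB) (hR : S_R) (hP : S_P) (b : ℕ) (hb : 2 ≤ b) (s : ℕ) (hs : 1 ≤ s) : ∃ B : ℕ,
    ∀ (Ez n n' P₀ : ℕ) (δ ρ : ℝ), 1 ≤ P₀ → 0 < δ → 0 < ρ → ∃ D k₀ : ℕ, ∀ K : ℕ, k₀ ≤ K → ∀ z : ℕ, 2 ≤ z →
    Real.log ((b ^ K : ℕ) : ℝ) ^ B ≤ z → (z : ℝ) ≤ Real.log ((b ^ K : ℕ) : ℝ) ^ Ez →
    ∀ (T : Finset (Fin s → ℕ)) (H : (Fin s → ℕ) → Finset (Fin s → ℤ)), (∀ g ∈ T, (H g).card ≤ n) →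
    (∀ g ∈ T, ∀ h ∈ H g, ∀ i, |h i| ≤ ((b ^ K : ℕ) : ℤ)) →
    ∀ NN : Finset ℕ, NN.card ≤ n' → (∀ N ∈ NN, N ≤ b ^ K) →
    ∃ S : Fin s → Finset ℕ, (∀ i, S i ⊆ Ico P₀ (K - 1)) ∧ (∀ i, (S i).card ≤ D) ∧ (∀ i, (S i).Nonempty) ∧
      ∃ E ⊆ T, (E.card : ℝ) ≤ ρ * T.card ∧ ∀ g ∈ T, g ∉ E → ∀ h ∈ H g, (∀ i j, i ≠ j → h i + ∑ ν ∈ S i, (b : ℤ) ^ ν ≠ h j + ∑ ν ∈ S j, (b : ℤ) ^ ν) ∧
        ∀ N ∈ NN, (∀ n : ℕ, n ∈ Icc 1 N → ∀ i, (n : ℤ) + (h i + ∑ ν ∈ S i, (b : ℤ) ^ ν) ≤ ((b ^ K : ℕ) : ℤ)) →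
          |∑ n ∈ Icc 1 N, ArithmeticFunction.vonMangoldt n *
            (∏ i, lamI ((n : ℤ) + (h i + ∑ ν ∈ S i, (b : ℤ) ^ ν)) - ∏ i, lamzI z ((n : ℤ) + (h i + ∑ ν ∈ S i, (b : ℤ) ^ ν)))| ≤
            s * δ * ((b ^ K : ℕ) : ℝ) := by
  classical
  obtain ⟨R, A, B, hR1, hA3, havg⟩ := avgD hSB hR hP b hb
  refine ⟨B, fun Ez n n' P₀ δ ρ hP₀ hδ hρ => ?_⟩
  obtain ⟨R', hR'1, hblk⟩ := blocks b hb R A (4 * s + 1) P₀ hR1 (by omega) hP₀
  obtain ⟨δ₀, hδ₀⟩ : ∃ δ₀ : ℝ, δ₀ = ρ * δ ^ 2 / (8 * (n * n' * s + 1)) := ⟨_, rfl⟩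
  have hδ₀0 : 0 < δ₀ := by rw [hδ₀]; positivity
  obtain ⟨t, ht⟩ := havg s (4 * s + 1) R' Ez le_rfl δ₀ hδ₀0
  obtain ⟨k1, hk1⟩ := ht t le_rfl
  obtain ⟨m₀, hm₀1, hm₀2, hm₀3⟩ : ∃ m₀ : ℕ, 1 ≤ m₀ ∧ 8 * (n * s ^ 2 : ℝ) ≤ ρ * m₀ ∧ 36 * s * t ^ 2 ≤ m₀ := by
    obtain ⟨m1, hm1⟩ := exists_nat_ge (8 * (n * s ^ 2 : ℝ) / ρ)
    refine ⟨m1 + 36 * s * t ^ 2 + 1, by omega, ?_, by omega⟩
    rw [div_le_iff₀ hρ] at hm1
    have h1 : (m1 : ℝ) ≤ ((m1 + 36 * s * t ^ 2 + 1 : ℕ) : ℝ) := by exact_mod_cast (by omega : m1 ≤ m1 + 36 * s * t ^ 2 + 1)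
    have h2 := mul_le_mul_of_nonneg_left h1 hρ.le
    linarith
  obtain ⟨k2, hk2⟩ := hblk m₀
  refine ⟨3 * t + (4 * s + 1), k1 + k2 + R' * m₀ + 1, fun K hK z hz2 hzB hzE T H hH hHb NN hNN hNb => ?_⟩
  obtain ⟨J, J', hPos, hBlk, hJs, hJ's, hdis, hdis', hJc⟩ := hk2 K (by omega)
  have he1 : ∀ (i : Fin s) (j : ℕ), ((fun _ _ => 1 : Fin s → ℕ → ℤ) i j) ≠ 0 ∧ |(fun _ _ => 1 : Fin s → ℕ → ℤ) i j| < b := by
    intro i j
    refine ⟨one_ne_zero, ?_⟩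
    simp only [abs_one]
    exact_mod_cast (by omega : 1 < b)
  have hY0 : 0 < b ^ K := Nat.pow_pos (by omega)
  have hD : ∀ g ∈ T, ∀ h ∈ H g, ∀ N ∈ NN, ∀ j : Fin s, ∑ x ∈ PP s (Om J t) (Fintype.piFinset J'), DD b z (b ^ K) N (fun _ _ => 1) h j x ^ 2 ≤
      δ₀ * ((b ^ K : ℕ) : ℝ) ^ 2 * (PP s (Om J t) (Fintype.piFinset J')).card := by
    intro g hg h hh' N hN j
    exact hk1 K (by omega) z hz2 hzB hzE (fun _ _ => 1) he1 J hPos J' hBlk h (hHb g hg h hh') N (hNb N hN) j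
  have hJ'c : ∀ m, m₀ ≤ (J' m).card := blk_card J' hBlk (by omega)
  have hCc : m₀ ≤ (Fintype.piFinset J').card := by
    rw [Fintype.card_piFinset]
    have h1 : ∏ _m : Fin (4 * s + 1), m₀ ≤ ∏ m : Fin (4 * s + 1), (J' m).card := prod_le_prod' (fun m _ => hJ'c m)
    rw [prod_const, card_univ, Fintype.card_fin] at h1
    exact (Nat.le_self_pow (by omega) m₀).trans h1
  have hCn : (Fintype.piFinset J').Nonempty := card_pos.1 (by omega)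
  have hΩn : (Om J t).Nonempty := by
    unfold Om
    rw [Fintype.piFinset_nonempty]
    intro c
    have := hJc c.1
    exact card_pos.1 (by omega)
  have hPn : (PP s (Om J t) (Fintype.piFinset J')).Nonempty := by
    unfold PP
    rw [Fintype.piFinset_nonempty]
    intro _
    exact hΩn.product hCn
  obtain ⟨x, hx, u3, hx1⟩ := exists_small2 (PP s (Om J t) (Fintype.piFinset J')) hPn T
    (fun g x => B1 b z (b ^ K) (fun _ _ => 1) (H g) NN δ x + B2 b (fun _ _ => 1) (H g) x) B3 ρ hρ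
    (fun g x => add_nonneg (B1_nonneg b z (b ^ K) (fun _ _ => 1) (H g) NN δ x) (B2_nonneg b (fun _ _ => 1) (H g) x)) (fun x => B3_nonneg x)
    (fun g hg => by
      rw [sum_add_distrib]
      have q1 := B1_sum' b z (b ^ K) (fun _ _ => 1) (H g) NN δ ρ hρ _ n n' (hH g hg) hNN hδ hY0 δ₀ hδ₀ (hD g hg)
      have q2 := B2_sum' b (fun _ _ => 1) (H g) ρ (Om J t) (Fintype.piFinset J') n m₀ (hH g hg) hm₀1 hm₀2 hCc
        (fun i v => gam_zero b hb _ (he1 i) J' hBlk.sep v)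
      linarith)
    (B3_sum J (Fintype.piFinset J') m₀ hm₀1 hm₀3 hJc)
  clear hD
  unfold PP at hx
  rw [Fintype.mem_piFinset] at hx
  have hω : ∀ i, ∀ c, (x i).1 c ∈ J c.1 := by
    intro i c
    have := (mem_product.1 (hx i)).1
    unfold Om at this
    exact Fintype.mem_piFinset.1 this c
  have hc : ∀ i, ∀ m, (x i).2 m ∈ J' m := by
    intro i m
    exact Fintype.mem_piFinset.1 (mem_product.1 (hx i)).2 m
  have hSsum : ∀ h : Fin s → ℤ, ∀ i, h i + ∑ ν ∈ expo x i, (b : ℤ) ^ ν = shf b (fun _ _ => 1) h x i := by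
    intro h i
    exact expo_sum b x h i J J' (hω i) (hc i) hdis (B3_use x u3 i) (blk_inj J' hBlk _ (hc i))
  refine ⟨expo x, ?_, fun i => expo_card x i, ?_,
    T.filter (fun g => 1 ≤ B1 b z (b ^ K) (fun _ _ => 1) (H g) NN δ x + B2 b (fun _ _ => 1) (H g) x), filter_subset _ _, ?_, ?_⟩
  · intro i ν hν
    unfold expo at hν
    rw [mem_union, mem_image, mem_image] at hν
    rcases hν with ⟨c, _, rfl⟩ | ⟨m, _, rfl⟩
    · exact hJs _ (hω i c)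
    · exact hJ's _ (hc i m)
  · intro i
    unfold expo
    apply Nonempty.inr
    rw [image_nonempty]
    exact ⟨⟨0, by omega⟩, mem_univ _⟩
  · refine le_trans ?_ hx1
    rw [card_eq_sum_ones, Nat.cast_sum, sum_filter]
    apply sum_le_sum
    intro g _
    have q1 := B1_nonneg b z (b ^ K) (fun _ _ => 1) (H g) NN δ x
    have q2 := B2_nonneg b (fun _ _ => 1) (H g) x
    split_ifs with h1
    · push_cast
      exact h1
    · exact add_nonneg q1 q2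
  · intro g hg hgE h hh'
    have q1 := B1_nonneg b z (b ^ K) (fun _ _ => 1) (H g) NN δ x
    have q2 := B2_nonneg b (fun _ _ => 1) (H g) x
    have q3 : B1 b z (b ^ K) (fun _ _ => 1) (H g) NN δ x + B2 b (fun _ _ => 1) (H g) x < 1 := by
      by_contra hcon
      push Not at hcon
      exact hgE (mem_filter.2 ⟨hg, hcon⟩)
    have u1 : B1 b z (b ^ K) (fun _ _ => 1) (H g) NN δ x ≤ 1 := by linarith
    have u2 : B2 b (fun _ _ => 1) (H g) x < 1 := by linarith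
    refine ⟨fun i j hij => ?_, fun N hN hle => ?_⟩
    · rw [hSsum, hSsum]
      exact B2_use b (fun _ _ => 1) (H g) x u2 h hh' i j hij
    · have e1 : ∀ n : ℕ, ∀ i, (n : ℤ) + (h i + ∑ ν ∈ expo x i, (b : ℤ) ^ ν) = n + shf b (fun _ _ => 1) h x i := by
        intro n i
        rw [hSsum]
      have e2 : ∑ n ∈ Icc 1 N, ArithmeticFunction.vonMangoldt n *
            (∏ i, lamI ((n : ℤ) + (h i + ∑ ν ∈ expo x i, (b : ℤ) ^ ν)) - ∏ i, lamzI z ((n : ℤ) + (h i + ∑ ν ∈ expo x i, (b : ℤ) ^ ν))) =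
          ∑ j, DD b z (b ^ K) N (fun _ _ => 1) h j x := by
        rw [← tele b z (b ^ K) N (fun _ _ => 1) h x (fun n hn i => by rw [← e1]; exact hle n hn i)]
        apply sum_congr rfl
        intro n _
        rw [prod_congr rfl (fun i _ => by rw [e1 n i] : ∀ i ∈ (univ : Finset (Fin s)), lamI ((n : ℤ) + (h i + ∑ ν ∈ expo x i, (b : ℤ) ^ ν)) =
          lamI ((n : ℤ) + shf b (fun _ _ => 1) h x i)),
          prod_congr rfl (fun i _ => by rw [e1 n i] : ∀ i ∈ (univ : Finset (Fin s)), lamzI z ((n : ℤ) + (h i + ∑ ν ∈ expo x i, (b : ℤ) ^ ν)) =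
          lamzI z ((n : ℤ) + shf b (fun _ _ => 1) h x i))]
      rw [e2]
      refine (abs_sum_le_sum_abs _ _).trans ?_
      refine (sum_le_sum fun j _ => B1_use b z (b ^ K) (fun _ _ => 1) (H g) NN δ hδ hY0 x u1 h hh' N hN j).trans (le_of_eq ?_)
      rw [sum_const, nsmul_eq_mul, card_univ, Fintype.card_fin]
      ring

end Pool.Agent.Y820.LT
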