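import Pool.Agent.Y820.LT.M1

set_option autoImplicit false

/-! Averages over the differences of the shifts. -/

namespace Pool.Agent.Y820.LT
open Finset
open Pool.Agent.H373R2.T7 (lamI lamzI lamz Vz singZ tupleCount Admissible)
open Pool.Agent.W93.HD (gg)
open Pool.Agent.W93.DG (hh)
open Pool.Agent.TH894.SM (dl Om Pos)

/-- a choice of the positions, for one shift -/
abbrev Ch (t t' : ℕ) := (Fin 3 × Fin t → ℕ) × (Fin t' → ℕ)

/-- the shifts -/
def shf {s t t' : ℕ} (b : ℕ) (e : Fin s → ℕ → ℤ) (h : Fin s → ℤ) (x : Fin s → Ch t t') (i : Fin s) : ℤ :=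
  h i + gam b (e i) (x i).1 + gam b (e i) (x i).2

/-- all choices -/
def PP (s : ℕ) {t t' : ℕ} (Ω : Finset (Fin 3 × Fin t → ℕ)) (Cs : Finset (Fin t' → ℕ)) : Finset (Fin s → Ch t t') :=
  Fintype.piFinset (fun _ : Fin s => Ω ×ˢ Cs)

/-- the linear forms in the moment for the index `j` -/
def Hf {s t t' : ℕ} (b : ℕ) (e : Fin s → ℕ → ℤ) (h : Fin s → ℤ) (j : Fin s) (x : Fin s → Ch t t') (c c' : Fin t' → ℕ)
    (l : Fin s × Bool) : ℤ :=
  (if l.1 = j then 0 else shf b e h x l.1) - gam b (e j) (if l.2 then c' else c)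

lemma shf_upd_ne {s t t' : ℕ} (b : ℕ) (e : Fin s → ℕ → ℤ) (h : Fin s → ℤ) (x : Fin s → Ch t t') (i i' : Fin s) (hi : i' ≠ i)
    (y : Ch t t') : shf b e h (Function.update x i y) i' = shf b e h x i' := by
  unfold shf
  rw [Function.update_of_ne hi]

lemma shf_upd {s t t' : ℕ} (b : ℕ) (e : Fin s → ℕ → ℤ) (h : Fin s → ℤ) (x : Fin s → Ch t t') (i : Fin s)
    (y : Ch t t') : shf b e h (Function.update x i y) i = h i + gam b (e i) y.1 + gam b (e i) y.2 := by
  unfold shf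
  rw [Function.update_self]

section
variable {s t t' : ℕ} (b : ℕ) (e : Fin s → ℕ → ℤ) (h : Fin s → ℤ) (j : Fin s) (Ω : Finset (Fin 3 × Fin t → ℕ))
  (Cs : Finset (Fin t' → ℕ)) (ψ : ℤ → ℝ) (A : ℝ) (V W : ℤ)

lemma avg1 (hV : ∀ i : Fin s, ∀ v : ℤ, |v| ≤ V → ∑ y ∈ Cs, ψ (gam b (e i) y + v) ≤ A)
    (hW1 : ∀ x ∈ PP s Ω Cs, ∀ i, |shf b e h x i| ≤ W) (hW2 : ∀ i, ∀ ω ∈ Ω, |h i + gam b (e i) ω| ≤ W)
    (hW3 : ∀ i, ∀ c ∈ Cs, |gam b (e i) c| ≤ W) (hWV : 4 * W ≤ V) (hW0 : 0 ≤ W) (l l' : Fin s × Bool) (hl : l.1 ≠ l'.1) (hlj : l.1 ≠ j)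
    (c c' : Fin t' → ℕ) (hc : c ∈ Cs) (hc' : c' ∈ Cs) :
    (Cs.card : ℝ) * ∑ x ∈ PP s Ω Cs, ψ (Hf b e h j x c c' l - Hf b e h j x c c' l') ≤ A * (PP s Ω Cs).card := by
  classical
  have h1 := upd_sum (fun _ : Fin s => Ω ×ˢ Cs) l.1 (fun x => ψ (Hf b e h j x c c' l - Hf b e h j x c c' l'))
  have h2 : ∀ x ∈ PP s Ω Cs, ∑ y ∈ Ω ×ˢ Cs, ψ (Hf b e h j (Function.update x l.1 y) c c' l - Hf b e h j (Function.update x l.1 y) c c' l') ≤
      Ω.card * A := by
    intro x hx
    rw [sum_product]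
    have h3 : ∀ ω ∈ Ω, ∑ y ∈ Cs, ψ (Hf b e h j (Function.update x l.1 (ω, y)) c c' l - Hf b e h j (Function.update x l.1 (ω, y)) c c' l') ≤ A := by
      intro ω hω
      have h4 : ∀ y : Fin t' → ℕ, Hf b e h j (Function.update x l.1 (ω, y)) c c' l - Hf b e h j (Function.update x l.1 (ω, y)) c c' l' =
          gam b (e l.1) y + ((h l.1 + gam b (e l.1) ω) - gam b (e j) (if l.2 then c' else c) - Hf b e h j x c c' l') := by
        intro y
        unfold Hf
        rw [if_neg hlj, shf_upd, shf_upd_ne _ _ _ _ _ _ hl.symm]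
        simp only
        ring
      simp only [h4]
      apply hV
      have a1 := hW2 l.1 ω hω
      have a2 : |gam b (e j) (if l.2 then c' else c)| ≤ W := by
        apply hW3
        split_ifs
        · exact hc'
        · exact hc
      have a3 : |Hf b e h j x c c' l'| ≤ 2 * W := by
        unfold Hf
        have a4 : |if l'.1 = j then (0 : ℤ) else shf b e h x l'.1| ≤ W := by
          split_ifs
          · simpa using hW0
          · exact hW1 x hx _
        have a5 : |gam b (e j) (if l'.2 then c' else c)| ≤ W := by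
          apply hW3
          split_ifs
          · exact hc'
          · exact hc
        have := abs_sub (if l'.1 = j then (0 : ℤ) else shf b e h x l'.1) (gam b (e j) (if l'.2 then c' else c))
        linarith
      have a6 := abs_sub ((h l.1 + gam b (e l.1) ω) - gam b (e j) (if l.2 then c' else c)) (Hf b e h j x c c' l')
      have a7 := abs_sub (h l.1 + gam b (e l.1) ω) (gam b (e j) (if l.2 then c' else c))
      linarith
    refine (sum_le_sum h3).trans (le_of_eq ?_)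
    rw [sum_const, nsmul_eq_mul]
  have h3 := sum_le_sum h2
  unfold PP at h3 ⊢
  rw [h1, sum_const, nsmul_eq_mul, card_product, Nat.cast_mul] at h3
  rcases Ω.eq_empty_or_nonempty with h4 | h4
  · have h5 : Fintype.piFinset (fun _ : Fin s => Ω ×ˢ Cs) = ∅ := by
      rw [Fintype.piFinset_eq_empty]
      exact ⟨l.1, by simp [h4]⟩
    rw [h5]
    simp
  · have h5 : (0 : ℝ) < Ω.card := by exact_mod_cast card_pos.2 h4
    refine le_of_mul_le_mul_left (le_trans (le_of_eq ?_) (h3.trans (le_of_eq ?_))) h5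
    · ring
    · ring

lemma avg (hψ : ∀ d, ψ (-d) = ψ d) (hV : ∀ i : Fin s, ∀ v : ℤ, |v| ≤ V → ∑ y ∈ Cs, ψ (gam b (e i) y + v) ≤ A)
    (hW1 : ∀ x ∈ PP s Ω Cs, ∀ i, |shf b e h x i| ≤ W) (hW2 : ∀ i, ∀ ω ∈ Ω, |h i + gam b (e i) ω| ≤ W)
    (hW3 : ∀ i, ∀ c ∈ Cs, |gam b (e i) c| ≤ W) (hWV : 4 * W ≤ V) (hW0 : 0 ≤ W) (l l' : Fin s × Bool) (hl : l ≠ l') :
    ∑ x ∈ PP s Ω Cs, ∑ c ∈ Cs, ∑ c' ∈ Cs, ψ (Hf b e h j x c c' l - Hf b e h j x c c' l') ≤
      A * ((PP s Ω Cs).card * Cs.card) := by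
  classical
  rcases Cs.eq_empty_or_nonempty with hE | hE
  · rw [hE]; simp
  have hC0 : (0 : ℝ) < Cs.card := by exact_mod_cast card_pos.2 hE
  by_cases h1 : l.1 = l'.1
  · -- the same index
    have h2 : l.2 ≠ l'.2 := fun h2 => hl (Prod.ext h1 h2)
    have h3 : ∀ x ∈ PP s Ω Cs, ∀ c ∈ Cs, ∑ c' ∈ Cs, ψ (Hf b e h j x c c' l - Hf b e h j x c c' l') ≤ A := by
      intro x _ c hc
      have h4 : ∀ c', ψ (Hf b e h j x c c' l - Hf b e h j x c c' l') = ψ (gam b (e j) c' + (- gam b (e j) c)) := by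
        intro c'
        unfold Hf
        rw [h1]
        cases hl2 : l.2 <;> cases hl2' : l'.2
        · exact absurd (hl2.trans hl2'.symm) h2
        · congr 1
          simp only [Bool.false_eq_true, if_false, if_true]
          ring
        · rw [← hψ]
          congr 1
          simp only [Bool.false_eq_true, if_false, if_true]
          ring
        · exact absurd (hl2.trans hl2'.symm) h2
      simp only [h4]
      apply hV
      rw [abs_neg]
      have := hW3 j c hc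
      linarith
    refine (sum_le_sum fun x hx => sum_le_sum fun c hc => h3 x hx c hc).trans (le_of_eq ?_)
    rw [sum_const, sum_const, nsmul_eq_mul, nsmul_eq_mul]
    ring
  · have key : ∀ l l' : Fin s × Bool, l.1 ≠ l'.1 → l.1 ≠ j →
        ∑ x ∈ PP s Ω Cs, ∑ c ∈ Cs, ∑ c' ∈ Cs, ψ (Hf b e h j x c c' l - Hf b e h j x c c' l') ≤
          A * ((PP s Ω Cs).card * Cs.card) := by
      intro l l' h1 h2
      have h3 : ∑ x ∈ PP s Ω Cs, ∑ c ∈ Cs, ∑ c' ∈ Cs, ψ (Hf b e h j x c c' l - Hf b e h j x c c' l') =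
          ∑ c ∈ Cs, ∑ c' ∈ Cs, ∑ x ∈ PP s Ω Cs, ψ (Hf b e h j x c c' l - Hf b e h j x c c' l') := by
        rw [sum_comm]
        apply sum_congr rfl
        intro c _
        rw [sum_comm]
      rw [h3]
      have h4 : ∀ c ∈ Cs, ∀ c' ∈ Cs, ∑ x ∈ PP s Ω Cs, ψ (Hf b e h j x c c' l - Hf b e h j x c c' l') ≤
          A * (PP s Ω Cs).card / Cs.card := by
        intro c hc c' hc'
        have h5 := avg1 b e h j Ω Cs ψ A V W hV hW1 hW2 hW3 hWV hW0 l l' h1 h2 c c' hc hc'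
        rw [le_div_iff₀ hC0]
        linarith
      refine (sum_le_sum fun c hc => sum_le_sum fun c' hc' => h4 c hc c' hc').trans (le_of_eq ?_)
      rw [sum_const, sum_const, nsmul_eq_mul, nsmul_eq_mul]
      field_simp
    by_cases h2 : l.1 = j
    · have h3 := key l' l (fun h3 => h1 h3.symm) (fun h3 => h1 (h2.trans h3.symm))
      refine le_trans (le_of_eq ?_) h3
      apply sum_congr rfl
      intro x _
      apply sum_congr rfl
      intro c _
      apply sum_congr rfl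
      intro c' _
      rw [← hψ]
      congr 1
      ring
    · exact key l l' h1 h2

end

end Pool.Agent.Y820.LT
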