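import Pool.Agent.Y820.LT.M2

set_option autoImplicit false

/-! The moments. -/

namespace Pool.Agent.Y820.LT
open Finset
open Pool.Agent.H373R2.T7 (lamI lamzI lamz Vz Vz_pos Vz_inv_small lamI_nonneg lamzI_nonneg singZ tupleCount Admissible)
open Pool.Agent.W93.HD (gg one_le_gg)
open Pool.Agent.W93.DG (hh logX)
open Pool.Agent.TH894.SM (dl Om Pos)

/-- the cut weight -/
noncomputable def wc (z Y : ℕ) (τ : Bool) (n : ℤ) : ℝ := if n ≤ Y then w z τ n else 0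

/-- the other factors -/
noncomputable def Fj {s t t' : ℕ} (b z Y N : ℕ) (e : Fin s → ℕ → ℤ) (h : Fin s → ℤ) (j : Fin s) (x : Fin s → Ch t t') (n : ℤ) : ℝ :=
  (if n ≤ N then w z true n else 0) * ∏ i ∈ univ.erase j, wc z Y (decide (j < i)) (n + shf b e h x i)

lemma w_nonneg (z : ℕ) (τ : Bool) (n : ℤ) : 0 ≤ w z τ n := by
  unfold w
  split_ifs
  · exact lamI_nonneg n
  · exact lamzI_nonneg z n

lemma wc_nonneg (z Y : ℕ) (τ : Bool) (n : ℤ) : 0 ≤ wc z Y τ n := by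
  unfold wc
  split_ifs
  · exact w_nonneg z τ n
  · exact le_rfl

lemma wc_le (z Y : ℕ) (τ : Bool) (n : ℤ) : wc z Y τ n ≤ w z τ n := by
  unfold wc
  split_ifs
  · exact le_rfl
  · exact w_nonneg z τ n

lemma w_zero (z : ℕ) (τ : Bool) (n : ℤ) (hn : n < 1) : w z τ n = 0 := by
  have h : ¬ (1 ≤ n) := by omega
  simp [w, lamI, lamzI, h]

lemma w_le (z Y : ℕ) (hY : 1 ≤ Y) (hV : (Vz z)⁻¹ ≤ Real.log Y) (τ : Bool) (n : ℤ) (hn : n ≤ Y) : w z τ n ≤ Real.log Y := by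
  have hL : 0 ≤ Real.log Y := (inv_pos.2 (Vz_pos z)).le.trans hV
  rcases lt_or_ge n 1 with h1 | h1
  · rw [w_zero z τ n h1]; exact hL
  unfold w lamI lamzI
  rw [if_pos h1, if_pos h1]
  split_ifs
  · refine ArithmeticFunction.vonMangoldt_le_log.trans ?_
    apply Real.log_le_log
    · exact_mod_cast (by omega : 0 < n.toNat)
    · exact_mod_cast (by omega : n.toNat ≤ Y)
  · unfold lamz
    split_ifs
    · exact hV
    · exact hL

lemma Fj_nonneg {s t t' : ℕ} (b z Y N : ℕ) (e : Fin s → ℕ → ℤ) (h : Fin s → ℤ) (j : Fin s) (x : Fin s → Ch t t') (n : ℤ) :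
    0 ≤ Fj b z Y N e h j x n := by
  unfold Fj
  apply mul_nonneg
  · split_ifs
    · exact w_nonneg _ _ _
    · exact le_rfl
  · exact prod_nonneg fun i _ => wc_nonneg _ _ _ _

lemma Fj_le {s t t' : ℕ} (b z Y N : ℕ) (hY : 1 ≤ Y) (hV : (Vz z)⁻¹ ≤ Real.log Y) (hN : N ≤ Y) (e : Fin s → ℕ → ℤ) (h : Fin s → ℤ)
    (j : Fin s) (x : Fin s → Ch t t') (n : ℤ) : Fj b z Y N e h j x n ≤ Real.log Y ^ s := by
  have hL : 0 ≤ Real.log Y := (inv_pos.2 (Vz_pos z)).le.trans hV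
  unfold Fj
  have h1 : (if n ≤ N then w z true n else 0) ≤ Real.log Y := by
    split_ifs with h2
    · exact w_le z Y hY hV _ _ (by omega)
    · exact hL
  have h2 : ∏ i ∈ univ.erase j, wc z Y (decide (j < i)) (n + shf b e h x i) ≤ Real.log Y ^ (s - 1) := by
    have h3 : ∏ i ∈ univ.erase j, wc z Y (decide (j < i)) (n + shf b e h x i) ≤ ∏ _i ∈ univ.erase j, Real.log Y := by
      apply prod_le_prod
      · intro i _; exact wc_nonneg _ _ _ _
      · intro i _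
        unfold wc
        split_ifs with h4
        · exact w_le z Y hY hV _ _ h4
        · exact hL
    rw [prod_const, card_erase_of_mem (mem_univ j), card_univ, Fintype.card_fin] at h3
    exact h3
  have hs : s = (s - 1) + 1 := by
    have := j.2
    omega
  calc _ ≤ Real.log Y * Real.log Y ^ (s - 1) :=
        mul_le_mul h1 h2 (prod_nonneg fun i _ => wc_nonneg _ _ _ _) hL
    _ = Real.log Y ^ s := by
        conv_rhs => rw [hs, pow_succ']

lemma Fj_supp {s t t' : ℕ} (b z Y N : ℕ) (e : Fin s → ℕ → ℤ) (h : Fin s → ℤ) (j : Fin s) (x : Fin s → Ch t t') (n : ℤ)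
    (hn : Fj b z Y N e h j x n ≠ 0) : 1 ≤ n ∧ n ≤ N := by
  unfold Fj at hn
  by_contra hcon
  apply hn
  rcases lt_or_ge n 1 with h1 | h1
  · rw [w_zero z true n h1, ite_self, zero_mul]
  · rw [if_neg (fun h2 => hcon ⟨h1, h2⟩), zero_mul]

/-- the kinds of the forms -/
def τf {s : ℕ} (j : Fin s) (l : Fin s × Bool) : Bool := if l.1 = j then true else decide (j < l.1)

lemma Fj_form {s t t' : ℕ} (b z Y N : ℕ) (e : Fin s → ℕ → ℤ) (h : Fin s → ℤ) (j : Fin s) (x : Fin s → Ch t t')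
    (c c' : Fin t' → ℕ) (n : ℤ) :
    Fj b z Y N e h j x (n - gam b (e j) c) * Fj b z Y N e h j x (n - gam b (e j) c') ≤
      ∏ l : Fin s × Bool, w z (τf j l) (n + Hf b e h j x c c' l) := by
  classical
  have key : ∀ (c₀ : Fin t' → ℕ), Fj b z Y N e h j x (n - gam b (e j) c₀) ≤
      ∏ i : Fin s, w z (if i = j then true else decide (j < i)) (n + ((if i = j then 0 else shf b e h x i) - gam b (e j) c₀)) := by
    intro c₀
    rw [← mul_prod_erase univ _ (mem_univ j)]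
    unfold Fj
    apply mul_le_mul
    · rw [if_pos rfl, if_pos rfl]
      have : n + (0 - gam b (e j) c₀) = n - gam b (e j) c₀ := by ring
      rw [this]
      split_ifs
      · exact le_rfl
      · exact w_nonneg _ _ _
    · apply prod_le_prod
      · intro i _; exact wc_nonneg _ _ _ _
      · intro i hi
        have hne := ne_of_mem_erase hi
        rw [if_neg hne, if_neg hne]
        have : n + (shf b e h x i - gam b (e j) c₀) = n - gam b (e j) c₀ + shf b e h x i := by ring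
        rw [this]
        exact wc_le _ _ _ _
    · exact prod_nonneg fun i _ => wc_nonneg _ _ _ _
    · exact w_nonneg _ _ _
  rw [Fintype.prod_prod_type]
  simp only [Fintype.prod_bool]
  rw [prod_mul_distrib]
  have h1 := key c'
  have h2 := key c
  rw [mul_comm]
  refine (mul_le_mul h1 h2 (Fj_nonneg _ _ _ _ _ _ _ _ _) (prod_nonneg fun i _ => w_nonneg _ _ _)).trans (le_of_eq ?_)
  rfl

lemma psi_even (f : ℕ → ℝ) (d : ℤ) : (if -d = 0 then (0 : ℝ) else f (-d).natAbs) = if d = 0 then 0 else f d.natAbs := by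
  by_cases h : d = 0
  · simp [h]
  · rw [if_neg (by omega), if_neg h, Int.natAbs_neg]

theorem mom (hSB : S_SB) (hR : S_R) (b : ℕ) (hb : 2 ≤ b) (s t' R' Ez : ℕ) (ht' : 4 * s + 1 ≤ t') :
    ∃ C : ℝ, 0 ≤ C ∧ ∀ t : ℕ, ∃ k₀ : ℕ, ∀ K : ℕ, k₀ ≤ K → ∀ z : ℕ, 2 ≤ z → (z : ℝ) ≤ Real.log ((b ^ K : ℕ) : ℝ) ^ Ez →
    ∀ e : Fin s → ℕ → ℤ, (∀ i j, e i j ≠ 0 ∧ |e i j| < b) → ∀ Ω : Finset (Fin 3 × Fin t → ℕ), (∀ ω ∈ Ω, ∀ c, ω c < K) →
    ∀ J' : Fin t' → Finset ℕ, Blk K R' J' → ∀ h : Fin s → ℤ, (∀ i, |h i| ≤ ((b ^ K : ℕ) : ℤ)) → ∀ N : ℕ, N ≤ b ^ K → ∀ j : Fin s,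
    ∑ x ∈ PP s Ω (Fintype.piFinset J'), ∑ c ∈ Fintype.piFinset J', ∑ c' ∈ Fintype.piFinset J',
      (∑ n ∈ Icc (-(((t' + 2 : ℕ) : ℤ) * ((b ^ K : ℕ) : ℤ))) (((t' + 2 : ℕ) : ℤ) * ((b ^ K : ℕ) : ℤ)),
        Fj b z (b ^ K) N e h j x (n - gam b (e j) c) * Fj b z (b ^ K) N e h j x (n - gam b (e j) c')) ^ 2 ≤
      C * ((b ^ K : ℕ) : ℝ) ^ 2 * ((PP s Ω (Fintype.piFinset J')).card * ((Fintype.piFinset J').card : ℝ) ^ 2) := by
  classical
  obtain ⟨C1, κ, Y₀, hC1, hsb⟩ := hSB (Fin s × Bool) (t' + 2) Ez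
  obtain ⟨S, hS⟩ : ∃ S : Finset ((Fin s × Bool) × (Fin s × Bool)), S = univ.filter (fun p => p.1 ≠ p.2) := ⟨_, rfl⟩
  obtain ⟨C2, hC2, hrom⟩ := gam_rom hR b hb (κ * 2 * S.card)
  obtain ⟨N1, hN1⟩ := Vz_inv_small Ez
  obtain ⟨C, hC⟩ : ∃ C : ℝ, C = S.card * (C1 ^ 2 * (C2 * R') + (3 * (t' + 2)) ^ 2 * ((b : ℝ) ^ (4 * s) * (R' : ℝ) ^ t')) := ⟨_, rfl⟩
  refine ⟨C, by rw [hC]; positivity, fun t => ?_⟩
  -- the sizes
  obtain ⟨W0, hW0⟩ : ∃ W0 : ℕ, W0 = 1 + 3 * t + t' := ⟨_, rfl⟩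
  refine ⟨Y₀ + N1 + 4 * W0 + 2 * t' + 8, fun K hK z hz2 hz e he Ω hΩ J' hJ' h hh' N hN j => ?_⟩
  obtain ⟨Y, hY⟩ : ∃ Y, Y = b ^ K := ⟨_, rfl⟩
  have hb1 : 1 < b := by omega
  have hKY : K < Y := by rw [hY]; exact Nat.lt_pow_self hb1
  rw [← hY] at hz hh' hN ⊢
  have hY0 : (0 : ℝ) < Y := by exact_mod_cast (by omega : 0 < Y)
  obtain ⟨Cs, hCs⟩ : ∃ Cs, Cs = Fintype.piFinset J' := ⟨_, rfl⟩
  rw [← hCs]
  have hL := hN1 Y (by omega) z (by omega) hz
  obtain ⟨L, hLd⟩ : ∃ L, L = Real.log (Y : ℝ) := ⟨_, rfl⟩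
  have hL0 : 0 ≤ L := by rw [hLd]; exact (inv_pos.2 (Vz_pos z)).le.trans hL
  obtain ⟨W, hW⟩ : ∃ W : ℤ, W = W0 * (Y : ℤ) := ⟨_, rfl⟩
  have hYz : (Y : ℤ) = (b : ℤ) ^ K := by rw [hY]; push_cast; ring
  have hYnn : (0 : ℤ) ≤ Y := Int.natCast_nonneg _
  have hgω : ∀ i, ∀ ω ∈ Ω, |gam b (e i) ω| ≤ (3 * t : ℕ) * (Y : ℤ) := by
    intro i ω hω
    have := gam_le b (e i) (he i) K (by omega) ω (hΩ ω hω)
    rw [Fintype.card_prod, Fintype.card_fin, Fintype.card_fin, ← hYz] at this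
    exact this
  have hgc : ∀ i, ∀ c ∈ Cs, |gam b (e i) c| ≤ (t' : ℕ) * (Y : ℤ) := by
    intro i c hc
    rw [hCs, Fintype.mem_piFinset] at hc
    have := gam_le b (e i) (he i) K (by omega) c (fun m => mem_range.1 (hJ'.sub m (hc m)))
    rw [Fintype.card_fin, ← hYz] at this
    exact this
  have hW1 : ∀ x ∈ PP s Ω Cs, ∀ i, |shf b e h x i| ≤ W := by
    intro x hx i
    unfold PP at hx
    rw [Fintype.mem_piFinset] at hx
    have h1 := mem_product.1 (hx i)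
    have h2 := hgω i _ h1.1
    have h3 := hgc i _ h1.2
    have h4 := hh' i
    unfold shf
    have h5 := abs_add_le (h i + gam b (e i) (x i).1) (gam b (e i) (x i).2)
    have h6 := abs_add_le (h i) (gam b (e i) (x i).1)
    rw [hW, hW0]
    push_cast at h2 h3 ⊢
    linarith
  have hW2 : ∀ i, ∀ ω ∈ Ω, |h i + gam b (e i) ω| ≤ W := by
    intro i ω hω
    have h2 := hgω i _ hω
    have h4 := hh' i
    have h6 := abs_add_le (h i) (gam b (e i) ω)
    rw [hW, hW0]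
    push_cast at h2 ⊢
    nlinarith
  have hW3 : ∀ i, ∀ c ∈ Cs, |gam b (e i) c| ≤ W := by
    intro i c hc
    have h3 := hgc i _ hc
    rw [hW, hW0]
    push_cast at h3 ⊢
    nlinarith
  have hWnn : 0 ≤ W := by rw [hW]; positivity
  obtain ⟨V, hV⟩ : ∃ V : ℤ, V = (b : ℤ) ^ (2 * K - 1) := ⟨_, rfl⟩
  have hbK : (4 * W0 : ℕ) ≤ b ^ (K - 1) := by
    have h1 : K - 1 < b ^ (K - 1) := Nat.lt_pow_self hb1
    omega
  have hWV : 4 * W ≤ V := by
    have h2 : ((4 * W0 : ℕ) : ℤ) ≤ (b : ℤ) ^ (K - 1) := by exact_mod_cast hbK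
    rw [hW, hV, hYz]
    calc 4 * ((W0 : ℤ) * (b : ℤ) ^ K) = ((4 * W0 : ℕ) : ℤ) * (b : ℤ) ^ K := by push_cast; ring
      _ ≤ (b : ℤ) ^ (K - 1) * (b : ℤ) ^ K := mul_le_mul_of_nonneg_right h2 (by positivity)
      _ = _ := by rw [← pow_add]; congr 1; omega
  -- the two functions
  obtain ⟨ψ1, hψ1⟩ : ∃ ψ1 : ℤ → ℝ, ψ1 = fun d => if d = 0 then 0 else gg d.natAbs ^ (κ * 2 * S.card) := ⟨_, rfl⟩
  obtain ⟨ψ0, hψ0⟩ : ∃ ψ0 : ℤ → ℝ, ψ0 = fun d => if d = 0 then 1 else 0 := ⟨_, rfl⟩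
  have hψ1e : ∀ d, ψ1 (-d) = ψ1 d := by
    intro d
    rw [hψ1]
    exact psi_even (fun n => gg n ^ (κ * 2 * S.card)) d
  have hψ0e : ∀ d, ψ0 (-d) = ψ0 d := by
    intro d
    rw [hψ0]
    simp only [neg_eq_zero]
  have hψ1nn : ∀ d, 0 ≤ ψ1 d := by
    intro d
    rw [hψ1]
    simp only
    split_ifs
    · exact le_rfl
    · exact pow_nonneg (zero_le_one.trans (one_le_gg _)) _
  have hψ0nn : ∀ d, 0 ≤ ψ0 d := by
    intro d
    rw [hψ0]
    simp only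
    split_ifs <;> norm_num
  have hs1 : 1 ≤ s := by have := j.2; omega
  have hV1 : ∀ i : Fin s, ∀ v : ℤ, |v| ≤ V → ∑ y ∈ Cs, ψ1 (gam b (e i) y + v) ≤ C2 * R' * Cs.card := by
    intro i v hv
    rw [hψ1, hCs]
    refine hrom t' (by omega) K (by omega) ?_ (e i) (he i) R' J' hJ' v (by rw [← hV]; exact hv)
    have : t' ≤ b ^ (K - 1) := by
      have h1 : K - 1 < b ^ (K - 1) := Nat.lt_pow_self hb1
      omega
    exact_mod_cast this
  have hV0 : ∀ i : Fin s, ∀ v : ℤ, |v| ≤ V → ∑ y ∈ Cs, ψ0 (gam b (e i) y + v) ≤ 1 := by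
    intro i v _
    rw [hψ0, hCs]
    exact gam_zero b hb (e i) (he i) J' hJ'.sep v
  -- pointwise bound
  have hpt : ∀ x ∈ PP s Ω Cs, ∀ c ∈ Cs, ∀ c' ∈ Cs,
      (∑ n ∈ Icc (-(((t' + 2 : ℕ) : ℤ) * (Y : ℤ))) (((t' + 2 : ℕ) : ℤ) * (Y : ℤ)),
        Fj b z Y N e h j x (n - gam b (e j) c) * Fj b z Y N e h j x (n - gam b (e j) c')) ^ 2 ≤
      C1 ^ 2 * Y ^ 2 * ∑ p ∈ S, ψ1 (Hf b e h j x c c' p.1 - Hf b e h j x c c' p.2) +
        (3 * (t' + 2)) ^ 2 * Y ^ 2 * L ^ (4 * s) * ∑ p ∈ S, ψ0 (Hf b e h j x c c' p.1 - Hf b e h j x c c' p.2) := by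
    intro x hx c hc c' hc'
    have hTnn : 0 ≤ ∑ n ∈ Icc (-(((t' + 2 : ℕ) : ℤ) * (Y : ℤ))) (((t' + 2 : ℕ) : ℤ) * (Y : ℤ)),
        Fj b z Y N e h j x (n - gam b (e j) c) * Fj b z Y N e h j x (n - gam b (e j) c') :=
      sum_nonneg fun n _ => mul_nonneg (Fj_nonneg _ _ _ _ _ _ _ _ _) (Fj_nonneg _ _ _ _ _ _ _ _ _)
    have hs0 : 0 ≤ ∑ p ∈ S, ψ0 (Hf b e h j x c c' p.1 - Hf b e h j x c c' p.2) := sum_nonneg fun p _ => hψ0nn _
    have hs1 : 0 ≤ ∑ p ∈ S, ψ1 (Hf b e h j x c c' p.1 - Hf b e h j x c c' p.2) := sum_nonneg fun p _ => hψ1nn _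
    by_cases hdis : ∀ l l' : Fin s × Bool, l ≠ l' → Hf b e h j x c c' l ≠ Hf b e h j x c c' l'
    · have h1 : ∑ n ∈ Icc (-(((t' + 2 : ℕ) : ℤ) * (Y : ℤ))) (((t' + 2 : ℕ) : ℤ) * (Y : ℤ)),
          Fj b z Y N e h j x (n - gam b (e j) c) * Fj b z Y N e h j x (n - gam b (e j) c') ≤
          C1 * Y * ∏ p ∈ S, gg (Hf b e h j x c c' p.1 - Hf b e h j x c c' p.2).natAbs ^ κ := by
        refine (sum_le_sum fun n _ => Fj_form b z Y N e h j x c c' n).trans ?_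
        refine (hsb Y (by omega) z hz2 hz (τf j) (Hf b e h j x c c') ?_ hdis).trans (le_of_eq ?_)
        · intro l
          have a1 : |Hf b e h j x c c' l| ≤ 2 * W := by
            unfold Hf
            have a4 : |if l.1 = j then (0 : ℤ) else shf b e h x l.1| ≤ W := by
              split_ifs
              · simpa using hWnn
              · exact hW1 x hx _
            have a5 : |gam b (e j) (if l.2 then c' else c)| ≤ W := by
              apply hW3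
              split_ifs
              · exact hc'
              · exact hc
            have := abs_sub (if l.1 = j then (0 : ℤ) else shf b e h x l.1) (gam b (e j) (if l.2 then c' else c))
            linarith
          refine a1.trans ?_
          have a2 : (2 * W0 : ℤ) ≤ Y := by exact_mod_cast (by omega : 2 * W0 ≤ Y)
          rw [hW, sq]
          calc 2 * ((W0 : ℤ) * Y) = (2 * W0) * Y := by ring
            _ ≤ Y * Y := mul_le_mul_of_nonneg_right a2 hYnn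
        · congr 1
          symm
          rw [hS, prod_filter]
          refine (Fintype.prod_prod_type _).trans ?_
          apply prod_congr rfl
          intro l _
          apply prod_congr rfl
          intro l' _
          simp only
          by_cases hll : l = l'
          · rw [if_pos hll, if_neg (by simpa using hll), one_pow]
          · rw [if_neg hll, if_pos hll]
      have h2 : (∏ p ∈ S, gg (Hf b e h j x c c' p.1 - Hf b e h j x c c' p.2).natAbs ^ κ) ^ 2 ≤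
          ∑ p ∈ S, ψ1 (Hf b e h j x c c' p.1 - Hf b e h j x c c' p.2) := by
        rw [← prod_pow]
        refine (prod_le_sum_pow S ⟨((j, false), (j, true)), by rw [hS, mem_filter]; simp⟩ _ (fun p _ => by
          have := one_le_gg (Hf b e h j x c c' p.1 - Hf b e h j x c c' p.2).natAbs
          positivity)).trans (le_of_eq ?_)
        apply sum_congr rfl
        intro p hp
        rw [hS, mem_filter] at hp
        rw [hψ1]
        simp only
        rw [if_neg (sub_ne_zero.2 (hdis _ _ hp.2)), ← pow_mul, ← pow_mul, mul_assoc]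
      have h3 := pow_le_pow_left₀ hTnn h1 2
      refine h3.trans ?_
      rw [mul_pow, mul_pow]
      have h4 : C1 ^ 2 * (Y : ℝ) ^ 2 * (∏ p ∈ S, gg (Hf b e h j x c c' p.1 - Hf b e h j x c c' p.2).natAbs ^ κ) ^ 2 ≤
          C1 ^ 2 * (Y : ℝ) ^ 2 * ∑ p ∈ S, ψ1 (Hf b e h j x c c' p.1 - Hf b e h j x c c' p.2) :=
        mul_le_mul_of_nonneg_left h2 (by positivity)
      have h5 : 0 ≤ (3 * ((t' : ℝ) + 2)) ^ 2 * (Y : ℝ) ^ 2 * L ^ (4 * s) * ∑ p ∈ S, ψ0 (Hf b e h j x c c' p.1 - Hf b e h j x c c' p.2) := by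
        positivity
      linarith
    · push Not at hdis
      obtain ⟨l, l', hll, hH⟩ := hdis
      have h1 : (1 : ℝ) ≤ ∑ p ∈ S, ψ0 (Hf b e h j x c c' p.1 - Hf b e h j x c c' p.2) := by
        refine le_trans (le_of_eq ?_) (single_le_sum (f := fun p => ψ0 (Hf b e h j x c c' p.1 - Hf b e h j x c c' p.2))
          (fun p _ => hψ0nn _) (show (l, l') ∈ S by rw [hS, mem_filter]; exact ⟨mem_univ _, hll⟩))
        rw [hψ0]
        simp only
        rw [if_pos (sub_eq_zero.2 hH)]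
      have h2 : ∑ n ∈ Icc (-(((t' + 2 : ℕ) : ℤ) * (Y : ℤ))) (((t' + 2 : ℕ) : ℤ) * (Y : ℤ)),
          Fj b z Y N e h j x (n - gam b (e j) c) * Fj b z Y N e h j x (n - gam b (e j) c') ≤ 3 * (t' + 2) * Y * (L ^ s * L ^ s) := by
        refine (sum_le_sum (g := fun _ => L ^ s * L ^ s) fun n _ => ?_).trans ?_
        · rw [hLd]
          exact mul_le_mul (Fj_le b z Y N (by omega) hL hN e h j x _) (Fj_le b z Y N (by omega) hL hN e h j x _)
            (Fj_nonneg _ _ _ _ _ _ _ _ _) (by rw [← hLd]; positivity)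
        · rw [sum_const, nsmul_eq_mul, Int.card_Icc]
          apply mul_le_mul_of_nonneg_right _ (by positivity)
          have h3 : ((((t' + 2 : ℕ) : ℤ) * (Y : ℤ) + 1 - -(((t' + 2 : ℕ) : ℤ) * (Y : ℤ))).toNat : ℤ) = 2 * ((t' + 2 : ℕ) : ℤ) * Y + 1 := by
            have h0 : (0 : ℤ) ≤ ((t' + 2 : ℕ) : ℤ) * (Y : ℤ) := by positivity
            rw [Int.toNat_of_nonneg (by linarith)]
            ring
          have h4 : ((((t' + 2 : ℕ) : ℤ) * (Y : ℤ) + 1 - -(((t' + 2 : ℕ) : ℤ) * (Y : ℤ))).toNat : ℝ) = 2 * ((t' : ℝ) + 2) * Y + 1 := by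
            have : ((((((t' + 2 : ℕ) : ℤ) * (Y : ℤ) + 1 - -(((t' + 2 : ℕ) : ℤ) * (Y : ℤ))).toNat : ℤ)) : ℝ) = ((2 * ((t' + 2 : ℕ) : ℤ) * Y + 1 : ℤ) : ℝ) := by
              rw [h3]
            push_cast at this ⊢
            exact this
          rw [h4]
          have h5 : (1 : ℝ) ≤ ((t' : ℝ) + 2) * Y := by
            have : (1 : ℝ) ≤ Y := by exact_mod_cast (by omega : 1 ≤ Y)
            nlinarith [Nat.cast_nonneg (α := ℝ) t']
          linarith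
      have h3 := pow_le_pow_left₀ hTnn h2 2
      refine h3.trans ?_
      have e1 : (3 * ((t' : ℝ) + 2) * Y * (L ^ s * L ^ s)) ^ 2 = (3 * (t' + 2)) ^ 2 * (Y : ℝ) ^ 2 * L ^ (4 * s) := by
        have : L ^ (4 * s) = (L ^ s * L ^ s) ^ 2 := by
          rw [← pow_add, ← pow_mul]
          congr 1
          ring
        rw [this]; ring
      rw [e1]
      have h5 : 0 ≤ C1 ^ 2 * (Y : ℝ) ^ 2 * ∑ p ∈ S, ψ1 (Hf b e h j x c c' p.1 - Hf b e h j x c c' p.2) := by positivity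
      have h6 : (3 * ((t' : ℝ) + 2)) ^ 2 * (Y : ℝ) ^ 2 * L ^ (4 * s) * 1 ≤ (3 * ((t' : ℝ) + 2)) ^ 2 * (Y : ℝ) ^ 2 * L ^ (4 * s) *
          ∑ p ∈ S, ψ0 (Hf b e h j x c c' p.1 - Hf b e h j x c c' p.2) := mul_le_mul_of_nonneg_left h1 (by positivity)
      linarith
  refine (sum_le_sum fun x hx => sum_le_sum fun c hc => sum_le_sum fun c' hc' => hpt x hx c hc c' hc').trans ?_
  have hsw : ∀ (a : ℝ) (ψ : ℤ → ℝ), ∑ x ∈ PP s Ω Cs, ∑ c ∈ Cs, ∑ c' ∈ Cs, a * ∑ p ∈ S, ψ (Hf b e h j x c c' p.1 - Hf b e h j x c c' p.2) =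
      a * ∑ p ∈ S, ∑ x ∈ PP s Ω Cs, ∑ c ∈ Cs, ∑ c' ∈ Cs, ψ (Hf b e h j x c c' p.1 - Hf b e h j x c c' p.2) := by
    intro a ψ
    simp only [← mul_sum]
    congr 1
    rw [sum_comm]
    conv_rhs => rw [sum_comm]
    conv_lhs => rw [sum_comm]
    apply sum_congr rfl
    intro x _
    conv_rhs => rw [sum_comm]
    apply sum_congr rfl
    intro c _
    rw [sum_comm]
  simp only [sum_add_distrib]
  rw [hsw, hsw]
  have hA : ∑ p ∈ S, ∑ x ∈ PP s Ω Cs, ∑ c ∈ Cs, ∑ c' ∈ Cs, ψ1 (Hf b e h j x c c' p.1 - Hf b e h j x c c' p.2) ≤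
      S.card * (C2 * R' * Cs.card * ((PP s Ω Cs).card * Cs.card)) := by
    rw [← nsmul_eq_mul, ← sum_const]
    apply sum_le_sum
    intro p hp
    rw [hS, mem_filter] at hp
    exact avg b e h j Ω Cs ψ1 _ V W hψ1e hV1 hW1 hW2 hW3 hWV hWnn p.1 p.2 hp.2
  have hB : ∑ p ∈ S, ∑ x ∈ PP s Ω Cs, ∑ c ∈ Cs, ∑ c' ∈ Cs, ψ0 (Hf b e h j x c c' p.1 - Hf b e h j x c c' p.2) ≤
      S.card * (1 * ((PP s Ω Cs).card * Cs.card)) := by
    rw [← nsmul_eq_mul, ← sum_const]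
    apply sum_le_sum
    intro p hp
    rw [hS, mem_filter] at hp
    exact avg b e h j Ω Cs ψ0 _ V W hψ0e hV0 hW1 hW2 hW3 hWV hWnn p.1 p.2 hp.2
  -- the number of choices
  have hcard : L ^ (4 * s) ≤ (b : ℝ) ^ (4 * s) * (R' : ℝ) ^ t' * Cs.card := by
    obtain ⟨_, hL2⟩ := logX b K hb
    rw [← hY, ← hLd] at hL2
    have hK1 : (1 : ℝ) ≤ K := by exact_mod_cast (by omega : 1 ≤ K)
    have h1 : (K : ℝ) ^ t' ≤ (R' : ℝ) ^ t' * Cs.card := by
      rw [hCs, Fintype.card_piFinset]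
      push_cast
      have h2 : (R' : ℝ) ^ t' * ∏ m : Fin t', ((J' m).card : ℝ) = ∏ m : Fin t', ((R' : ℝ) * (J' m).card) := by
        rw [prod_mul_distrib, prod_const, card_univ, Fintype.card_fin]
      rw [h2]
      calc (K : ℝ) ^ t' = ∏ _m : Fin t', (K : ℝ) := by rw [prod_const, card_univ, Fintype.card_fin]
        _ ≤ _ := by
            apply prod_le_prod
            · intro m _; positivity
            · intro m _
              exact_mod_cast hJ'.card m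
    calc L ^ (4 * s) ≤ (b * K) ^ (4 * s) := pow_le_pow_left₀ hL0 hL2 _
      _ = (b : ℝ) ^ (4 * s) * (K : ℝ) ^ (4 * s) := by rw [mul_pow]
      _ ≤ (b : ℝ) ^ (4 * s) * (K : ℝ) ^ t' := by
          apply mul_le_mul_of_nonneg_left _ (by positivity)
          exact pow_le_pow_right₀ hK1 (by omega)
      _ ≤ (b : ℝ) ^ (4 * s) * ((R' : ℝ) ^ t' * Cs.card) := mul_le_mul_of_nonneg_left h1 (by positivity)
      _ = _ := by ring
  have hA' := mul_le_mul_of_nonneg_left hA (show (0 : ℝ) ≤ C1 ^ 2 * Y ^ 2 by positivity)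
  have hB' := mul_le_mul_of_nonneg_left hB (show (0 : ℝ) ≤ (3 * (t' + 2)) ^ 2 * Y ^ 2 * L ^ (4 * s) by positivity)
  refine (add_le_add hA' hB').trans ?_
  have hB'' : (3 * ((t' : ℝ) + 2)) ^ 2 * Y ^ 2 * L ^ (4 * s) * (S.card * (1 * ((PP s Ω Cs).card * Cs.card))) ≤
      (3 * ((t' : ℝ) + 2)) ^ 2 * Y ^ 2 * ((b : ℝ) ^ (4 * s) * (R' : ℝ) ^ t' * Cs.card) * (S.card * (1 * ((PP s Ω Cs).card * Cs.card))) := by
    apply mul_le_mul_of_nonneg_right _ (by positivity)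
    exact mul_le_mul_of_nonneg_left hcard (by positivity)
  refine (add_le_add le_rfl hB'').trans (le_of_eq ?_)
  rw [hC]
  ring

end Pool.Agent.Y820.LT
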