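import Pool.Agent.Y820.LT.M3

set_option autoImplicit false

/-! The averaged bound for the terms of the telescoping sum. -/

namespace Pool.Agent.Y820.LT
open Finset
open Pool.Agent.H373R2.T7 (lamI lamzI lamz Vz Vz_pos Vz_inv_small lamI_nonneg lamzI_nonneg singZ tupleCount Admissible)
open Pool.Agent.W93.HD (gg one_le_gg)
open Pool.Agent.W93.DG (hh logX hh_small)
open Pool.Agent.TH894.SM (dl Om Pos)

lemma shift_sum (g : ℤ → ℝ) (p q p' q' v : ℤ) (h1 : ∀ n, g n ≠ 0 → p' ≤ n ∧ n ≤ q') (h2 : ∀ n, g n ≠ 0 → p + v ≤ n ∧ n ≤ q + v) :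
    ∑ n ∈ Icc p q, g (n + v) = ∑ n ∈ Icc p' q', g n := by
  refine sum_bij_ne_zero (fun n _ _ => n + v) ?_ ?_ ?_ ?_
  · intro n _ hn
    rw [mem_Icc]
    exact h1 _ hn
  · intro n _ _ n' _ _ hnn
    linarith
  · intro n _ hn
    refine ⟨n - v, ?_, ?_, ?_⟩
    · rw [mem_Icc]
      have := h2 n hn
      constructor <;> linarith [this.1, this.2]
    · rw [sub_add_cancel]; exact hn
    · rw [sub_add_cancel]
  · intro n _ _
    rfl

lemma Gc_supp (z Y : ℕ) (m : ℤ) (h : Gc z Y m ≠ 0) : 1 ≤ m ∧ m ≤ Y := by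
  unfold Gc at h
  by_contra hcon
  apply h
  by_cases h1 : m ≤ Y
  · rw [if_pos h1]
    have h2 : m < 1 := by
      by_contra h3
      exact hcon ⟨by omega, h1⟩
    have h3 := w_zero z true m h2
    have h4 := w_zero z false m h2
    unfold w at h3 h4
    simp only [if_true, Bool.false_eq_true, if_false] at h3 h4
    rw [h3, h4, sub_zero]
  · rw [if_neg h1]

/-- the terms of the telescoping sum -/
noncomputable def DD {s t t' : ℕ} (b z Y N : ℕ) (e : Fin s → ℕ → ℤ) (h : Fin s → ℤ) (j : Fin s) (x : Fin s → Ch t t') : ℝ :=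
  ∑ n ∈ Icc (1 : ℤ) N, Fj b z Y N e h j x n * Gc z Y (n + shf b e h x j)

lemma Fj_upd {s t t' : ℕ} (b z Y N : ℕ) (e : Fin s → ℕ → ℤ) (h : Fin s → ℤ) (j : Fin s) (x : Fin s → Ch t t') (y : Ch t t') (n : ℤ) :
    Fj b z Y N e h j (Function.update x j y) n = Fj b z Y N e h j x n := by
  unfold Fj
  congr 1
  apply prod_congr rfl
  intro i hi
  rw [shf_upd_ne _ _ _ _ _ _ (ne_of_mem_erase hi)]

lemma DD_upd {s t t' : ℕ} (b z Y N : ℕ) (e : Fin s → ℕ → ℤ) (h : Fin s → ℤ) (j : Fin s) (x : Fin s → Ch t t')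
    (ω : Fin 3 × Fin t → ℕ) (c : Fin t' → ℕ) (I : ℤ) (hI : |gam b (e j) c| + N ≤ I) :
    DD b z Y N e h j (Function.update x j (ω, c)) =
      ∑ n ∈ Icc (-I) I, Fj b z Y N e h j x (n - gam b (e j) c) * Gc z Y (n + (h j + gam b (e j) ω)) := by
  unfold DD
  symm
  have hv := abs_le.1 (show |gam b (e j) c| ≤ I - N by linarith)
  have hN : (0 : ℤ) ≤ N := Int.natCast_nonneg _
  have h1 := shift_sum (fun n => Fj b z Y N e h j x n * Gc z Y (n + (h j + gam b (e j) ω) + gam b (e j) c)) (-I) I 1 N (-gam b (e j) c) ?_ ?_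
  · refine Eq.trans ?_ (h1.trans ?_)
    · apply sum_congr rfl
      intro n _
      congr 2
      ring
    · apply sum_congr rfl
      intro n _
      rw [Fj_upd, shf_upd]
      congr 2
      ring
  · intro n hn
    exact Fj_supp b z Y N e h j x n (left_ne_zero_of_mul hn)
  · intro n hn
    have := Fj_supp b z Y N e h j x n (left_ne_zero_of_mul hn)
    constructor
    · linarith [this.1, this.2]
    · linarith [this.1, this.2]

lemma PC_eq {t : ℕ} (b z Y : ℕ) (e : ℕ → ℤ) (h : ℤ) (ω ω' : Fin 3 × Fin t → ℕ) (I : ℤ) (hI : |h + gam b e ω| + Y ≤ I) :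
    ∑ n ∈ Icc (-I) I, Gc z Y (n + (h + gam b e ω)) * Gc z Y (n + (h + gam b e ω')) =
      PC z Y (∑ c, dl b e (ω' c) - ∑ c, dl b e (ω c)) := by
  unfold PC
  have hv := abs_le.1 (show |h + gam b e ω| ≤ I - Y by linarith)
  have hN : (0 : ℤ) ≤ Y := Int.natCast_nonneg _
  have h1 := shift_sum (fun m => Gc z Y m * Gc z Y (m + (∑ c, dl b e (ω' c) - ∑ c, dl b e (ω c)))) (-I) I 1 Y (h + gam b e ω) ?_ ?_
  · rw [← h1]
    apply sum_congr rfl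
    intro n _
    congr 2
    unfold gam
    ring
  · intro m hm
    exact Gc_supp z Y m (left_ne_zero_of_mul hm)
  · intro m hm
    have := Gc_supp z Y m (left_ne_zero_of_mul hm)
    constructor
    · linarith [this.1, this.2]
    · linarith [this.1, this.2]

theorem avgD (hSB : S_SB) (hR : S_R) (hP : S_P) (b : ℕ) (hb : 2 ≤ b) : ∃ R A B : ℕ, 1 ≤ R ∧ 3 ≤ A ∧
    ∀ s t' R' Ez : ℕ, 4 * s + 1 ≤ t' → ∀ δ : ℝ, 0 < δ → ∃ t₀ : ℕ, ∀ t : ℕ, t₀ ≤ t →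
    ∃ k₀ : ℕ, ∀ K : ℕ, k₀ ≤ K → ∀ z : ℕ, 2 ≤ z →
    Real.log ((b ^ K : ℕ) : ℝ) ^ B ≤ z → (z : ℝ) ≤ Real.log ((b ^ K : ℕ) : ℝ) ^ Ez →
    ∀ e : Fin s → ℕ → ℤ, (∀ i j, e i j ≠ 0 ∧ |e i j| < b) → ∀ J : Fin 3 → Finset ℕ, Pos b R K (hh b A K) J →
    ∀ J' : Fin t' → Finset ℕ, Blk K R' J' → ∀ h : Fin s → ℤ, (∀ i, |h i| ≤ ((b ^ K : ℕ) : ℤ)) → ∀ N : ℕ, N ≤ b ^ K → ∀ j : Fin s,
    ∑ x ∈ PP s (Om J t) (Fintype.piFinset J'), DD b z (b ^ K) N e h j x ^ 2 ≤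
      δ * ((b ^ K : ℕ) : ℝ) ^ 2 * (PP s (Om J t) (Fintype.piFinset J')).card := by
  classical
  obtain ⟨R, A, B, hR1, hA, hPc⟩ := hP b hb
  refine ⟨R, A, B, hR1, hA, fun s t' R' Ez ht' δ hδ => ?_⟩
  obtain ⟨C, hC, hmom⟩ := mom hSB hR b hb s t' R' Ez ht'
  obtain ⟨δ', hδ'⟩ : ∃ δ' : ℝ, δ' = δ ^ 2 / (C + 1) := ⟨_, rfl⟩
  have hδ'0 : 0 < δ' := by rw [hδ']; positivity
  obtain ⟨t₀, ht₀⟩ := hPc δ' hδ'0
  refine ⟨t₀, fun t ht => ?_⟩
  obtain ⟨k1, hk1⟩ := hmom t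
  obtain ⟨k2, hk2⟩ := ht₀ t ht Ez
  obtain ⟨k3, hk3⟩ := hh_small b A 4 hb
  refine ⟨k1 + k2 + k3 + 8, fun K hK z hz2 hzB hzE e he J hJ J' hJ' h hh' N hN j => ?_⟩
  have hm := hk1 K (by omega) z hz2 hzE e he (Om J t) ?_ J' hJ' h hh' N hN j
  swap
  · intro ω hω c
    have h4 := hk3 K (by omega)
    unfold Om at hω
    rw [Fintype.mem_piFinset] at hω
    have h5 := hω c
    obtain ⟨q, cc⟩ := c
    simp only at h5
    fin_cases q
    · have := mem_Ico.1 (hJ.s0 h5)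
      simp only at this ⊢
      omega
    · have := mem_Ico.1 (hJ.s1 h5)
      simp only at this ⊢
      omega
    · have := mem_Ico.1 (hJ.s2 h5)
      simp only at this ⊢
      omega
  have hp := hk2 K (by omega) z hzB hzE (e j) (he j) J hJ
  obtain ⟨Y, hY⟩ : ∃ Y, Y = b ^ K := ⟨_, rfl⟩
  rw [← hY] at hm hp hh' hN ⊢
  obtain ⟨Ω, hΩ⟩ : ∃ Ω, Ω = Om J t := ⟨_, rfl⟩
  obtain ⟨Cs, hCs⟩ : ∃ Cs, Cs = Fintype.piFinset J' := ⟨_, rfl⟩
  rw [← hΩ] at hm hp ⊢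
  rw [← hCs] at hm ⊢
  -- the average over the coordinate
  have hup := upd_sum (fun _ : Fin s => Ω ×ˢ Cs) j (fun x => DD b z Y N e h j x ^ 2)
  obtain ⟨I, hI⟩ : ∃ I : ℤ, (∀ ω ∈ Ω, |h j + gam b (e j) ω| + Y ≤ I) ∧ (∀ c ∈ Cs, |gam b (e j) c| + N ≤ I) ∧
      ((t' + 2 : ℕ) : ℤ) * (Y : ℤ) ≤ I := by
    refine ⟨∑ ω ∈ Ω, (|h j + gam b (e j) ω| + Y) + ∑ c ∈ Cs, (|gam b (e j) c| + N) + ((t' + 2 : ℕ) : ℤ) * (Y : ℤ), ?_, ?_, ?_⟩
    · intro ω hω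
      have h1 := single_le_sum (f := fun ω => |h j + gam b (e j) ω| + (Y : ℤ)) (fun ω _ => by positivity) hω
      have h2 : 0 ≤ ∑ c ∈ Cs, (|gam b (e j) c| + (N : ℤ)) := sum_nonneg fun c _ => by positivity
      have h3 : (0 : ℤ) ≤ ((t' + 2 : ℕ) : ℤ) * (Y : ℤ) := by positivity
      linarith
    · intro c hc
      have h1 := single_le_sum (f := fun c => |gam b (e j) c| + (N : ℤ)) (fun c _ => by positivity) hc
      have h2 : 0 ≤ ∑ ω ∈ Ω, (|h j + gam b (e j) ω| + (Y : ℤ)) := sum_nonneg fun ω _ => by positivity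
      have h3 : (0 : ℤ) ≤ ((t' + 2 : ℕ) : ℤ) * (Y : ℤ) := by positivity
      linarith
    · have h1 : 0 ≤ ∑ c ∈ Cs, (|gam b (e j) c| + (N : ℤ)) := sum_nonneg fun c _ => by positivity
      have h2 : 0 ≤ ∑ ω ∈ Ω, (|h j + gam b (e j) ω| + (Y : ℤ)) := sum_nonneg fun ω _ => by positivity
      linarith
  obtain ⟨hI1, hI2, hI3⟩ := hI
  -- the inequality of Cauchy and Schwarz for fixed other coordinates
  obtain ⟨Mx, hMx⟩ : ∃ Mx : (Fin s → Ch t t') → ℝ, Mx = fun x => ∑ c ∈ Cs, ∑ c' ∈ Cs,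
      (∑ n ∈ Icc (-(((t' + 2 : ℕ) : ℤ) * (Y : ℤ))) (((t' + 2 : ℕ) : ℤ) * (Y : ℤ)),
        Fj b z Y N e h j x (n - gam b (e j) c) * Fj b z Y N e h j x (n - gam b (e j) c')) ^ 2 := ⟨_, rfl⟩
  obtain ⟨P, hPd⟩ : ∃ P : ℝ, P = ∑ ω ∈ Ω, ∑ ω' ∈ Ω, PC z Y (∑ c, dl b (e j) (ω' c) - ∑ c, dl b (e j) (ω c)) ^ 2 := ⟨_, rfl⟩
  rw [← hPd] at hp
  have hP0 : 0 ≤ P := by rw [hPd]; exact sum_nonneg fun ω _ => sum_nonneg fun ω' _ => sq_nonneg _
  have hfix : ∀ x ∈ PP s Ω Cs, (∑ y ∈ Ω ×ˢ Cs, DD b z Y N e h j (Function.update x j y) ^ 2) ^ 2 ≤ Mx x * P := by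
    intro x hx
    rw [sum_product]
    have h1 : ∑ ω ∈ Ω, ∑ c ∈ Cs, DD b z Y N e h j (Function.update x j (ω, c)) ^ 2 =
        ∑ ω ∈ Ω, ∑ c ∈ Cs, (∑ n ∈ Icc (-I) I, Fj b z Y N e h j x (n - gam b (e j) c) * Gc z Y (n + (h j + gam b (e j) ω))) ^ 2 := by
      apply sum_congr rfl
      intro ω _
      apply sum_congr rfl
      intro c hc
      rw [DD_upd b z Y N e h j x ω c I (hI2 c hc)]
    rw [h1]
    refine (gram (Icc (-I) I) Ω Cs (fun c n => Fj b z Y N e h j x (n - gam b (e j) c))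
      (fun ω n => Gc z Y (n + (h j + gam b (e j) ω)))).trans (le_of_eq ?_)
    congr 1
    · rw [hMx]
      apply sum_congr rfl
      intro c hc
      apply sum_congr rfl
      intro c' _
      congr 1
      have h2 := shift_sum (fun n => Fj b z Y N e h j x (n - gam b (e j) c) * Fj b z Y N e h j x (n - gam b (e j) c'))
        (-I) I (-(((t' + 2 : ℕ) : ℤ) * (Y : ℤ))) (((t' + 2 : ℕ) : ℤ) * (Y : ℤ)) 0 ?_ ?_
      · simpa only [add_zero] using h2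
      · intro n hn
        have h3 := Fj_supp b z Y N e h j x _ (left_ne_zero_of_mul hn)
        have h4 : |gam b (e j) c| ≤ (t' : ℤ) * Y := by
          rw [hCs, Fintype.mem_piFinset] at hc
          have := gam_le b (e j) (he j) K (by omega) c (fun m => mem_range.1 (hJ'.sub m (hc m)))
          rw [Fintype.card_fin] at this
          rw [hY]
          push_cast
          exact this
        have h5 := abs_le.1 h4
        have h6 : (N : ℤ) ≤ Y := by exact_mod_cast hN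
        have h7 : (0 : ℤ) ≤ Y := Int.natCast_nonneg _
        push_cast
        constructor
        · linarith [h3.1, h3.2, h5.1, h5.2]
        · linarith [h3.1, h3.2, h5.1, h5.2]
      · intro n hn
        have h3 := Fj_supp b z Y N e h j x _ (left_ne_zero_of_mul hn)
        have h4 := abs_le.1 (show |gam b (e j) c| ≤ I - N by linarith [hI2 c hc])
        have h5 : (0 : ℤ) ≤ N := Int.natCast_nonneg _
        constructor
        · linarith [h3.1, h3.2, h4.1, h4.2]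
        · linarith [h3.1, h3.2, h4.1, h4.2]
    · rw [hPd]
      apply sum_congr rfl
      intro ω hω
      apply sum_congr rfl
      intro ω' _
      rw [PC_eq b z Y (e j) (h j) ω ω' I (hI1 ω hω)]
  -- the sum over the other coordinates
  have hMsum : ∑ x ∈ PP s Ω Cs, Mx x ≤ C * (Y : ℝ) ^ 2 * ((PP s Ω Cs).card * (Cs.card : ℝ) ^ 2) := by
    rw [hMx]; exact hm
  obtain ⟨TT, hTT⟩ : ∃ TT : (Fin s → Ch t t') → ℝ, TT = fun x => ∑ y ∈ Ω ×ˢ Cs, DD b z Y N e h j (Function.update x j y) ^ 2 := ⟨_, rfl⟩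
  have hcs : (∑ x ∈ PP s Ω Cs, TT x) ^ 2 ≤ (PP s Ω Cs).card * ∑ x ∈ PP s Ω Cs, TT x ^ 2 := sq_sum_le_card_mul_sum_sq
  have hsum2 : ∑ x ∈ PP s Ω Cs, TT x ^ 2 ≤ C * (Y : ℝ) ^ 2 * ((PP s Ω Cs).card * (Cs.card : ℝ) ^ 2) * (δ' * (Y : ℝ) ^ 2 * (Ω.card : ℝ) ^ 2) := by
    calc ∑ x ∈ PP s Ω Cs, TT x ^ 2 ≤ ∑ x ∈ PP s Ω Cs, Mx x * P := sum_le_sum fun x hx => by rw [hTT]; exact hfix x hx
      _ = (∑ x ∈ PP s Ω Cs, Mx x) * P := by rw [sum_mul]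
      _ ≤ _ := mul_le_mul hMsum hp hP0 (by positivity)
  have hTeq : ∑ x ∈ PP s Ω Cs, TT x = (Ω.card * Cs.card : ℝ) * ∑ x ∈ PP s Ω Cs, DD b z Y N e h j x ^ 2 := by
    rw [hTT]
    unfold PP
    rw [hup, card_product, Nat.cast_mul]
  rcases (PP s Ω Cs).eq_empty_or_nonempty with hE | hE
  · rw [hE]; simp
  have hΩ0 : (0 : ℝ) < Ω.card := by
    rw [Nat.cast_pos, card_pos]
    obtain ⟨x, hx⟩ := hE
    unfold PP at hx
    rw [Fintype.mem_piFinset] at hx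
    exact ⟨_, (mem_product.1 (hx j)).1⟩
  have hC0 : (0 : ℝ) < Cs.card := by
    rw [Nat.cast_pos, card_pos]
    obtain ⟨x, hx⟩ := hE
    unfold PP at hx
    rw [Fintype.mem_piFinset] at hx
    exact ⟨_, (mem_product.1 (hx j)).2⟩
  obtain ⟨D, hD⟩ : ∃ D, D = ∑ x ∈ PP s Ω Cs, DD b z Y N e h j x ^ 2 := ⟨_, rfl⟩
  rw [← hD] at hTeq ⊢
  have hD0 : 0 ≤ D := by rw [hD]; exact sum_nonneg fun x _ => sq_nonneg _
  rw [hTeq] at hcs
  have hfin : D ^ 2 ≤ (δ * (Y : ℝ) ^ 2 * (PP s Ω Cs).card) ^ 2 := by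
    have h1 := hcs.trans (mul_le_mul_of_nonneg_left hsum2 (Nat.cast_nonneg _))
    have h2 : C * δ' ≤ δ ^ 2 := by
      rw [hδ', ← mul_div_assoc, div_le_iff₀ (by positivity)]
      nlinarith [sq_nonneg δ]
    have h3 : ((Ω.card : ℝ) * Cs.card) ^ 2 * D ^ 2 ≤ ((Ω.card : ℝ) * Cs.card) ^ 2 * (δ * (Y : ℝ) ^ 2 * (PP s Ω Cs).card) ^ 2 := by
      calc ((Ω.card : ℝ) * Cs.card) ^ 2 * D ^ 2 = ((Ω.card : ℝ) * Cs.card * D) ^ 2 := by ring
        _ ≤ _ := h1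
        _ = (C * δ') * (((Ω.card : ℝ) * Cs.card) ^ 2 * ((Y : ℝ) ^ 2 * (PP s Ω Cs).card) ^ 2) := by ring
        _ ≤ δ ^ 2 * (((Ω.card : ℝ) * Cs.card) ^ 2 * ((Y : ℝ) ^ 2 * (PP s Ω Cs).card) ^ 2) :=
            mul_le_mul_of_nonneg_right h2 (by positivity)
        _ = _ := by ring
    exact le_of_mul_le_mul_left h3 (by positivity)
  exact (abs_le_of_sq_le_sq' hfin (by positivity)).2

end Pool.Agent.Y820.LT
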