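import Pool.Agent.Y820.LT.M1

set_option autoImplicit false

/-! The sets of positions; residues and admissibility. -/

namespace Pool.Agent.Y820.LT
open Finset
open Pool.Agent.H373R2.T7 (Admissible)
open Pool.Agent.W93.DG (hh hh_small)
open Pool.Agent.TH894.SM (dl Om Pos)

lemma hh_large (b A : ℕ) (hb : 2 ≤ b) (hA : 1 ≤ A) (n : ℕ) : ∃ k₀ : ℕ, ∀ K : ℕ, k₀ ≤ K → n ≤ hh b A K := by
  refine ⟨b ^ n, fun K hK => ?_⟩
  unfold hh
  have h1 : n ≤ Nat.log b K := Nat.le_log_of_pow_le (by omega) hK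
  calc n ≤ Nat.log b K + 1 := by omega
    _ = 1 * (Nat.log b K + 1) := (one_mul _).symm
    _ ≤ 2 * A * (Nat.log b K + 1) := Nat.mul_le_mul_right _ (by omega)

/-- the sets of positions exist -/
theorem blocks (b : ℕ) (hb : 2 ≤ b) (R A t' P₀ : ℕ) (hR : 1 ≤ R) (hA : 1 ≤ A) (hP : 1 ≤ P₀) : ∃ R' : ℕ, 1 ≤ R' ∧
    ∀ n : ℕ, ∃ k₀ : ℕ, ∀ K : ℕ, k₀ ≤ K →
    ∃ (J : Fin 3 → Finset ℕ) (J' : Fin t' → Finset ℕ), Pos b R K (hh b A K) J ∧ Blk K R' J' ∧
      (∀ q, J q ⊆ Ico P₀ (K - 1)) ∧ (∀ m, J' m ⊆ Ico P₀ (K - 1)) ∧ (∀ q m, Disjoint (J q) (J' m)) ∧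
      (∀ q q', q ≠ q' → Disjoint (J q) (J q')) ∧ (∀ q, n ≤ (J q).card) := by
  obtain ⟨R', hR'⟩ : ∃ R', R' = 32 * R * (t' + 1) := ⟨_, rfl⟩
  have hR'1 : 1 ≤ R' := by
    rw [hR']
    exact Nat.one_le_iff_ne_zero.2 (by positivity)
  refine ⟨R', hR'1, fun n => ?_⟩
  obtain ⟨k1, hk1⟩ := hh_small b A 4 hb
  obtain ⟨k2, hk2⟩ := hh_large b A hb hA (8 * R * P₀ + n + P₀)
  refine ⟨k1 + k2 + 8 * (24 * R * t') + 8 * n + 32, fun K hK => ?_⟩
  have h4 := hk1 K (by omega)
  have hl := hk2 K (by omega)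
  obtain ⟨h, hh'⟩ : ∃ h, h = hh b A K := ⟨_, rfl⟩
  rw [← hh'] at h4 hl ⊢
  obtain ⟨w, hw⟩ : ∃ w, w = K / R' + 1 := ⟨_, rfl⟩
  have hwK : K ≤ R' * w := by
    rw [hw, mul_add, mul_one]
    have := Nat.div_add_mod K R'
    have := Nat.mod_lt K hR'1
    omega
  -- the total length of the blocks
  have htot : 8 * R * (t' * (w + 2)) + 2 + 2 * h + n ≤ K := by
    have e1 : 8 * R * (t' * (w + 2)) = 8 * R * t' * (K / R') + 24 * R * t' := by rw [hw]; ring
    have e2 : 4 * (8 * R * t' * (K / R')) ≤ K := by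
      calc 4 * (8 * R * t' * (K / R')) = 32 * R * t' * (K / R') := by ring
        _ ≤ R' * (K / R') := by
            apply Nat.mul_le_mul_right
            rw [hR']
            exact Nat.mul_le_mul_left _ (by omega)
        _ ≤ K := Nat.mul_div_le K R'
    omega
  have hRt : t' * (w + 2) ≤ 8 * R * (t' * (w + 2)) := by
    calc t' * (w + 2) = 1 * (t' * (w + 2)) := (one_mul _).symm
      _ ≤ _ := Nat.mul_le_mul_right _ (by omega)
  have hP8 : P₀ ≤ 8 * R * P₀ := by
    calc P₀ = 1 * P₀ := (one_mul _).symm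
      _ ≤ _ := Nat.mul_le_mul_right _ (by omega)
  have hblk : ∀ m : Fin t', m.val * (w + 2) + w ≤ t' * (w + 2) := by
    intro m
    have := m.2
    calc m.val * (w + 2) + w ≤ m.val * (w + 2) + (w + 2) := by omega
      _ = (m.val + 1) * (w + 2) := by ring
      _ ≤ t' * (w + 2) := Nat.mul_le_mul_right _ (by omega)
  refine ⟨fun q => if q = 0 then Ico P₀ (1 + h) else if q = 1 then Ico (1 + h + t' * (w + 2)) (K - 1 - h) else Ico (K - 1 - h) (K - 1),
    fun m => Ico (1 + h + m.val * (w + 2)) (1 + h + m.val * (w + 2) + w), ?_, ?_, ?_, ?_, ?_, ?_, ?_⟩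
  · refine ⟨?_, ?_, ?_, ?_, ?_, ?_⟩
    · intro x hx
      simp only [if_true] at hx
      rw [mem_Ico] at hx ⊢
      omega
    · intro x hx
      simp only [one_ne_zero, if_false, if_true] at hx
      rw [mem_Ico] at hx ⊢
      omega
    · intro x hx
      have e1 : (2 : Fin 3) ≠ 0 := by decide
      have e2 : (2 : Fin 3) ≠ 1 := by decide
      simp only [e1, e2, if_false] at hx
      exact hx
    · simp only [if_true]
      have : (Ico 1 (1 + h) \ Ico P₀ (1 + h)).card ≤ P₀ := by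
        refine (card_le_card (t := range P₀) ?_).trans (by rw [card_range])
        intro x hx
        rw [mem_sdiff, mem_Ico, mem_Ico] at hx
        rw [mem_range]
        omega
      calc 8 * R * _ ≤ 8 * R * P₀ := Nat.mul_le_mul_left _ this
        _ ≤ h := by omega
    · simp only [one_ne_zero, if_false, if_true]
      have : (Ico (1 + h) (K - 1 - h) \ Ico (1 + h + t' * (w + 2)) (K - 1 - h)).card ≤ t' * (w + 2) := by
        refine (card_le_card (t := Ico (1 + h) (1 + h + t' * (w + 2))) ?_).trans (by rw [Nat.card_Ico]; omega)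
        intro x hx
        rw [mem_sdiff, mem_Ico, mem_Ico] at hx
        rw [mem_Ico]
        omega
      calc 8 * R * _ ≤ 8 * R * (t' * (w + 2)) := Nat.mul_le_mul_left _ this
        _ ≤ K - 2 - 2 * h := by omega
    · have e1 : (2 : Fin 3) ≠ 0 := by decide
      have e2 : (2 : Fin 3) ≠ 1 := by decide
      simp only [e1, e2, if_false, sdiff_self, bot_eq_empty, card_empty, mul_zero, Nat.zero_le]
  · refine ⟨?_, ?_, ?_⟩
    · intro m x hx
      have := hblk m
      rw [mem_Ico] at hx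
      rw [mem_range]
      omega
    · intro m
      simp only [Nat.card_Ico, add_tsub_cancel_left]
      exact hwK
    · intro m m' hmm j hj j' hj'
      rw [mem_Ico] at hj hj'
      have h5 : (m.val + 1) * (w + 2) ≤ m'.val * (w + 2) := Nat.mul_le_mul_right _ (by exact hmm)
      have h6 : (m.val + 1) * (w + 2) = m.val * (w + 2) + w + 2 := by ring
      omega
  · intro q x hx
    simp only at hx
    split_ifs at hx <;> rw [mem_Ico] at hx ⊢ <;> omega
  · intro m x hx
    have := hblk m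
    rw [mem_Ico] at hx ⊢
    omega
  · intro q m
    rw [disjoint_left]
    intro x hx hx'
    have := hblk m
    simp only at hx
    split_ifs at hx <;> rw [mem_Ico] at hx hx' <;> omega
  · intro q q' hq
    rw [disjoint_left]
    intro x hx hx'
    have hq3 : q = 0 ∨ q = 1 ∨ q = 2 := by fin_cases q <;> simp
    have hq3' : q' = 0 ∨ q' = 1 ∨ q' = 2 := by fin_cases q' <;> simp
    rcases hq3 with rfl | rfl | rfl <;> rcases hq3' with rfl | rfl | rfl <;> simp at hx hx' hq <;> omega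
  · intro q
    simp only
    split_ifs <;> rw [Nat.card_Ico] <;> omega

/-- large primes do not matter -/
lemma adm_big {s : ℕ} (a : Fin s → ℤ) (p : ℕ) (hp : p.Prime) (h : s + 1 < p) : ∃ r : ℤ, ¬ (p : ℤ) ∣ r ∧ ∀ i, ¬ (p : ℤ) ∣ r + a i := by
  classical
  haveI := Fact.mk hp
  obtain ⟨S, hS⟩ : ∃ S : Finset (ZMod p), S = insert 0 (univ.image fun i => -(a i : ZMod p)) := ⟨_, rfl⟩
  have h1 : S.card < (univ : Finset (ZMod p)).card := by
    rw [card_univ, ZMod.card]
    have h2 : S.card ≤ s + 1 := by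
      rw [hS]
      refine (card_insert_le _ _).trans ?_
      have h3 := card_image_le (s := (univ : Finset (Fin s))) (f := fun i => -(a i : ZMod p))
      rw [card_univ, Fintype.card_fin] at h3
      omega
    omega
  obtain ⟨y, _, hy⟩ := exists_mem_notMem_of_card_lt_card h1
  rw [hS, mem_insert, not_or] at hy
  refine ⟨(y.val : ℤ), ?_, ?_⟩
  · intro hd
    apply hy.1
    have h2 := (ZMod.intCast_zmod_eq_zero_iff_dvd _ p).2 hd
    simpa using h2
  · intro i hd
    apply hy.2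
    have h2 := (ZMod.intCast_zmod_eq_zero_iff_dvd _ p).2 hd
    rw [mem_image]
    refine ⟨i, mem_univ _, ?_⟩
    push_cast at h2
    rw [ZMod.natCast_zmod_val] at h2
    exact (eq_neg_of_add_eq_zero_left h2).symm

lemma adm_shift {s : ℕ} (h a : Fin s → ℤ) (hadm : Admissible h) (hr : ∀ p : ℕ, p.Prime → p ≤ s + 1 → ∀ i, (p : ℤ) ∣ a i - h i) :
    Admissible a := by
  intro p hp
  rcases lt_or_ge (s + 1) p with h1 | h1
  · exact adm_big a p hp h1
  · obtain ⟨r, hr1, hr2⟩ := hadm p hp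
    refine ⟨r, hr1, fun i hd => hr2 i ?_⟩
    have h2 := hr p hp h1 i
    have : r + h i = (r + a i) - (a i - h i) := by ring
    rw [this]
    exact dvd_sub hd h2

/-- the modulus -/
def Qp (b s : ℕ) : ℕ := ∏ p ∈ (range (s + 2)).filter (fun p => p.Prime ∧ ¬ p ∣ b), p

lemma Qp_pos (b s : ℕ) : 0 < Qp b s := by
  unfold Qp
  apply prod_pos
  intro p hp
  exact (mem_filter.1 hp).2.1.pos

lemma Qp_cop (b s : ℕ) : Nat.Coprime b (Qp b s) := by
  unfold Qp
  apply Nat.Coprime.prod_right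
  intro p hp
  have h1 := (mem_filter.1 hp).2
  exact ((Nat.Prime.coprime_iff_not_dvd h1.1).2 h1.2).symm

/-- the sum of the reserved powers -/
def kap (b φ u : ℕ) : ℕ := ∑ l ∈ Icc 1 u, b ^ (φ * l)

lemma kap_mod (b s u : ℕ) : kap b (Qp b s).totient u ≡ u [MOD Qp b s] := by
  unfold kap
  have h1 : ∀ l : ℕ, b ^ ((Qp b s).totient * l) ≡ 1 [MOD Qp b s] := by
    intro l
    rw [pow_mul]
    have := (Nat.ModEq.pow_totient (Qp_cop b s)).pow l
    rwa [one_pow] at this
  have h2 : ∑ l ∈ Icc 1 u, b ^ ((Qp b s).totient * l) ≡ ∑ _l ∈ Icc 1 u, 1 [MOD Qp b s] := by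
    induction u with
    | zero => rfl
    | succ n ih =>
      rw [sum_Icc_succ_top (by omega), sum_Icc_succ_top (by omega)]
      exact ih.add (h1 _)
  rw [sum_const, Nat.card_Icc, smul_eq_mul, mul_one, Nat.add_sub_cancel] at h2
  exact h2

lemma kap_dvd (b φ u : ℕ) (hφ : 1 ≤ φ) : b ∣ kap b φ u := by
  unfold kap
  apply dvd_sum
  intro l hl
  apply dvd_pow_self
  have := (mem_Icc.1 hl).1
  have : 1 ≤ φ * l := Nat.mul_pos hφ this
  omega

/-- the choice of the number of reserved powers -/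
lemma res_choice (b s : ℕ) (v : ℤ) : ∃ u ∈ range (Qp b s), ((Qp b s : ℕ) : ℤ) ∣ (kap b (Qp b s).totient u : ℤ) + v := by
  have hQ := Qp_pos b s
  have hQ' : (0 : ℤ) < (Qp b s : ℕ) := by exact_mod_cast hQ
  obtain ⟨u, hu⟩ : ∃ u : ℕ, (u : ℤ) = (-v) % ((Qp b s : ℕ) : ℤ) := by
    have := Int.emod_nonneg (-v) hQ'.ne'
    exact ⟨_, Int.toNat_of_nonneg this⟩
  refine ⟨u, ?_, ?_⟩
  · rw [mem_range]
    have := Int.emod_lt_of_pos (-v) hQ'
    rw [← hu] at this
    exact_mod_cast this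
  · have h1 : ((Qp b s : ℕ) : ℤ) ∣ (kap b (Qp b s).totient u : ℤ) - u := by
      have := (Int.natCast_modEq_iff.2 (kap_mod b s u)).symm.dvd
      exact this
    have h2 : ((Qp b s : ℕ) : ℤ) ∣ (u : ℤ) + v := by
      rw [hu]
      have h3 := Int.emod_add_mul_ediv (-v) ((Qp b s : ℕ) : ℤ)
      refine ⟨-((-v) / ((Qp b s : ℕ) : ℤ)), ?_⟩
      linarith
    have : (kap b (Qp b s).totient u : ℤ) + v = ((kap b (Qp b s).totient u : ℤ) - u) + (u + v) := by ring
    rw [this]
    exact dvd_add h1 h2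

/-- the divisibility by the small primes -/
lemma small_dvd (b s : ℕ) (v : ℤ) (h1 : ((Qp b s : ℕ) : ℤ) ∣ v) (h2 : (b : ℤ) ∣ v) (p : ℕ) (hp : p.Prime) (hps : p ≤ s + 1) : (p : ℤ) ∣ v := by
  by_cases h : p ∣ b
  · exact (Int.natCast_dvd_natCast.2 h).trans h2
  · have : p ∣ Qp b s := by
      unfold Qp
      apply dvd_prod_of_mem (fun p => p)
      rw [mem_filter, mem_range]
      exact ⟨by omega, hp, h⟩
    exact (Int.natCast_dvd_natCast.2 this).trans h1

end Pool.Agent.Y820.LT
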