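import Pool.Agent.Y820.LT.M2

set_option autoImplicit false

/-! Coincidences. -/

namespace Pool.Agent.Y820.LT
open Finset
open Pool.Agent.H373R2.T7 (lamI lamzI lamz Vz singZ tupleCount Admissible)
open Pool.Agent.TH894.SM (dl Om Pos)

/-- few choices are not injective -/
lemma noninj (J : Fin 3 → Finset ℕ) (t n : ℕ) (hn : ∀ q, n ≤ (J q).card) :
    (n : ℝ) * ∑ ω ∈ Om J t, (if Function.Injective ω then (0 : ℝ) else 1) ≤ (9 * t ^ 2 : ℕ) * (Om J t).card := by
  classical
  have h1 : ∀ ω : Fin 3 × Fin t → ℕ, (if Function.Injective ω then (0 : ℝ) else 1) ≤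
      ∑ p ∈ (univ : Finset ((Fin 3 × Fin t) × (Fin 3 × Fin t))).filter (fun p => p.1 ≠ p.2), (if ω p.1 = ω p.2 then (1 : ℝ) else 0) := by
    intro ω
    split_ifs with h
    · exact sum_nonneg fun p _ => by split_ifs <;> norm_num
    · unfold Function.Injective at h
      push Not at h
      obtain ⟨p, p', hp, hne⟩ := h
      refine le_trans (le_of_eq ?_) (single_le_sum (f := fun p : (Fin 3 × Fin t) × (Fin 3 × Fin t) => if ω p.1 = ω p.2 then (1 : ℝ) else 0)
        (fun p _ => by split_ifs <;> norm_num) (show (p, p') ∈ _ by rw [mem_filter]; exact ⟨mem_univ _, hne⟩))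
      simp only
      rw [if_pos hp]
  have h2 : ∀ p ∈ (univ : Finset ((Fin 3 × Fin t) × (Fin 3 × Fin t))).filter (fun p => p.1 ≠ p.2),
      (n : ℝ) * ∑ ω ∈ Om J t, (if ω p.1 = ω p.2 then (1 : ℝ) else 0) ≤ (Om J t).card := by
    intro p hp
    rw [mem_filter] at hp
    have h3 := upd_sum (fun c : Fin 3 × Fin t => J c.1) p.1 (fun ω => if ω p.1 = ω p.2 then (1 : ℝ) else 0)
    have h4 : ∀ ω ∈ Fintype.piFinset (fun c : Fin 3 × Fin t => J c.1), ∑ y ∈ J p.1.1,
        (if Function.update ω p.1 y p.1 = Function.update ω p.1 y p.2 then (1 : ℝ) else 0) ≤ 1 := by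
      intro ω _
      have h5 : ∀ y, Function.update ω p.1 y p.1 = y ∧ Function.update ω p.1 y p.2 = ω p.2 := by
        intro y
        rw [Function.update_self, Function.update_of_ne (Ne.symm hp.2)]
        exact ⟨rfl, rfl⟩
      simp only [(h5 _).1, (h5 _).2]
      rw [sum_ite_eq']
      split_ifs <;> norm_num
    have h5 := sum_le_sum h4
    rw [sum_const, nsmul_eq_mul, mul_one] at h5
    rw [h3] at h5
    unfold Om
    refine le_trans ?_ h5
    apply mul_le_mul_of_nonneg_right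
    · exact_mod_cast hn _
    · exact sum_nonneg fun ω _ => by split_ifs <;> norm_num
  calc (n : ℝ) * ∑ ω ∈ Om J t, (if Function.Injective ω then (0 : ℝ) else 1)
      ≤ (n : ℝ) * ∑ ω ∈ Om J t, ∑ p ∈ (univ : Finset ((Fin 3 × Fin t) × (Fin 3 × Fin t))).filter (fun p => p.1 ≠ p.2),
          (if ω p.1 = ω p.2 then (1 : ℝ) else 0) :=
        mul_le_mul_of_nonneg_left (sum_le_sum fun ω _ => h1 ω) (Nat.cast_nonneg _)
    _ = ∑ p ∈ (univ : Finset ((Fin 3 × Fin t) × (Fin 3 × Fin t))).filter (fun p => p.1 ≠ p.2),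
          (n : ℝ) * ∑ ω ∈ Om J t, (if ω p.1 = ω p.2 then (1 : ℝ) else 0) := by
        rw [sum_comm, mul_sum]
    _ ≤ ∑ _p ∈ (univ : Finset ((Fin 3 × Fin t) × (Fin 3 × Fin t))).filter (fun p => p.1 ≠ p.2), ((Om J t).card : ℝ) := sum_le_sum h2
    _ = (((univ : Finset ((Fin 3 × Fin t) × (Fin 3 × Fin t))).filter (fun p => p.1 ≠ p.2)).card : ℝ) * (Om J t).card := by
        rw [sum_const, nsmul_eq_mul]
    _ ≤ _ := by
        apply mul_le_mul_of_nonneg_right _ (Nat.cast_nonneg _)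
        have h6 := card_filter_le (univ : Finset ((Fin 3 × Fin t) × (Fin 3 × Fin t))) (fun p => p.1 ≠ p.2)
        rw [card_univ, Fintype.card_prod, Fintype.card_prod, Fintype.card_fin, Fintype.card_fin] at h6
        have h7 : 3 * t * (3 * t) = 9 * t ^ 2 := by ring
        rw [h7] at h6
        exact_mod_cast h6

section
variable {s t t' : ℕ} (b : ℕ) (e : Fin s → ℕ → ℤ) (h : Fin s → ℤ) (Ω : Finset (Fin 3 × Fin t → ℕ)) (Cs : Finset (Fin t' → ℕ))

/-- a property of one coordinate -/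
lemma coord (f : (Fin 3 × Fin t → ℕ) → ℝ) (ρ : ℝ) (hf : ∑ ω ∈ Ω, f ω ≤ ρ * Ω.card) (i : Fin s) :
    ∑ x ∈ PP s Ω Cs, f (x i).1 ≤ ρ * (PP s Ω Cs).card := by
  classical
  have h1 := upd_sum (fun _ : Fin s => Ω ×ˢ Cs) i (fun x => f (x i).1)
  have h2 : ∀ x ∈ PP s Ω Cs, ∑ y ∈ Ω ×ˢ Cs, f (Function.update x i y i).1 ≤ Cs.card * (ρ * Ω.card) := by
    intro x _
    rw [sum_product]
    simp only [Function.update_self, sum_const, nsmul_eq_mul]
    rw [← mul_sum]
    exact mul_le_mul_of_nonneg_left hf (Nat.cast_nonneg _)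
  have h3 := sum_le_sum h2
  unfold PP at h3 ⊢
  rw [h1, sum_const, nsmul_eq_mul, card_product, Nat.cast_mul] at h3
  rcases Ω.eq_empty_or_nonempty with h4 | h4
  · have h5 : Fintype.piFinset (fun _ : Fin s => Ω ×ˢ Cs) = ∅ := by
      rw [Fintype.piFinset_eq_empty]
      exact ⟨i, by simp [h4]⟩
    rw [h5]
    simp
  rcases Cs.eq_empty_or_nonempty with h6 | h6
  · have h5 : Fintype.piFinset (fun _ : Fin s => Ω ×ˢ Cs) = ∅ := by
      rw [Fintype.piFinset_eq_empty]
      exact ⟨i, by simp [h6]⟩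
    rw [h5]
    simp
  have h5 : (0 : ℝ) < Ω.card := by exact_mod_cast card_pos.2 h4
  have h7 : (0 : ℝ) < Cs.card := by exact_mod_cast card_pos.2 h6
  refine le_of_mul_le_mul_left (le_trans h3 (le_of_eq ?_)) (mul_pos h5 h7)
  ring

/-- the shifts are distinct -/
lemma coin (n : ℕ) (hn : n ≤ Cs.card) (hz : ∀ i : Fin s, ∀ v : ℤ, ∑ c ∈ Cs, (if gam b (e i) c + v = 0 then (1 : ℝ) else 0) ≤ 1)
    (i j : Fin s) (hij : i ≠ j) :
    (n : ℝ) * ∑ x ∈ PP s Ω Cs, (if shf b e h x i = shf b e h x j then (1 : ℝ) else 0) ≤ (PP s Ω Cs).card := by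
  classical
  have h1 := upd_sum (fun _ : Fin s => Ω ×ˢ Cs) i (fun x => if shf b e h x i = shf b e h x j then (1 : ℝ) else 0)
  have h2 : ∀ x ∈ PP s Ω Cs, ∑ y ∈ Ω ×ˢ Cs, (if shf b e h (Function.update x i y) i = shf b e h (Function.update x i y) j then (1 : ℝ) else 0) ≤
      Ω.card := by
    intro x _
    rw [sum_product]
    have h3 : ∀ ω ∈ Ω, ∑ c ∈ Cs, (if shf b e h (Function.update x i (ω, c)) i = shf b e h (Function.update x i (ω, c)) j then (1 : ℝ) else 0) ≤ 1 := by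
      intro ω _
      refine le_trans (le_of_eq ?_) (hz i (h i + gam b (e i) ω - shf b e h x j))
      apply sum_congr rfl
      intro c _
      rw [shf_upd, shf_upd_ne _ _ _ _ _ _ hij.symm]
      congr 1
      simp only
      apply propext
      constructor
      · intro h4; linarith
      · intro h4; linarith
    refine (sum_le_sum h3).trans (le_of_eq ?_)
    rw [sum_const, nsmul_eq_mul, mul_one]
  have h3 := sum_le_sum h2
  unfold PP at h3 ⊢
  rw [h1, sum_const, nsmul_eq_mul, card_product, Nat.cast_mul] at h3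
  rcases Ω.eq_empty_or_nonempty with h4 | h4
  · have h5 : Fintype.piFinset (fun _ : Fin s => Ω ×ˢ Cs) = ∅ := by
      rw [Fintype.piFinset_eq_empty]
      exact ⟨i, by simp [h4]⟩
    rw [h5]
    simp
  have h5 : (0 : ℝ) < Ω.card := by exact_mod_cast card_pos.2 h4
  have h6 : (Cs.card : ℝ) * ∑ x ∈ Fintype.piFinset (fun _ : Fin s => Ω ×ˢ Cs), (if shf b e h x i = shf b e h x j then (1 : ℝ) else 0) ≤
      (Fintype.piFinset (fun _ : Fin s => Ω ×ˢ Cs)).card := by
    refine le_of_mul_le_mul_left (le_trans (le_of_eq ?_) (h3.trans (le_of_eq ?_))) h5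
    · ring
    · ring
  refine le_trans ?_ h6
  apply mul_le_mul_of_nonneg_right
  · exact_mod_cast hn
  · exact sum_nonneg fun x _ => by split_ifs <;> norm_num

end

end Pool.Agent.Y820.LT
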