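import Pool.Agent.Y820.LT.G3
import Pool.Agent.Y820.LT.F2

set_option autoImplicit false

/-! The theorem of Linnik type, for all but a small proportion of an arbitrary family of tuples. -/

namespace Pool.Agent.Y820.LT
open Finset
open Pool.Agent.H373R2.T7 (lamI lamzI lamz Vz Vz_pos Vz_inv_small lamI_nonneg lamzI_nonneg singZ tupleCount Admissible)
open Pool.Agent.H560R3.GB (primeTuples)
open Pool.Agent.W93.DG (hh logX hh_small)
open Pool.Agent.TH894.SM (dl Om Pos)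

/-- the corrected tuples of one tuple -/
noncomputable def fam1 {s : ℕ} (b φ Q : ℕ) (g : Fin s → ℕ) : Finset (Fin s → ℤ) := fam b φ Q {g}

lemma fam1_card {s : ℕ} (b φ Q : ℕ) (g : Fin s → ℕ) : (fam1 b φ Q g).card ≤ Q ^ s := by
  unfold fam1
  have := fam_card b φ Q 1 {g} (by rw [card_singleton])
  rwa [one_mul] at this

/-- the formula at all points of the grid -/
theorem at_grid3 (hD : S_D) (hR : S_R) (hSB : S_SB) (hP : S_P) (b : ℕ) (hb : 2 ≤ b) (s : ℕ) (hs : 1 ≤ s) (B m m₀ : ℕ) (hm : 1 ≤ m)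
    (hm₀ : 1 ≤ m₀) (ε ρ : ℝ) (hε : 0 < ε) (hρ : 0 < ρ) :
    ∃ D X₀ : ℕ, ∀ X : ℕ, X₀ ≤ X → ∀ T : Finset (Fin s → ℕ), (∀ h ∈ T, ∀ i, h i ≤ B * X) →
    ∃ S : Fin s → Finset ℕ, (∀ i, (S i).card ≤ D) ∧ (∀ i, ∀ ν ∈ S i, b ^ ν ≤ (B + 1) * X) ∧
      ∃ E ⊆ T, (E.card : ℝ) ≤ ρ * T.card ∧ ∀ h ∈ T, h ∉ E → (Admissible (fun i => (h i : ℤ)) → Admissible (fun i => ((h i + ∑ ν ∈ S i, b ^ ν : ℕ) : ℤ))) ∧
        ∀ N ∈ grid m m₀ X, HLe ε N (fun i => h i + ∑ ν ∈ S i, b ^ ν) := by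
  classical
  obtain ⟨BP, hgood⟩ := good_choice3 hSB hR hP b hb s hs
  obtain ⟨E1, hE1⟩ : ∃ E1, E1 = BP + s + 6 := ⟨_, rfl⟩
  obtain ⟨δ, hδ, n0, hdet⟩ := hD s ((B + b * (B + 1)) * (2 * m₀)) E1 hs (by omega) ε hε
  obtain ⟨δ₁, hδ₁⟩ : ∃ δ₁ : ℝ, δ₁ = δ / (s * (b ^ 2 * (B + 1)) * (2 * m₀)) := ⟨_, rfl⟩
  have hs0 : (0 : ℝ) < s := by exact_mod_cast hs
  have hm₀0 : (0 : ℝ) < m₀ := by exact_mod_cast hm₀
  have hb0 : (0 : ℝ) < b := by exact_mod_cast (by omega : 0 < b)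
  have hδ₁0 : 0 < δ₁ := by rw [hδ₁]; positivity
  have hφ1 : 1 ≤ (Qp b s).totient := Nat.totient_pos.2 (Qp_pos b s)
  obtain ⟨D, k₀, hch⟩ := hgood (E1 + 1) (Qp b s ^ s) m ((Qp b s).totient * Qp b s + 1) δ₁ ρ (by omega) hδ₁0 hρ
  obtain ⟨x1, hx1⟩ := par_z E1 BP (by omega) (2 * m₀) (by omega) (b ^ 2 * (B + 1))
  refine ⟨Qp b s + D, x1 + 2 * m₀ * n0 + b ^ (k₀ + ((Qp b s).totient * Qp b s + 1)) + 1, fun X hX T hTb => ?_⟩
  obtain ⟨c, hc0, hck, hc1, hc2, hbc', h2c, hYX, hXY⟩ := par_K b hb B (k₀ + ((Qp b s).totient * Qp b s + 1)) X (by omega)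
  obtain ⟨z, hz2, hz3, hz4, hz5⟩ := hx1 X (by omega) (b ^ (c + 1)) hXY hYX
  have hBX : (B + 1) * X = B * X + X := by ring
  obtain ⟨S', hS's, hS'c, hS'n, E, hET, hEc, hS'⟩ := hch (c + 1) (by omega) z hz2 hz3 hz4 T (fam1 b (Qp b s).totient (Qp b s))
    (fun g _ => fam1_card b _ _ g) (fun g hg => fam_le b _ _ c (b ^ (c + 1)) hb hφ1 (by omega) {g} (fun h hh' i => by
      rw [mem_singleton] at hh'
      subst hh'
      have := hTb h hg i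
      omega)) (grid m m₀ X) (grid_card m m₀ X) (fun N hN => (grid_le m m₀ X N hm hN).1.trans hXY)
  simp only [Nat.add_sub_cancel] at hS's
  have hu : ∀ i, ∃ u ∈ range (Qp b s), ((Qp b s : ℕ) : ℤ) ∣ (kap b (Qp b s).totient u : ℤ) + ((∑ ν ∈ S' i, b ^ ν : ℕ) : ℤ) := by
    intro i
    exact res_choice b s _
  choose u hu1 hu2 using hu
  have hu1' : ∀ i, u i < Qp b s := fun i => mem_range.1 (hu1 i)
  have hlt : ∀ i, ∀ ν ∈ fullS (Qp b s).totient (u i) (S' i), ν < c := fun i =>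
    fullS_lt _ (Qp b s) (u i) c (S' i) hφ1 (hu1' i) (by omega) (hS's i)
  have hsum : ∀ i, ∑ ν ∈ fullS (Qp b s).totient (u i) (S' i), b ^ ν = kap b (Qp b s).totient (u i) + ∑ ν ∈ S' i, b ^ ν := fun i =>
    fullS_sum b _ (Qp b s) (u i) c (S' i) hφ1 (hu1' i) (hS's i)
  have hsle : ∀ i, ∑ ν ∈ fullS (Qp b s).totient (u i) (S' i), b ^ ν < b ^ c := fun i => Nat.geomSum_lt hb (hlt i)
  refine ⟨fun i => fullS (Qp b s).totient (u i) (S' i), fun i => fullS_card _ _ _ _ _ (hu1' i) (hS'c i), ?_, E, hET, hEc, ?_⟩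
  · intro i ν hν
    exact (Nat.pow_le_pow_right (by omega) (by have := hlt i ν hν; omega)).trans hc2.le
  · intro h hh' hhE
    refine ⟨adm_full b h u S' c hS's hu1' hu2, fun N hN => ?_⟩
    obtain ⟨hNX, hXN⟩ := grid_le m m₀ X N hm hN
    have hn0 : n0 ≤ N := by
      by_contra hcon
      push Not at hcon
      have : 2 * m₀ * N ≤ 2 * m₀ * n0 := Nat.mul_le_mul_left _ hcon.le
      omega
    obtain ⟨hz6, hz7⟩ := hz5 N hNX hXN
    have hmem : (fun i => (h i : ℤ) + (kap b (Qp b s).totient (u i) : ℤ)) ∈ fam1 b (Qp b s).totient (Qp b s) h := by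
      unfold fam1 fam
      rw [mem_image]
      refine ⟨(h, u), ?_, rfl⟩
      rw [mem_product, Fintype.mem_piFinset]
      exact ⟨mem_singleton_self _, hu1⟩
    have haeq : ∀ i, ((h i + ∑ ν ∈ fullS (Qp b s).totient (u i) (S' i), b ^ ν : ℕ) : ℤ) =
        ((h i : ℤ) + (kap b (Qp b s).totient (u i) : ℤ)) + ∑ ν ∈ S' i, (b : ℤ) ^ ν := by
      intro i
      rw [hsum]
      push_cast
      ring
    obtain ⟨hg1, hg2⟩ := hS' h hh' hhE _ hmem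
    have hg3 := hg2 N hN
    apply hdet N hn0 z hz6 hz7
    · intro i
      have h1 := hTb h hh' i
      have h2 := hsle i
      calc h i + ∑ ν ∈ fullS (Qp b s).totient (u i) (S' i), b ^ ν ≤ B * X + b * ((B + 1) * X) := by omega
        _ = (B + b * (B + 1)) * X := by ring
        _ ≤ (B + b * (B + 1)) * (2 * m₀ * N) := Nat.mul_le_mul_left _ hXN
        _ = _ := by ring
    · intro i
      have h1 : 0 < ∑ ν ∈ S' i, b ^ ν := sum_pos (fun ν _ => Nat.pow_pos (by omega)) (hS'n i)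
      rw [hsum]
      omega
    · intro i j hij heq
      apply hg1 i j hij
      beta_reduce
      rw [← haeq, ← haeq]
      exact_mod_cast heq
    · have h1 : ∀ n : ℕ, n ∈ Icc 1 N → ∀ i, (n : ℤ) + (((h i : ℤ) + (kap b (Qp b s).totient (u i) : ℤ)) + ∑ ν ∈ S' i, (b : ℤ) ^ ν) ≤
          ((b ^ (c + 1) : ℕ) : ℤ) := by
        intro n hn i
        rw [← haeq]
        have h1 := hTb h hh' i
        have h2 := hsle i
        have h3 := (mem_Icc.1 hn).2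
        exact_mod_cast (by omega : n + (h i + ∑ ν ∈ fullS (Qp b s).totient (u i) (S' i), b ^ ν) ≤ b ^ (c + 1))
      have h2 := hg3 h1
      have h3 : ∑ n ∈ Icc 1 N, ArithmeticFunction.vonMangoldt n *
          (∏ i, lamI ((n : ℤ) + ((h i + ∑ ν ∈ fullS (Qp b s).totient (u i) (S' i), b ^ ν : ℕ) : ℤ)) -
            ∏ i, lamzI z ((n : ℤ) + ((h i + ∑ ν ∈ fullS (Qp b s).totient (u i) (S' i), b ^ ν : ℕ) : ℤ))) =
          ∑ n ∈ Icc 1 N, ArithmeticFunction.vonMangoldt n *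
          (∏ i, lamI ((n : ℤ) + (((h i : ℤ) + (kap b (Qp b s).totient (u i) : ℤ)) + ∑ ν ∈ S' i, (b : ℤ) ^ ν)) -
            ∏ i, lamzI z ((n : ℤ) + (((h i : ℤ) + (kap b (Qp b s).totient (u i) : ℤ)) + ∑ ν ∈ S' i, (b : ℤ) ^ ν))) := by
        apply sum_congr rfl
        intro n _
        congr 2
        · apply prod_congr rfl
          intro i _
          rw [haeq]
        · apply prod_congr rfl
          intro i _
          rw [haeq]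
      rw [h3]
      refine h2.trans ?_
      have h4 : ((b ^ (c + 1) : ℕ) : ℝ) ≤ b ^ 2 * (B + 1) * X := by exact_mod_cast hYX
      have h5 : (X : ℝ) ≤ 2 * m₀ * N := by exact_mod_cast hXN
      calc (s : ℝ) * δ₁ * ((b ^ (c + 1) : ℕ) : ℝ) ≤ s * δ₁ * (b ^ 2 * (B + 1) * X) := mul_le_mul_of_nonneg_left h4 (by positivity)
        _ ≤ s * δ₁ * (b ^ 2 * (B + 1) * (2 * m₀ * N)) := by
            apply mul_le_mul_of_nonneg_left _ (by positivity)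
            exact mul_le_mul_of_nonneg_left h5 (by positivity)
        _ = δ * N := by
            rw [hδ₁]
            field_simp

/-- the theorem for all `N` in the range -/
theorem main_range3 (hD : S_D) (hR : S_R) (hSB : S_SB) (hP : S_P) (b : ℕ) (hb : 2 ≤ b) (s : ℕ) (hs : 1 ≤ s) (B m₀ : ℕ)
    (hm₀ : 1 ≤ m₀) (ε ρ : ℝ) (hε : 0 < ε) (hρ : 0 < ρ) :
    ∃ D X₀ : ℕ, ∀ X : ℕ, X₀ ≤ X → ∀ T : Finset (Fin s → ℕ), (∀ h ∈ T, ∀ i, h i ≤ B * X) →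
    (∀ h ∈ T, Admissible (fun i => (h i : ℤ))) →
    ∃ S : Fin s → Finset ℕ, (∀ i, (S i).card ≤ D) ∧ (∀ i, ∀ ν ∈ S i, b ^ ν ≤ (B + 1) * X) ∧
      ∃ E ⊆ T, (E.card : ℝ) ≤ ρ * T.card ∧ ∀ h ∈ T, h ∉ E → Admissible (fun i => ((h i + ∑ ν ∈ S i, b ^ ν : ℕ) : ℤ)) ∧ ∃ G : ℝ, 0 < G ∧
        Filter.Tendsto (fun z => singZ (fun i => ((h i + ∑ ν ∈ S i, b ^ ν : ℕ) : ℤ)) z) Filter.atTop (nhds G) ∧
        ∀ N : ℕ, N ≤ X → X ≤ m₀ * N →
          |(primeTuples (fun i => h i + ∑ ν ∈ S i, b ^ ν) N : ℝ) - G * (N / Real.log N ^ (s + 1))| ≤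
            ε * (G * (N / Real.log N ^ (s + 1))) := by
  obtain ⟨ε', hε'⟩ : ∃ ε', ε' = min ε 1 := ⟨_, rfl⟩
  have hε'0 : 0 < ε' := by rw [hε']; exact lt_min hε one_pos
  have hε'1 : ε' ≤ 1 := by rw [hε']; exact min_le_right _ _
  have hε'e : ε' ≤ ε := by rw [hε']; exact min_le_left _ _
  obtain ⟨κ, hκ⟩ : ∃ κ, κ = ε' / 4 := ⟨_, rfl⟩
  have hκ0 : 0 < κ := by rw [hκ]; positivity
  obtain ⟨m, hm⟩ := exists_nat_ge (4 * (m₀ : ℝ) / κ)
  obtain ⟨D, X₀, hX₀⟩ := at_grid3 hD hR hSB hP b hb s hs B (m + 8 * m₀) m₀ (by omega) hm₀ κ ρ hκ0 hρ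
  refine ⟨D, X₀ + (m + 8 * m₀) + 4 * m₀, fun X hX T hTb hTa => ?_⟩
  obtain ⟨S, hS1, hS2, E, hET, hEc, hS3⟩ := hX₀ X (by omega) T hTb
  refine ⟨S, hS1, hS2, E, hET, hEc, fun h hh' hhE => ?_⟩
  obtain ⟨hadm, hgr⟩ := hS3 h hh' hhE
  have hadm' := hadm (hTa h hh')
  refine ⟨hadm', ?_⟩
  have hmm : 4 * (m₀ : ℝ) / ((m + 8 * m₀ : ℕ) : ℝ) ≤ κ := by
    have h1 : (m : ℝ) ≤ ((m + 8 * m₀ : ℕ) : ℝ) := by exact_mod_cast (by omega : m ≤ m + 8 * m₀)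
    have h2 : (0 : ℝ) < ((m + 8 * m₀ : ℕ) : ℝ) := by exact_mod_cast (by omega : 0 < m + 8 * m₀)
    rw [div_le_iff₀ hκ0] at hm
    rw [div_le_iff₀ h2]
    have h3 := mul_le_mul_of_nonneg_left h1 hκ0.le
    linarith
  obtain ⟨A, hA, C, hC, hAX, hXC, hC', hA'⟩ := grid_near (m + 8 * m₀) m₀ X X hm₀ (by omega) (by omega) (Nat.le_mul_of_pos_left _ hm₀) le_rfl
  obtain ⟨G, hG1, hG2, hG3⟩ := hgr A hA
  obtain ⟨hG0, hG4⟩ := hG3 hadm'
  refine ⟨G, hG0, hG1, fun N hN1 hN2 => ?_⟩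
  obtain ⟨A', hA1, C', hC1, hAN, hNC, hC2, hA2⟩ := grid_near (m + 8 * m₀) m₀ X N hm₀ (by omega) (by omega) hN2 hN1
  have hgrid : ∀ N' ∈ grid (m + 8 * m₀) m₀ X, |(primeTuples (fun i => h i + ∑ ν ∈ S i, b ^ ν) N' : ℝ) - G * (N' / Real.log N' ^ (s + 1))| ≤
      κ * (G * (N' / Real.log N' ^ (s + 1))) := by
    intro N' hN'
    obtain ⟨G', hG1', _, hG3'⟩ := hgr N' hN'
    have : G' = G := tendsto_nhds_unique hG1' hG1
    rw [this] at hG3'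
    exact (hG3' hadm').2
  have hA3 : 2 ≤ A' := by
    have h1 := (grid_le (m + 8 * m₀) m₀ X A' (by omega) hA1).2
    by_contra hcon
    push Not at hcon
    have : 2 * m₀ * A' ≤ 2 * m₀ * 1 := Nat.mul_le_mul_left _ (by omega)
    omega
  have hN0 : (0 : ℝ) ≤ N := Nat.cast_nonneg _
  have hA0 : (0 : ℝ) ≤ A' := Nat.cast_nonneg _
  have e1 : (C' : ℝ) ≤ (1 + κ) * N := by
    refine hC2.trans ?_
    apply mul_le_mul_of_nonneg_right _ hN0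
    linarith
  have e2 : (N : ℝ) ≤ (1 + κ) * A' := by
    refine hA2.trans ?_
    apply mul_le_mul_of_nonneg_right _ hA0
    linarith
  have h5 := interp (fun i => h i + ∑ ν ∈ S i, b ^ ν) G ε' κ hG0 hε'0 hε'1 hκ A' N C' hA3 hAN hNC e1 e2 (hgrid A' hA1) (hgrid C' hC1)
  refine h5.trans ?_
  apply mul_le_mul_of_nonneg_right hε'e
  apply mul_nonneg hG0.le
  apply div_nonneg hN0
  have : 0 ≤ Real.log (N : ℝ) := Real.log_natCast_nonneg N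
  positivity

end Pool.Agent.Y820.LT
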