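import Pool.Agent.Y820.LT.T
import Pool.Agent.Y820.LT.E1
import Pool.Agent.Y820.LT.E2

set_option autoImplicit false

/-! The existence of a good choice, for several tuples and several lengths at the same time. -/

namespace Pool.Agent.Y820.LT
open Finset
open Pool.Agent.H373R2.T7 (lamI lamzI lamz Vz Vz_pos Vz_inv_small lamI_nonneg lamzI_nonneg singZ tupleCount Admissible)
open Pool.Agent.W93.HD (gg one_le_gg)
open Pool.Agent.W93.DG (hh logX hh_small)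
open Pool.Agent.TH894.SM (dl Om Pos)

lemma icc_cast (f : ℤ → ℝ) (N : ℕ) : ∑ n ∈ Icc 1 N, f (n : ℤ) = ∑ n ∈ Icc (1 : ℤ) N, f n := by
  refine sum_nbij' (fun n : ℕ => (n : ℤ)) Int.toNat ?_ ?_ ?_ ?_ ?_
  · intro n hn
    rw [mem_Icc] at hn ⊢
    omega
  · intro n hn
    rw [mem_Icc] at hn ⊢
    omega
  · intro n _
    simp
  · intro n hn
    rw [mem_Icc] at hn
    exact Int.toNat_of_nonneg (by omega)
  · intro n _
    rfl

/-- the telescoping sum -/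
lemma tele {s t t' : ℕ} (b z Y N : ℕ) (e : Fin s → ℕ → ℤ) (h : Fin s → ℤ) (x : Fin s → Ch t t')
    (hY : ∀ n : ℕ, n ∈ Icc 1 N → ∀ i, (n : ℤ) + shf b e h x i ≤ Y) :
    ∑ n ∈ Icc 1 N, ArithmeticFunction.vonMangoldt n *
        (∏ i, lamI ((n : ℤ) + shf b e h x i) - ∏ i, lamzI z ((n : ℤ) + shf b e h x i)) = ∑ j, DD b z Y N e h j x := by
  classical
  have h1 : ∀ n ∈ Icc 1 N, ArithmeticFunction.vonMangoldt n *
        (∏ i, lamI ((n : ℤ) + shf b e h x i) - ∏ i, lamzI z ((n : ℤ) + shf b e h x i)) =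
      ∑ j, Fj b z Y N e h j x (n : ℤ) * Gc z Y ((n : ℤ) + shf b e h x j) := by
    intro n hn
    rw [telescope, mul_sum]
    apply sum_congr rfl
    intro j _
    unfold Fj Gc
    have hn' := mem_Icc.1 hn
    rw [if_pos (by omega : (n : ℤ) ≤ N), if_pos (hY n hn j)]
    have h2 : w z true (n : ℤ) = ArithmeticFunction.vonMangoldt n := by
      unfold w lamI
      rw [if_pos rfl, if_pos (by omega : (1 : ℤ) ≤ n), Int.toNat_natCast]
    have h3 : ∏ i ∈ univ.erase j, (if j < i then lamI ((n : ℤ) + shf b e h x i) else lamzI z ((n : ℤ) + shf b e h x i)) =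
        ∏ i ∈ univ.erase j, wc z Y (decide (j < i)) ((n : ℤ) + shf b e h x i) := by
      apply prod_congr rfl
      intro i _
      unfold wc w
      rw [if_pos (hY n hn i)]
      simp only [decide_eq_true_eq]
    rw [h2, h3]
    ring
  rw [sum_congr rfl h1, icc_cast (fun n => ∑ j, Fj b z Y N e h j x n * Gc z Y (n + shf b e h x j)) N, sum_comm]
  rfl

/-- a point where three averages are small -/
lemma exists_small {κ : Type*} (P : Finset κ) (hP : P.Nonempty) (F1 F2 F3 : κ → ℝ) (h1 : ∑ x ∈ P, F1 x ≤ 1 / 4 * P.card)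
    (h2 : ∑ x ∈ P, F2 x ≤ 1 / 4 * P.card) (h3 : ∑ x ∈ P, F3 x ≤ 1 / 4 * P.card) : ∃ x ∈ P, F1 x + F2 x + F3 x < 1 := by
  have hP0 : (0 : ℝ) < P.card := by exact_mod_cast card_pos.2 hP
  by_contra hcon
  push Not at hcon
  have h4 : ∑ _x ∈ P, (1 : ℝ) ≤ ∑ x ∈ P, (F1 x + F2 x + F3 x) := sum_le_sum hcon
  rw [sum_const, nsmul_eq_mul, mul_one, sum_add_distrib, sum_add_distrib] at h4
  linarith

section
variable {s t t' : ℕ} (b z Y : ℕ) (e : Fin s → ℕ → ℤ) (H : Finset (Fin s → ℤ)) (NN : Finset ℕ) (δ : ℝ)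

/-- the large terms -/
noncomputable def B1 (x : Fin s → Ch t t') : ℝ := ∑ h ∈ H, ∑ N ∈ NN, ∑ j, DD b z Y N e h j x ^ 2 / (δ ^ 2 * Y ^ 2)

open Classical in
/-- the coincidences -/
noncomputable def B2 (x : Fin s → Ch t t') : ℝ := ∑ h ∈ H, ∑ p ∈ (univ : Finset (Fin s × Fin s)).filter (fun p => p.1 ≠ p.2),
    (if shf b e h x p.1 = shf b e h x p.2 then (1 : ℝ) else 0)

open Classical in
/-- the positions which are not distinct -/
noncomputable def B3 (x : Fin s → Ch t t') : ℝ := ∑ i : Fin s, (if Function.Injective (x i).1 then (0 : ℝ) else 1)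

lemma B1_nonneg (x : Fin s → Ch t t') : 0 ≤ B1 b z Y e H NN δ x := by
  unfold B1
  exact sum_nonneg fun h _ => sum_nonneg fun N _ => sum_nonneg fun j _ => by positivity

lemma B2_nonneg (x : Fin s → Ch t t') : 0 ≤ B2 b e H x := by
  unfold B2
  exact sum_nonneg fun h _ => sum_nonneg fun j _ => by split_ifs <;> norm_num

lemma B3_nonneg (x : Fin s → Ch t t') : 0 ≤ B3 x := by
  unfold B3
  exact sum_nonneg fun h _ => by split_ifs <;> norm_num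

lemma B1_sum (P : Finset (Fin s → Ch t t')) (n n' : ℕ) (hH : H.card ≤ n) (hNN : NN.card ≤ n') (hδ : 0 < δ) (hY : 0 < Y) (δ₀ : ℝ)
    (hδ₀ : δ₀ = δ ^ 2 / (4 * (n * n' * s + 1)))
    (hD : ∀ h ∈ H, ∀ N ∈ NN, ∀ j : Fin s, ∑ x ∈ P, DD b z Y N e h j x ^ 2 ≤ δ₀ * (Y : ℝ) ^ 2 * P.card) :
    ∑ x ∈ P, B1 b z Y e H NN δ x ≤ 1 / 4 * P.card := by
  have hY0 : (0 : ℝ) < Y := by exact_mod_cast hY
  have hP0 : (0 : ℝ) ≤ P.card := Nat.cast_nonneg _
  have hδ₀0 : 0 ≤ δ₀ := by rw [hδ₀]; positivity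
  unfold B1
  rw [sum_comm]
  have h1 : ∀ h ∈ H, ∑ x ∈ P, ∑ N ∈ NN, ∑ j, DD b z Y N e h j x ^ 2 / (δ ^ 2 * Y ^ 2) ≤ n' * (s * (δ₀ / δ ^ 2 * P.card)) := by
    intro h hh'
    rw [sum_comm]
    have h2 : ∀ N ∈ NN, ∑ x ∈ P, ∑ j, DD b z Y N e h j x ^ 2 / (δ ^ 2 * Y ^ 2) ≤ s * (δ₀ / δ ^ 2 * P.card) := by
      intro N hN
      rw [sum_comm]
      refine (sum_le_sum (g := fun _ => δ₀ / δ ^ 2 * P.card) fun j _ => ?_).trans (le_of_eq ?_)
      · rw [← sum_div, div_le_iff₀ (by positivity)]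
        refine (hD h hh' N hN j).trans (le_of_eq ?_)
        field_simp
      · rw [sum_const, nsmul_eq_mul, card_univ, Fintype.card_fin]
    refine (sum_le_sum h2).trans ?_
    rw [sum_const, nsmul_eq_mul]
    apply mul_le_mul_of_nonneg_right _ (by positivity)
    exact_mod_cast hNN
  refine (sum_le_sum h1).trans ?_
  rw [sum_const, nsmul_eq_mul]
  have h2 : (H.card : ℝ) ≤ n := by exact_mod_cast hH
  calc (H.card : ℝ) * (n' * (s * (δ₀ / δ ^ 2 * P.card))) ≤ n * (n' * (s * (δ₀ / δ ^ 2 * P.card))) :=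
        mul_le_mul_of_nonneg_right h2 (by positivity)
    _ = (n * n' * s * (δ₀ / δ ^ 2)) * P.card := by ring
    _ ≤ 1 / 4 * P.card := by
        apply mul_le_mul_of_nonneg_right _ hP0
        have h3 : δ₀ / δ ^ 2 = 1 / (4 * (n * n' * s + 1)) := by rw [hδ₀]; field_simp
        rw [h3, mul_one_div, div_le_div_iff₀ (by positivity) (by norm_num)]
        have : (0 : ℝ) ≤ n * n' * s := by positivity
        linarith

lemma B2_sum (Ω : Finset (Fin 3 × Fin t → ℕ)) (Cs : Finset (Fin t' → ℕ)) (n m₀ : ℕ) (hH : H.card ≤ n) (hm₀ : 1 ≤ m₀)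
    (hm : 4 * (n * s ^ 2) ≤ m₀) (hC : m₀ ≤ Cs.card)
    (hz : ∀ i : Fin s, ∀ v : ℤ, ∑ c ∈ Cs, (if gam b (e i) c + v = 0 then (1 : ℝ) else 0) ≤ 1) :
    ∑ x ∈ PP s Ω Cs, B2 b e H x ≤ 1 / 4 * (PP s Ω Cs).card := by
  classical
  have hP0 : (0 : ℝ) ≤ (PP s Ω Cs).card := Nat.cast_nonneg _
  have hm₀0 : (0 : ℝ) < m₀ := by exact_mod_cast hm₀
  unfold B2
  rw [sum_comm]
  have h1 : ∀ h ∈ H, ∑ x ∈ PP s Ω Cs, ∑ p ∈ (univ : Finset (Fin s × Fin s)).filter (fun p => p.1 ≠ p.2),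
      (if shf b e h x p.1 = shf b e h x p.2 then (1 : ℝ) else 0) ≤ s ^ 2 * ((PP s Ω Cs).card / m₀) := by
    intro h _
    rw [sum_comm]
    refine (sum_le_sum (g := fun _ => ((PP s Ω Cs).card : ℝ) / m₀) fun p hp => ?_).trans ?_
    · rw [le_div_iff₀ hm₀0, mul_comm]
      exact coin b e h Ω Cs m₀ hC hz p.1 p.2 (mem_filter.1 hp).2
    · rw [sum_const, nsmul_eq_mul]
      apply mul_le_mul_of_nonneg_right _ (by positivity)
      have h2 := card_filter_le (univ : Finset (Fin s × Fin s)) (fun p => p.1 ≠ p.2)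
      rw [card_univ, Fintype.card_prod, Fintype.card_fin] at h2
      rw [sq]
      exact_mod_cast h2
  refine (sum_le_sum h1).trans ?_
  rw [sum_const, nsmul_eq_mul]
  have h2 : (H.card : ℝ) ≤ n := by exact_mod_cast hH
  have h3 : (4 * (n * s ^ 2) : ℝ) ≤ m₀ := by exact_mod_cast hm
  calc (H.card : ℝ) * (s ^ 2 * ((PP s Ω Cs).card / m₀)) ≤ n * (s ^ 2 * ((PP s Ω Cs).card / m₀)) :=
        mul_le_mul_of_nonneg_right h2 (by positivity)
    _ = (n * s ^ 2 / m₀) * (PP s Ω Cs).card := by ring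
    _ ≤ 1 / 4 * (PP s Ω Cs).card := by
        apply mul_le_mul_of_nonneg_right _ hP0
        rw [div_le_div_iff₀ hm₀0 (by norm_num)]
        linarith

lemma B3_sum (J : Fin 3 → Finset ℕ) (Cs : Finset (Fin t' → ℕ)) (m₀ : ℕ) (hm₀ : 1 ≤ m₀) (hm : 36 * s * t ^ 2 ≤ m₀)
    (hJ : ∀ q, m₀ ≤ (J q).card) : ∑ x ∈ PP s (Om J t) Cs, B3 x ≤ 1 / 4 * (PP s (Om J t) Cs).card := by
  classical
  have hP0 : (0 : ℝ) ≤ (PP s (Om J t) Cs).card := Nat.cast_nonneg _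
  have hm₀0 : (0 : ℝ) < m₀ := by exact_mod_cast hm₀
  unfold B3
  rw [sum_comm]
  have h1 : ∀ i ∈ (univ : Finset (Fin s)), ∑ x ∈ PP s (Om J t) Cs, (if Function.Injective (x i).1 then (0 : ℝ) else 1) ≤
      (9 * t ^ 2 : ℕ) / m₀ * (PP s (Om J t) Cs).card := by
    intro i _
    refine coord (Om J t) Cs (fun ω => if Function.Injective ω then (0 : ℝ) else 1) _ ?_ i
    have h2 := noninj J t m₀ hJ
    rw [div_mul_eq_mul_div, le_div_iff₀ hm₀0, mul_comm]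
    exact h2
  refine (sum_le_sum h1).trans ?_
  rw [sum_const, nsmul_eq_mul, card_univ, Fintype.card_fin]
  have h3 : (36 * s * t ^ 2 : ℝ) ≤ m₀ := by exact_mod_cast hm
  calc (s : ℝ) * ((9 * t ^ 2 : ℕ) / m₀ * (PP s (Om J t) Cs).card) = (9 * s * t ^ 2 / m₀) * (PP s (Om J t) Cs).card := by push_cast; ring
    _ ≤ 1 / 4 * (PP s (Om J t) Cs).card := by
        apply mul_le_mul_of_nonneg_right _ hP0
        rw [div_le_div_iff₀ hm₀0 (by norm_num)]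
        linarith

lemma B1_use (hδ : 0 < δ) (hY : 0 < Y) (x : Fin s → Ch t t') (hx : B1 b z Y e H NN δ x ≤ 1) (h : Fin s → ℤ) (hh' : h ∈ H) (N : ℕ) (hN : N ∈ NN)
    (j : Fin s) : |DD b z Y N e h j x| ≤ δ * Y := by
  have hY0 : (0 : ℝ) < Y := by exact_mod_cast hY
  have h1 : DD b z Y N e h j x ^ 2 / (δ ^ 2 * Y ^ 2) ≤ B1 b z Y e H NN δ x := by
    unfold B1
    refine le_trans ?_ (single_le_sum (f := fun h => ∑ N ∈ NN, ∑ j, DD b z Y N e h j x ^ 2 / (δ ^ 2 * Y ^ 2))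
      (fun h _ => sum_nonneg fun N _ => sum_nonneg fun j _ => by positivity) hh')
    refine le_trans ?_ (single_le_sum (f := fun N => ∑ j, DD b z Y N e h j x ^ 2 / (δ ^ 2 * Y ^ 2))
      (fun N _ => sum_nonneg fun j _ => by positivity) hN)
    exact single_le_sum (f := fun j => DD b z Y N e h j x ^ 2 / (δ ^ 2 * Y ^ 2)) (fun j _ => by positivity) (mem_univ j)
  have h2 := h1.trans hx
  rw [div_le_one (by positivity)] at h2
  apply abs_le_of_sq_le_sq _ (by positivity)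
  rw [mul_pow]
  exact h2

lemma B2_use (x : Fin s → Ch t t') (hx : B2 b e H x < 1) (h : Fin s → ℤ) (hh' : h ∈ H) (i j : Fin s) (hij : i ≠ j) :
    shf b e h x i ≠ shf b e h x j := by
  intro heq
  have h1 : (1 : ℝ) ≤ B2 b e H x := by
    unfold B2
    refine le_trans ?_ (single_le_sum (fun h _ => sum_nonneg fun j _ => ?_) hh')
    · refine le_trans ?_ (single_le_sum (fun p _ => ?_) (mem_filter.2 ⟨mem_univ (i, j), hij⟩))
      · rw [if_pos heq]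
      · split_ifs <;> norm_num
    · split_ifs <;> norm_num
  linarith

lemma B3_use (x : Fin s → Ch t t') (hx : B3 x < 1) (i : Fin s) : Function.Injective (x i).1 := by
  by_contra hni
  have h1 : (1 : ℝ) ≤ B3 x := by
    unfold B3
    refine le_trans ?_ (single_le_sum (fun p _ => ?_) (mem_univ i))
    · rw [if_neg hni]
    · split_ifs <;> norm_num
  linarith

end

/-- the sets of exponents -/
def expo {s t t' : ℕ} (x : Fin s → Ch t t') (i : Fin s) : Finset ℕ := univ.image (x i).1 ∪ univ.image (x i).2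

lemma expo_sum {s t t' : ℕ} (b : ℕ) (x : Fin s → Ch t t') (h : Fin s → ℤ) (i : Fin s) (J : Fin 3 → Finset ℕ) (J' : Fin t' → Finset ℕ)
    (h1 : ∀ c, (x i).1 c ∈ J c.1) (h2 : ∀ m, (x i).2 m ∈ J' m) (hdis : ∀ q m, Disjoint (J q) (J' m))
    (i1 : Function.Injective (x i).1) (i2 : Function.Injective (x i).2) :
    h i + ∑ ν ∈ expo x i, (b : ℤ) ^ ν = shf b (fun _ _ => 1) h x i := by
  unfold expo
  rw [sum_union, sum_image (fun c _ c' _ hcc => i1 hcc), sum_image (fun c _ c' _ hcc => i2 hcc)]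
  · unfold shf gam dl
    simp only [one_mul]
    ring
  · rw [disjoint_left]
    intro ν hν hν'
    rw [mem_image] at hν hν'
    obtain ⟨c, _, rfl⟩ := hν
    obtain ⟨m, _, hm⟩ := hν'
    have h3 := disjoint_left.1 (hdis c.1 m) (h1 c)
    apply h3
    rw [← hm]
    exact h2 m

lemma expo_card {s t t' : ℕ} (x : Fin s → Ch t t') (i : Fin s) : (expo x i).card ≤ 3 * t + t' := by
  unfold expo
  refine (card_union_le _ _).trans ?_
  have h1 := card_image_le (s := (univ : Finset (Fin 3 × Fin t))) (f := (x i).1)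
  have h2 := card_image_le (s := (univ : Finset (Fin t'))) (f := (x i).2)
  rw [card_univ, Fintype.card_prod, Fintype.card_fin, Fintype.card_fin] at h1
  rw [card_univ, Fintype.card_fin] at h2
  omega

lemma blk_inj {t' K R' : ℕ} (J' : Fin t' → Finset ℕ) (hB : Blk K R' J') (c : Fin t' → ℕ) (hc : ∀ m, c m ∈ J' m) : Function.Injective c := by
  intro m m' hmm
  by_contra hne
  rcases lt_or_gt_of_ne hne with h1 | h1
  · have := hB.sep m m' h1 _ (hc m) _ (hc m')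
    omega
  · have := hB.sep m' m h1 _ (hc m') _ (hc m)
    omega

lemma blk_card {t' K R' m₀ : ℕ} (J' : Fin t' → Finset ℕ) (hB : Blk K R' J') (hK : R' * m₀ + 1 ≤ K) (m : Fin t') : m₀ ≤ (J' m).card := by
  have h1 := hB.card m
  by_contra hcon
  push Not at hcon
  have h2 : R' * (J' m).card ≤ R' * m₀ := Nat.mul_le_mul_left _ hcon.le
  omega

theorem good_choice (hSB : S_SB) (hR : S_R) (hP : S_P) (b : ℕ) (hb : 2 ≤ b) (s : ℕ) (hs : 1 ≤ s) : ∃ B : ℕ,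
    ∀ (Ez n n' P₀ : ℕ) (δ : ℝ), 1 ≤ P₀ → 0 < δ → ∃ D k₀ : ℕ, ∀ K : ℕ, k₀ ≤ K → ∀ z : ℕ, 2 ≤ z →
    Real.log ((b ^ K : ℕ) : ℝ) ^ B ≤ z → (z : ℝ) ≤ Real.log ((b ^ K : ℕ) : ℝ) ^ Ez →
    ∀ H : Finset (Fin s → ℤ), H.card ≤ n → (∀ h ∈ H, ∀ i, |h i| ≤ ((b ^ K : ℕ) : ℤ)) →
    ∀ NN : Finset ℕ, NN.card ≤ n' → (∀ N ∈ NN, N ≤ b ^ K) →
    ∃ S : Fin s → Finset ℕ, (∀ i, S i ⊆ Ico P₀ (K - 1)) ∧ (∀ i, (S i).card ≤ D) ∧ (∀ i, (S i).Nonempty) ∧
      ∀ h ∈ H, (∀ i j, i ≠ j → h i + ∑ ν ∈ S i, (b : ℤ) ^ ν ≠ h j + ∑ ν ∈ S j, (b : ℤ) ^ ν) ∧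
        ∀ N ∈ NN, (∀ n : ℕ, n ∈ Icc 1 N → ∀ i, (n : ℤ) + (h i + ∑ ν ∈ S i, (b : ℤ) ^ ν) ≤ ((b ^ K : ℕ) : ℤ)) →
          |∑ n ∈ Icc 1 N, ArithmeticFunction.vonMangoldt n *
            (∏ i, lamI ((n : ℤ) + (h i + ∑ ν ∈ S i, (b : ℤ) ^ ν)) - ∏ i, lamzI z ((n : ℤ) + (h i + ∑ ν ∈ S i, (b : ℤ) ^ ν)))| ≤
            s * δ * ((b ^ K : ℕ) : ℝ) := by
  classical
  obtain ⟨R, A, B, hR1, hA3, havg⟩ := avgD hSB hR hP b hb
  refine ⟨B, fun Ez n n' P₀ δ hP₀ hδ => ?_⟩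
  obtain ⟨R', hR'1, hblk⟩ := blocks b hb R A (4 * s + 1) P₀ hR1 (by omega) hP₀
  obtain ⟨δ₀, hδ₀⟩ : ∃ δ₀ : ℝ, δ₀ = δ ^ 2 / (4 * (n * n' * s + 1)) := ⟨_, rfl⟩
  have hδ₀0 : 0 < δ₀ := by rw [hδ₀]; positivity
  obtain ⟨t, ht⟩ := havg s (4 * s + 1) R' Ez le_rfl δ₀ hδ₀0
  obtain ⟨k1, hk1⟩ := ht t le_rfl
  obtain ⟨m₀, hm₀1, hm₀2, hm₀3⟩ : ∃ m₀ : ℕ, 1 ≤ m₀ ∧ 4 * (n * s ^ 2) ≤ m₀ ∧ 36 * s * t ^ 2 ≤ m₀ :=
    ⟨4 * (n * s ^ 2) + 36 * s * t ^ 2 + 1, by omega, by omega, by omega⟩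
  obtain ⟨k2, hk2⟩ := hblk m₀
  refine ⟨3 * t + (4 * s + 1), k1 + k2 + R' * m₀ + 1, fun K hK z hz2 hzB hzE H hH hHb NN hNN hNb => ?_⟩
  obtain ⟨J, J', hPos, hBlk, hJs, hJ's, hdis, hdis', hJc⟩ := hk2 K (by omega)
  have he1 : ∀ (i : Fin s) (j : ℕ), ((fun _ _ => 1 : Fin s → ℕ → ℤ) i j) ≠ 0 ∧ |(fun _ _ => 1 : Fin s → ℕ → ℤ) i j| < b := by
    intro i j
    refine ⟨one_ne_zero, ?_⟩
    simp only [abs_one]
    exact_mod_cast (by omega : 1 < b)
  have hY0 : 0 < b ^ K := Nat.pow_pos (by omega)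
  have hD : ∀ h ∈ H, ∀ N ∈ NN, ∀ j : Fin s, ∑ x ∈ PP s (Om J t) (Fintype.piFinset J'), DD b z (b ^ K) N (fun _ _ => 1) h j x ^ 2 ≤
      δ₀ * ((b ^ K : ℕ) : ℝ) ^ 2 * (PP s (Om J t) (Fintype.piFinset J')).card := by
    intro h hh' N hN j
    exact hk1 K (by omega) z hz2 hzB hzE (fun _ _ => 1) he1 J hPos J' hBlk h (hHb h hh') N (hNb N hN) j
  have hJ'c : ∀ m, m₀ ≤ (J' m).card := blk_card J' hBlk (by omega)
  have hCc : m₀ ≤ (Fintype.piFinset J').card := by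
    rw [Fintype.card_piFinset]
    have h1 : ∏ _m : Fin (4 * s + 1), m₀ ≤ ∏ m : Fin (4 * s + 1), (J' m).card := prod_le_prod' (fun m _ => hJ'c m)
    rw [prod_const, card_univ, Fintype.card_fin] at h1
    exact (Nat.le_self_pow (by omega) m₀).trans h1
  have hCn : (Fintype.piFinset J').Nonempty := card_pos.1 (by omega)
  have hΩn : (Om J t).Nonempty := by
    unfold Om
    rw [Fintype.piFinset_nonempty]
    intro c
    have := hJc c.1
    exact card_pos.1 (by omega)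
  have hPn : (PP s (Om J t) (Fintype.piFinset J')).Nonempty := by
    unfold PP
    rw [Fintype.piFinset_nonempty]
    intro _
    exact hΩn.product hCn
  obtain ⟨x, hx, hx1⟩ := exists_small (PP s (Om J t) (Fintype.piFinset J')) hPn
    (B1 b z (b ^ K) (fun _ _ => 1) H NN δ) (B2 b (fun _ _ => 1) H) B3
    (B1_sum b z (b ^ K) (fun _ _ => 1) H NN δ _ n n' hH hNN hδ hY0 δ₀ hδ₀ hD)
    (B2_sum b (fun _ _ => 1) H (Om J t) (Fintype.piFinset J') n m₀ hH hm₀1 hm₀2 hCc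
      (fun i v => gam_zero b hb _ (he1 i) J' hBlk.sep v))
    (B3_sum J (Fintype.piFinset J') m₀ hm₀1 hm₀3 hJc)
  have n1 := B1_nonneg b z (b ^ K) (fun _ _ => 1) H NN δ x
  have n2 := B2_nonneg b (fun _ _ => 1) H x
  have n3 := B3_nonneg x
  have u1 : B1 b z (b ^ K) (fun _ _ => 1) H NN δ x ≤ 1 := by linarith
  have u2 : B2 b (fun _ _ => 1) H x < 1 := by linarith
  have u3 : B3 x < 1 := by linarith
  clear hx1 n1 n2 n3 hD
  unfold PP at hx
  rw [Fintype.mem_piFinset] at hx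
  have hω : ∀ i, ∀ c, (x i).1 c ∈ J c.1 := by
    intro i c
    have := (mem_product.1 (hx i)).1
    unfold Om at this
    exact Fintype.mem_piFinset.1 this c
  have hc : ∀ i, ∀ m, (x i).2 m ∈ J' m := by
    intro i m
    exact Fintype.mem_piFinset.1 (mem_product.1 (hx i)).2 m
  have hSsum : ∀ h : Fin s → ℤ, ∀ i, h i + ∑ ν ∈ expo x i, (b : ℤ) ^ ν = shf b (fun _ _ => 1) h x i := by
    intro h i
    exact expo_sum b x h i J J' (hω i) (hc i) hdis (B3_use x u3 i) (blk_inj J' hBlk _ (hc i))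
  refine ⟨expo x, ?_, fun i => expo_card x i, ?_, ?_⟩
  · intro i ν hν
    unfold expo at hν
    rw [mem_union, mem_image, mem_image] at hν
    rcases hν with ⟨c, _, rfl⟩ | ⟨m, _, rfl⟩
    · exact hJs _ (hω i c)
    · exact hJ's _ (hc i m)
  · intro i
    unfold expo
    apply Nonempty.inr
    rw [image_nonempty]
    exact ⟨⟨0, by omega⟩, mem_univ _⟩
  · intro h hh'
    refine ⟨fun i j hij => ?_, fun N hN hle => ?_⟩
    · rw [hSsum, hSsum]
      exact B2_use b (fun _ _ => 1) H x u2 h hh' i j hij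
    · have e1 : ∀ n : ℕ, ∀ i, (n : ℤ) + (h i + ∑ ν ∈ expo x i, (b : ℤ) ^ ν) = n + shf b (fun _ _ => 1) h x i := by
        intro n i
        rw [hSsum]
      have e2 : ∑ n ∈ Icc 1 N, ArithmeticFunction.vonMangoldt n *
            (∏ i, lamI ((n : ℤ) + (h i + ∑ ν ∈ expo x i, (b : ℤ) ^ ν)) - ∏ i, lamzI z ((n : ℤ) + (h i + ∑ ν ∈ expo x i, (b : ℤ) ^ ν))) =
          ∑ j, DD b z (b ^ K) N (fun _ _ => 1) h j x := by
        rw [← tele b z (b ^ K) N (fun _ _ => 1) h x (fun n hn i => by rw [← e1]; exact hle n hn i)]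
        apply sum_congr rfl
        intro n _
        rw [prod_congr rfl (fun i _ => by rw [e1 n i] : ∀ i ∈ (univ : Finset (Fin s)), lamI ((n : ℤ) + (h i + ∑ ν ∈ expo x i, (b : ℤ) ^ ν)) =
          lamI ((n : ℤ) + shf b (fun _ _ => 1) h x i)),
          prod_congr rfl (fun i _ => by rw [e1 n i] : ∀ i ∈ (univ : Finset (Fin s)), lamzI z ((n : ℤ) + (h i + ∑ ν ∈ expo x i, (b : ℤ) ^ ν)) =
          lamzI z ((n : ℤ) + shf b (fun _ _ => 1) h x i))]
      rw [e2]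
      refine (abs_sum_le_sum_abs _ _).trans ?_
      refine (sum_le_sum fun j _ => B1_use b z (b ^ K) (fun _ _ => 1) H NN δ hδ hY0 x u1 h hh' N hN j).trans (le_of_eq ?_)
      rw [sum_const, nsmul_eq_mul, card_univ, Fintype.card_fin]
      ring

end Pool.Agent.Y820.LT
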