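import Mathlib

set_option autoImplicit false

/-! Linear algebra and averages for the project LT. -/

namespace Pool.Agent.Y820.LT
open Finset

lemma gram_id {α γ κ : Type*} (I : Finset κ) (Bs : Finset α) (Cs : Finset γ) (u : γ → κ → ℝ) (v : α → κ → ℝ) :
    ∑ b ∈ Bs, ∑ c ∈ Cs, (∑ n ∈ I, u c n * v b n) ^ 2 =
      ∑ p ∈ I ×ˢ I, (∑ c ∈ Cs, u c p.1 * u c p.2) * (∑ b ∈ Bs, v b p.1 * v b p.2) := by
  have h : ∀ p ∈ I ×ˢ I, (∑ c ∈ Cs, u c p.1 * u c p.2) * (∑ b ∈ Bs, v b p.1 * v b p.2) =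
      ∑ b ∈ Bs, ∑ c ∈ Cs, (u c p.1 * v b p.1) * (u c p.2 * v b p.2) := by
    intro p _
    rw [mul_comm, sum_mul_sum]
    apply sum_congr rfl
    intro b _
    apply sum_congr rfl
    intro c _
    ring
  rw [sum_congr rfl h]
  conv_rhs => rw [sum_comm]
  apply sum_congr rfl
  intro b _
  conv_rhs => rw [sum_comm]
  apply sum_congr rfl
  intro c _
  rw [sum_product, sq, sum_mul_sum]

/-- the inequality of Cauchy and Schwarz for two Gram matrices -/
lemma gram {α γ κ : Type*} (I : Finset κ) (Bs : Finset α) (Cs : Finset γ) (u : γ → κ → ℝ) (v : α → κ → ℝ) :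
    (∑ b ∈ Bs, ∑ c ∈ Cs, (∑ n ∈ I, u c n * v b n) ^ 2) ^ 2 ≤
      (∑ c ∈ Cs, ∑ c' ∈ Cs, (∑ n ∈ I, u c n * u c' n) ^ 2) *
        (∑ b ∈ Bs, ∑ b' ∈ Bs, (∑ n ∈ I, v b n * v b' n) ^ 2) := by
  classical
  have k1 : ∑ c ∈ Cs, ∑ c' ∈ Cs, (∑ n ∈ I, u c n * u c' n) ^ 2 =
        ∑ p ∈ I ×ˢ I, (∑ c ∈ Cs, u c p.1 * u c p.2) ^ 2 := by
    rw [sum_comm, gram_id I Cs Cs u u]
    exact sum_congr rfl fun p _ => (sq _).symm
  have k2 : ∑ b ∈ Bs, ∑ b' ∈ Bs, (∑ n ∈ I, v b n * v b' n) ^ 2 =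
        ∑ p ∈ I ×ˢ I, (∑ b ∈ Bs, v b p.1 * v b p.2) ^ 2 := by
    rw [sum_comm, gram_id I Bs Bs v v]
    exact sum_congr rfl fun p _ => (sq _).symm
  rw [gram_id, k1, k2]
  exact sum_mul_sq_le_sq_mul_sq _ _ _

/-- averaging over one coordinate -/
lemma upd_sum {ι : Type*} [Fintype ι] [DecidableEq ι] {A : ι → Type*} [∀ i, DecidableEq (A i)] (Ω : ∀ i, Finset (A i)) (i : ι)
    (Φ : (∀ i, A i) → ℝ) :
    ∑ x ∈ Fintype.piFinset Ω, ∑ y ∈ Ω i, Φ (Function.update x i y) = (Ω i).card * ∑ x ∈ Fintype.piFinset Ω, Φ x := by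
  classical
  rw [sum_comm]
  have h : ∀ y ∈ Ω i, ∀ x ∈ Fintype.piFinset Ω, Function.update x i y ∈ Fintype.piFinset Ω := by
    intro y hy x hx
    rw [Fintype.mem_piFinset] at hx ⊢
    intro k
    by_cases hk : k = i
    · subst hk; simpa using hy
    · rw [Function.update_of_ne hk]; exact hx k
  rw [← nsmul_eq_mul, ← sum_const]
  -- both sides are sums over pairs; exchange the coordinate
  rw [← sum_product', ← sum_product' (Ω i) (Fintype.piFinset Ω) (fun _ x => Φ x)]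
  refine sum_bij' (fun p _ => (p.2 i, Function.update p.2 i p.1)) (fun p _ => (p.2 i, Function.update p.2 i p.1)) ?_ ?_ ?_ ?_ ?_
  · intro p hp
    rw [mem_product] at hp ⊢
    exact ⟨(Fintype.mem_piFinset.1 hp.2) i, h _ hp.1 _ hp.2⟩
  · intro p hp
    rw [mem_product] at hp ⊢
    exact ⟨(Fintype.mem_piFinset.1 hp.2) i, h _ hp.1 _ hp.2⟩
  · intro p _
    simp
  · intro p _
    simp
  · intro p _
    rfl

/-- the telescoping identity -/
lemma telescope {s : ℕ} (u v : Fin s → ℝ) :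
    ∏ i, u i - ∏ i, v i = ∑ j, (u j - v j) * ∏ i ∈ univ.erase j, (if j < i then u i else v i) := by
  classical
  have h := Finset.prod_sub_ordered (univ : Finset (Fin s)) u (fun i => u i - v i)
  have e : ∏ i : Fin s, (u i - (u i - v i)) = ∏ i, v i := by
    apply prod_congr rfl
    intro i _
    ring
  rw [e] at h
  rw [h, sub_sub_cancel]
  apply sum_congr rfl
  intro j _
  have h1 : (univ.erase j : Finset (Fin s)) = (univ.filter (fun i => i < j)) ∪ (univ.filter (fun i => j < i)) := by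
    ext i
    simp only [mem_erase, mem_univ, and_true, mem_union, mem_filter, true_and]
    exact ne_iff_lt_or_gt
  have h2 : Disjoint (univ.filter (fun i : Fin s => i < j)) (univ.filter (fun i => j < i)) := by
    rw [disjoint_filter]
    intro i _ h3 h4
    exact absurd h3 (not_lt.2 h4.le)
  rw [h1, prod_union h2, mul_assoc]
  congr 1
  congr 1
  · apply prod_congr rfl
    intro i hi
    rw [mem_filter] at hi
    rw [if_neg (not_lt.2 hi.2.le)]
    ring
  · apply prod_congr rfl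
    intro i hi
    rw [mem_filter] at hi
    rw [if_pos hi.2]

/-- a product is at most the sum of the powers -/
lemma prod_le_sum_pow {κ : Type*} (S : Finset κ) (hS : S.Nonempty) (x : κ → ℝ) (hx : ∀ p ∈ S, 0 ≤ x p) :
    ∏ p ∈ S, x p ≤ ∑ p ∈ S, x p ^ S.card := by
  classical
  obtain ⟨q, hq, hmax⟩ := S.exists_max_image x hS
  have h1 : ∏ p ∈ S, x p ≤ ∏ _p ∈ S, x q := prod_le_prod hx (fun p hp => hmax p hp)
  rw [prod_const] at h1
  refine h1.trans ?_
  exact single_le_sum (f := fun p => x p ^ S.card) (fun p hp => pow_nonneg (hx p hp) _) hq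

end Pool.Agent.Y820.LT
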