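import Pool.Agent.Y820.LT.Stm
import Pool.Agent.Y820.LT.Gram

set_option autoImplicit false

/-! The random shifts and averages over them. -/

namespace Pool.Agent.Y820.LT
open Finset
open Pool.Agent.H373R2.T7 (lamI lamzI lamz Vz singZ tupleCount Admissible)
open Pool.Agent.W93.HD (gg)
open Pool.Agent.W93.DG (hh)
open Pool.Agent.TH894.SM (dl Om Pos)

/-- the sum of the powers at the positions of a family -/
def gam (b : ℕ) (e : ℕ → ℤ) {ι : Type} [Fintype ι] (c : ι → ℕ) : ℤ := ∑ m, dl b e (c m)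

/-- blocks of positions -/
structure Blk (K R' : ℕ) {t' : ℕ} (J' : Fin t' → Finset ℕ) : Prop where
  sub : ∀ m, J' m ⊆ range K
  card : ∀ m, K ≤ R' * (J' m).card
  sep : ∀ m m', m < m' → ∀ j ∈ J' m, ∀ j' ∈ J' m', j + 2 ≤ j'

lemma gam_dvd (b : ℕ) (e : ℕ → ℤ) {t' : ℕ} (c : Fin t' → ℕ) (l : ℕ) (h : ∀ m, l ≤ c m) : (b : ℤ) ^ l ∣ gam b e c := by
  unfold gam dl
  apply dvd_sum
  intro m _
  exact Dvd.dvd.mul_left (pow_dvd_pow _ (h m)) _

lemma mono_eq (b : ℕ) (hb : 2 ≤ b) (x y : ℤ) (hx : x ≠ 0 ∧ |x| < b) (hy : y ≠ 0 ∧ |y| < b) (i j : ℕ)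
    (h : x * (b : ℤ) ^ i = y * (b : ℤ) ^ j) : i = j := by
  have hb1 : (1 : ℤ) ≤ b := by exact_mod_cast (by omega : 1 ≤ b)
  have key : ∀ (x y : ℤ) (i j : ℕ), x ≠ 0 → |x| < b → y ≠ 0 → x * (b : ℤ) ^ i = y * (b : ℤ) ^ j → ¬ i < j := by
    intro x y i j hx0 hx hy0 h hij
    obtain ⟨d, rfl⟩ : ∃ d, j = i + (d + 1) := ⟨j - i - 1, by omega⟩
    have h1 : (b : ℤ) ^ i ≠ 0 := by positivity
    rw [pow_add] at h
    have h2 : x = y * (b : ℤ) ^ (d + 1) := by
      apply mul_right_cancel₀ h1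
      rw [h]; ring
    have h3 : |x| = |y| * (b : ℤ) ^ (d + 1) := by
      rw [h2, abs_mul, abs_of_nonneg (show (0 : ℤ) ≤ (b : ℤ) ^ (d + 1) by positivity)]
    have h4 : 1 ≤ |y| := Int.one_le_abs hy0
    have h5 : (b : ℤ) ≤ (b : ℤ) ^ (d + 1) := le_self_pow₀ hb1 (by omega)
    have h6 : (b : ℤ) ≤ |y| * (b : ℤ) ^ (d + 1) := by nlinarith
    omega
  rcases lt_trichotomy i j with hij | hij | hij
  · exact absurd hij (key x y i j hx.1 hx.2 hy.1 h)
  · exact hij
  · exact absurd hij (key y x j i hy.1 hy.2 hx.1 h.symm)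

lemma gam_inj (b : ℕ) (hb : 2 ≤ b) (e : ℕ → ℤ) (he : ∀ j, e j ≠ 0 ∧ |e j| < b) :
    ∀ {t' : ℕ} (J' : Fin t' → Finset ℕ), (∀ m m', m < m' → ∀ j ∈ J' m, ∀ j' ∈ J' m', j + 2 ≤ j') →
      ∀ c ∈ Fintype.piFinset J', ∀ c' ∈ Fintype.piFinset J', gam b e c = gam b e c' → c = c' := by
  intro t'
  induction t' with
  | zero =>
    intro J' _ c _ c' _ _
    exact Subsingleton.elim _ _
  | succ n ih =>
    intro J' hsep c hc c' hc' hg
    rw [Fintype.mem_piFinset] at hc hc'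
    have hb1 : (1 : ℤ) ≤ b := by exact_mod_cast (by omega : 1 ≤ b)
    have hb0 : (2 : ℤ) ≤ b := by exact_mod_cast hb
    have e1 : ∀ c : Fin (n + 1) → ℕ, gam b e c = dl b e (c 0) + gam b e (fun m : Fin n => c m.succ) := by
      intro c
      unfold gam
      rw [Fin.sum_univ_succ]
    rw [e1 c, e1 c'] at hg
    set l := max (c 0) (c' 0) + 2 with hl
    have d1 : (b : ℤ) ^ l ∣ gam b e (fun m : Fin n => c m.succ) := by
      apply gam_dvd
      intro m
      have h1 := hsep 0 m.succ (Fin.succ_pos m) _ (hc 0) _ (hc m.succ)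
      have h2 := hsep 0 m.succ (Fin.succ_pos m) _ (hc' 0) _ (hc m.succ)
      omega
    have d2 : (b : ℤ) ^ l ∣ gam b e (fun m : Fin n => c' m.succ) := by
      apply gam_dvd
      intro m
      have h1 := hsep 0 m.succ (Fin.succ_pos m) _ (hc 0) _ (hc' m.succ)
      have h2 := hsep 0 m.succ (Fin.succ_pos m) _ (hc' 0) _ (hc' m.succ)
      omega
    have d3 : (b : ℤ) ^ l ∣ dl b e (c 0) - dl b e (c' 0) := by
      have : dl b e (c 0) - dl b e (c' 0) = gam b e (fun m : Fin n => c' m.succ) - gam b e (fun m : Fin n => c m.succ) := by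
        linarith
      rw [this]
      exact dvd_sub d2 d1
    have hsz : ∀ j, j + 2 ≤ l → |dl b e j| < (b : ℤ) ^ (l - 1) := by
      intro j hj
      unfold dl
      rw [abs_mul, abs_of_nonneg (show (0 : ℤ) ≤ (b : ℤ) ^ j by positivity)]
      calc |e j| * (b : ℤ) ^ j < b * (b : ℤ) ^ j := by
            apply mul_lt_mul_of_pos_right (he j).2 (by positivity)
        _ = (b : ℤ) ^ (j + 1) := by ring
        _ ≤ (b : ℤ) ^ (l - 1) := pow_le_pow_right₀ hb1 (by omega)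
    have h3 : |dl b e (c 0) - dl b e (c' 0)| < (b : ℤ) ^ l := by
      have h4 := hsz (c 0) (by omega)
      have h5 := hsz (c' 0) (by omega)
      have h6 := abs_sub (dl b e (c 0)) (dl b e (c' 0))
      have h7 : 2 * (b : ℤ) ^ (l - 1) ≤ (b : ℤ) ^ l := by
        have : (b : ℤ) ^ l = b * (b : ℤ) ^ (l - 1) := by rw [← pow_succ']; congr 1 <;> omega
        rw [this]
        exact mul_le_mul_of_nonneg_right hb0 (by positivity)
      linarith
    have h4 := Int.eq_zero_of_abs_lt_dvd d3 h3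
    have h5 : dl b e (c 0) = dl b e (c' 0) := by linarith
    have h6 : c 0 = c' 0 := mono_eq b hb _ _ (he _) (he _) _ _ h5
    have h7 : (fun m : Fin n => c m.succ) = fun m : Fin n => c' m.succ := by
      apply ih (fun m => J' m.succ) (fun m m' hm => hsep _ _ (Fin.succ_lt_succ_iff.2 hm))
      · rw [Fintype.mem_piFinset]; exact fun m => hc m.succ
      · rw [Fintype.mem_piFinset]; exact fun m => hc' m.succ
      · linarith
    funext m
    refine Fin.cases h6 (fun m => ?_) m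
    exact congrFun h7 m

/-- a value is taken at most once -/
lemma gam_zero (b : ℕ) (hb : 2 ≤ b) (e : ℕ → ℤ) (he : ∀ j, e j ≠ 0 ∧ |e j| < b) {t' : ℕ} (J' : Fin t' → Finset ℕ)
    (hsep : ∀ m m', m < m' → ∀ j ∈ J' m, ∀ j' ∈ J' m', j + 2 ≤ j') (v : ℤ) :
    ∑ c ∈ Fintype.piFinset J', (if gam b e c + v = 0 then (1 : ℝ) else 0) ≤ 1 := by
  classical
  rw [← sum_filter, sum_const, nsmul_eq_mul, mul_one]
  have : ((Fintype.piFinset J').filter (fun c => gam b e c + v = 0)).card ≤ 1 := by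
    rw [card_le_one]
    intro c hc c' hc'
    rw [mem_filter] at hc hc'
    exact gam_inj b hb e he J' hsep c hc.1 c' hc'.1 (by linarith [hc.2, hc'.2])
  exact_mod_cast this

lemma dl_le (b : ℕ) (e : ℕ → ℤ) (he : ∀ j, e j ≠ 0 ∧ |e j| < b) (K j : ℕ) (hb : 1 ≤ b) (hj : j < K) : |dl b e j| ≤ (b : ℤ) ^ K := by
  unfold dl
  rw [abs_mul, abs_of_nonneg (show (0 : ℤ) ≤ (b : ℤ) ^ j by positivity)]
  calc |e j| * (b : ℤ) ^ j ≤ b * (b : ℤ) ^ j := mul_le_mul_of_nonneg_right (he j).2.le (by positivity)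
    _ = (b : ℤ) ^ (j + 1) := by ring
    _ ≤ (b : ℤ) ^ K := pow_le_pow_right₀ (by exact_mod_cast hb) hj

lemma gam_le (b : ℕ) (e : ℕ → ℤ) (he : ∀ j, e j ≠ 0 ∧ |e j| < b) (K : ℕ) (hb : 1 ≤ b) {ι : Type} [Fintype ι] (c : ι → ℕ)
    (hc : ∀ m, c m < K) : |gam b e c| ≤ Fintype.card ι * (b : ℤ) ^ K := by
  unfold gam
  refine (abs_sum_le_sum_abs _ _).trans ?_
  refine (sum_le_sum fun m _ => dl_le b e he K _ hb (hc m)).trans ?_
  rw [sum_const, nsmul_eq_mul, card_univ]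

/-- Romanoff's sum over the sums of the second kind -/
lemma gam_rom (hR : S_R) (b : ℕ) (hb : 2 ≤ b) (κ : ℕ) : ∃ C : ℝ, 0 ≤ C ∧ ∀ (t' : ℕ), 1 ≤ t' → ∀ K : ℕ, 2 ≤ K →
    (t' : ℤ) ≤ b ^ (K - 1) → ∀ e : ℕ → ℤ, (∀ j, e j ≠ 0 ∧ |e j| < b) → ∀ (R' : ℕ) (J' : Fin t' → Finset ℕ), Blk K R' J' →
    ∀ v : ℤ, |v| ≤ (b : ℤ) ^ (2 * K - 1) →
    ∑ c ∈ Fintype.piFinset J', (if gam b e c + v = 0 then 0 else gg (gam b e c + v).natAbs ^ κ) ≤
      C * R' * (Fintype.piFinset J').card := by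
  classical
  obtain ⟨C, hC, h⟩ := hR b hb κ
  refine ⟨C, hC, fun t' ht' K hK htK e he R' J' hJ v hv => ?_⟩
  have hb0 : (2 : ℤ) ≤ b := by exact_mod_cast hb
  obtain ⟨i0, hi0⟩ : ∃ i : Fin t', i = ⟨0, ht'⟩ := ⟨_, rfl⟩
  have h1 := upd_sum J' i0 (fun c => if gam b e c + v = 0 then 0 else gg (gam b e c + v).natAbs ^ κ)
  have hsplit : ∀ (c : Fin t' → ℕ) (y : ℕ), gam b e (Function.update c i0 y) = e y * (b : ℤ) ^ y + ∑ m ∈ univ.erase i0, dl b e (c m) := by
    intro c y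
    unfold gam
    rw [← add_sum_erase univ _ (mem_univ i0)]
    congr 1
    · simp [dl]
    · apply sum_congr rfl
      intro m hm
      rw [Function.update_of_ne (ne_of_mem_erase hm)]
  have h2 : ∀ c ∈ Fintype.piFinset J', ∑ y ∈ J' i0, (if gam b e (Function.update c i0 y) + v = 0 then 0 else
      gg (gam b e (Function.update c i0 y) + v).natAbs ^ κ) ≤ C * R' * (J' i0).card := by
    intro c hc
    rw [Fintype.mem_piFinset] at hc
    have h3 : |∑ m ∈ univ.erase i0, dl b e (c m) + v| ≤ (b : ℤ) ^ (2 * K) := by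
      refine (abs_add_le _ _).trans ?_
      have h4 : |∑ m ∈ univ.erase i0, dl b e (c m)| ≤ t' * (b : ℤ) ^ K := by
        refine (abs_sum_le_sum_abs _ _).trans ?_
        refine (sum_le_sum fun m _ => dl_le b e he K _ (by omega) (mem_range.1 (hJ.sub m (hc m)))).trans ?_
        rw [sum_const, nsmul_eq_mul]
        apply mul_le_mul_of_nonneg_right _ (by positivity)
        have := card_le_card (erase_subset i0 (univ : Finset (Fin t')))
        rw [card_univ, Fintype.card_fin] at this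
        exact_mod_cast this
      have h5 : (t' : ℤ) * (b : ℤ) ^ K ≤ (b : ℤ) ^ (2 * K - 1) := by
        calc (t' : ℤ) * (b : ℤ) ^ K ≤ (b : ℤ) ^ (K - 1) * (b : ℤ) ^ K := mul_le_mul_of_nonneg_right htK (by positivity)
          _ = _ := by rw [← pow_add]; congr 1; omega
      have h6 : 2 * (b : ℤ) ^ (2 * K - 1) ≤ (b : ℤ) ^ (2 * K) := by
        have : (b : ℤ) ^ (2 * K) = b * (b : ℤ) ^ (2 * K - 1) := by rw [← pow_succ']; congr 1; omega
        rw [this]
        exact mul_le_mul_of_nonneg_right hb0 (by positivity)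
      linarith
    have h4 := h K hK e he (J' i0) (hJ.sub i0) _ h3
    have h5 : ∀ y, gam b e (Function.update c i0 y) + v = e y * (b : ℤ) ^ y + (∑ m ∈ univ.erase i0, dl b e (c m) + v) := by
      intro y
      rw [hsplit]; ring
    simp only [h5]
    refine h4.trans ?_
    rw [mul_assoc]
    apply mul_le_mul_of_nonneg_left _ hC
    exact_mod_cast hJ.card i0
  have h3 := sum_le_sum h2
  rw [h1, sum_const, nsmul_eq_mul] at h3
  rcases (J' i0).eq_empty_or_nonempty with h4 | h4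
  · have h5 : Fintype.piFinset J' = ∅ := by
      rw [Fintype.piFinset_eq_empty]
      exact ⟨i0, h4⟩
    rw [h5]
    simp
  · have h5 : (0 : ℝ) < (J' i0).card := by exact_mod_cast card_pos.2 h4
    refine le_of_mul_le_mul_left (h3.trans (le_of_eq ?_)) h5
    ring

end Pool.Agent.Y820.LT
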