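import Pool.Agent.Y820.LT.Stm
import Pool.Agent.TH892.SW.S2

set_option autoImplicit false

/-! The upper bound of the sieve: pointwise bounds. -/

namespace Pool.Agent.Y820.LT.SB
open Finset
open Pool.Agent.H373R2.T7
open Pool.Agent.W93.HD
open Pool.Agent.W41 (JJ JJ_small)

/-- the choice of the level -/
lemma root (m n : ℕ) (hm : 2 ≤ m) : ∃ Y₀ : ℕ, ∀ Y : ℕ, Y₀ ≤ Y → ∃ y : ℕ, n ≤ y ∧ 2 ≤ y ∧ y ^ m ≤ Y ∧ Real.log Y ≤ 2 * m * Real.log y := by
  refine ⟨(n + 2) ^ m, fun Y hY => ?_⟩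
  have h0 : n + 2 ≤ (n + 2) ^ m := Nat.le_self_pow (by omega) _
  obtain ⟨y, hy⟩ : ∃ y, y = Nat.findGreatest (fun y => y ^ m ≤ Y) Y := ⟨_, rfl⟩
  have h1 : n + 2 ≤ y := by
    rw [hy]
    exact Nat.le_findGreatest (by omega) hY
  have h2 : y ^ m ≤ Y := by
    rw [hy]
    exact Nat.findGreatest_spec (P := fun y => y ^ m ≤ Y) (m := n + 2) (by omega) hY
  have h3 : Y < (y + 1) ^ m := by
    by_contra hcon
    push Not at hcon
    have h4 : y + 1 ≤ Y := by
      calc y + 1 ≤ (y + 1) ^ m := Nat.le_self_pow (by omega) _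
        _ ≤ Y := hcon
    have h5 : y + 1 ≤ Nat.findGreatest (fun y => y ^ m ≤ Y) Y := Nat.le_findGreatest h4 hcon
    omega
  refine ⟨y, by omega, by omega, h2, ?_⟩
  have hy0 : (0 : ℝ) < y := by exact_mod_cast (by omega : 0 < y)
  have hY0 : (0 : ℝ) < Y := by
    have : 0 < y ^ m := Nat.pow_pos (by omega)
    exact_mod_cast (by omega : 0 < Y)
  have h6 : y + 1 ≤ y ^ 2 := by
    have : 2 * y ≤ y ^ 2 := by rw [sq]; exact Nat.mul_le_mul_right _ (by omega)
    omega
  have h7 : Y ≤ (y ^ 2) ^ m := h3.le.trans (Nat.pow_le_pow_left h6 m)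
  calc Real.log Y ≤ Real.log (((y ^ 2) ^ m : ℕ) : ℝ) := Real.log_le_log hY0 (by exact_mod_cast h7)
    _ = 2 * m * Real.log y := by
        push_cast
        rw [Real.log_pow, Real.log_pow]
        push_cast
        ring

/-- no prime factor up to `y` -/
def cop (y : ℕ) (m : ℤ) : Prop := ∀ p ∈ pz y, ¬ (p : ℤ) ∣ m

/-- the small prime powers -/
def Ew (W y : ℕ) : Finset ℕ := (Icc 1 y ×ˢ Icc 1 (Nat.log 2 W)).image (fun p => p.1 ^ p.2)

lemma card_Ew (W y : ℕ) : (Ew W y).card ≤ y * Nat.log 2 W := by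
  unfold Ew
  refine card_image_le.trans ?_
  rw [card_product, Nat.card_Icc, Nat.card_Icc, Nat.add_sub_cancel, Nat.add_sub_cancel]

lemma mem_Ew (W y m : ℕ) (hm : 1 ≤ m) (hmW : m ≤ W) (hL : ArithmeticFunction.vonMangoldt m ≠ 0) (hc : ¬ cop y (m : ℤ)) : m ∈ Ew W y := by
  rw [ArithmeticFunction.vonMangoldt_ne_zero_iff, isPrimePow_nat_iff] at hL
  obtain ⟨p, k, hp, hk, rfl⟩ := hL
  unfold cop at hc
  push Not at hc
  obtain ⟨q, hq, hd⟩ := hc
  rw [mem_pz] at hq
  have h1 : q ∣ p ^ k := by exact_mod_cast hd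
  have h2 := (Nat.prime_dvd_prime_iff_eq hq.2 hp).1 (hq.2.dvd_of_dvd_pow h1)
  subst h2
  unfold Ew
  rw [mem_image]
  refine ⟨(q, k), ?_, rfl⟩
  rw [mem_product, mem_Icc, mem_Icc]
  refine ⟨⟨hp.one_le, hq.1⟩, hk, ?_⟩
  apply Nat.le_log_of_pow_le (by norm_num)
  exact (Nat.pow_le_pow_left hp.two_le k).trans hmW

open Classical in
/-- the pointwise bound for the von Mangoldt function -/
lemma lamI_le (W y : ℕ) (hW : 1 ≤ W) (m : ℤ) (hm : m ≤ W) : lamI m ≤ Real.log W * ((if cop y m then (1 : ℝ) else 0) + (if m.toNat ∈ Ew W y then 1 else 0)) := by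
  have hL : 0 ≤ Real.log (W : ℝ) := Real.log_natCast_nonneg W
  have h0 : 0 ≤ Real.log (W : ℝ) * ((if cop y m then (1 : ℝ) else 0) + (if m.toNat ∈ Ew W y then 1 else 0)) := by
    apply mul_nonneg hL
    split_ifs <;> norm_num
  rcases lt_or_ge m 1 with h1 | h1
  · unfold lamI
    rw [if_neg (by omega)]
    exact h0
  · obtain ⟨n, hn⟩ : ∃ n : ℕ, (n : ℤ) = m := ⟨m.toNat, Int.toNat_of_nonneg (by omega)⟩
    subst hn
    unfold lamI
    rw [if_pos h1]
    rw [Int.toNat_natCast] at h0 ⊢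
    by_cases h2 : ArithmeticFunction.vonMangoldt n = 0
    · rw [h2]; exact h0
    · have h3 : ArithmeticFunction.vonMangoldt n ≤ Real.log W := by
        refine ArithmeticFunction.vonMangoldt_le_log.trans ?_
        apply Real.log_le_log
        · exact_mod_cast (by omega : 0 < n)
        · exact_mod_cast hm
      by_cases h4 : cop y (n : ℤ)
      · rw [if_pos h4]
        have h5 : (0 : ℝ) ≤ (if n ∈ Ew W y then 1 else 0) := by split_ifs <;> norm_num
        nlinarith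
      · rw [if_neg h4, if_pos (mem_Ew W y n (by omega) (by exact_mod_cast hm) h2 h4)]
        linarith

open Classical in
lemma lamzI_le (z : ℕ) (m : ℤ) : lamzI z m ≤ (Vz z)⁻¹ * (if cop z m then (1 : ℝ) else 0) := by
  have hV := inv_pos.2 (Vz_pos z)
  unfold lamzI lamz
  split_ifs with h1 h2 h3 h3
  · linarith
  · exfalso
    apply h3
    intro p hp hd
    apply h2 p hp
    have : (p : ℤ) ∣ (m.toNat : ℤ) := by rw [Int.toNat_of_nonneg (by omega)]; exact hd
    exact_mod_cast this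
  · linarith
  · linarith
  · linarith
  · linarith

/-- a product of sums of two numbers from `{0, 1}` -/
lemma prod01 {ι : Type} [Fintype ι] [DecidableEq ι] (r e : ι → ℝ) (hr : ∀ i, r i = 0 ∨ r i = 1) (he : ∀ i, e i = 0 ∨ e i = 1) :
    ∏ i, (r i + e i) ≤ ∏ i, r i + 2 ^ Fintype.card ι * ∑ i, e i := by
  have he0 : ∀ i, 0 ≤ e i := fun i => by rcases he i with h | h <;> rw [h]; norm_num
  have hr0 : ∀ i, 0 ≤ r i := fun i => by rcases hr i with h | h <;> rw [h]; norm_num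
  by_cases h : ∀ i, e i = 0
  · have h1 : ∑ i, e i = 0 := sum_eq_zero fun i _ => h i
    rw [h1, mul_zero, add_zero]
    apply le_of_eq
    apply prod_congr rfl
    intro i _
    rw [h i, add_zero]
  · push Not at h
    obtain ⟨j, hj⟩ := h
    have hj1 : e j = 1 := (he j).resolve_left hj
    have h1 : 1 ≤ ∑ i, e i := by
      rw [← hj1]
      exact single_le_sum (fun i _ => he0 i) (mem_univ j)
    have h2 : ∏ i, (r i + e i) ≤ ∏ _i : ι, (2 : ℝ) := by
      apply prod_le_prod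
      · intro i _
        exact add_nonneg (hr0 i) (he0 i)
      · intro i _
        rcases hr i with h | h <;> rcases he i with h' | h' <;> rw [h, h'] <;> norm_num
    rw [prod_const, card_univ] at h2
    have h3 : 0 ≤ ∏ i, r i := prod_nonneg fun i _ => hr0 i
    have h4 : (2 : ℝ) ^ Fintype.card ι * 1 ≤ 2 ^ Fintype.card ι * ∑ i, e i := mul_le_mul_of_nonneg_left h1 (by positivity)
    linarith

end Pool.Agent.Y820.LT.SB
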