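import Pool.Agent.Y820.LT.SB1

set_option autoImplicit false

/-! The upper bound of the sieve: the count. -/

namespace Pool.Agent.Y820.LT.SB
open Finset
open Pool.Agent.H373R2.T7
open Pool.Agent.W93.HD
open Pool.Agent.W41 (JJ JJ_small)

lemma inv_one_sub_le (x : ℝ) (h0 : 0 ≤ x) (h1 : x ≤ 1 / 2) (k : ℕ) : 1 ≤ (1 - x) ^ k * (1 + x) ^ (2 * k) := by
  rw [pow_mul, ← mul_pow]
  apply one_le_pow₀
  nlinarith [mul_nonneg h0 h0, mul_nonneg (mul_nonneg h0 h0) h0]

lemma one_le_prodR {κ : Type*} (s : Finset κ) (f : κ → ℝ) (h : ∀ i ∈ s, 1 ≤ f i) : 1 ≤ ∏ i ∈ s, f i := by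
  calc (1 : ℝ) = ∏ _i ∈ s, (1 : ℝ) := by rw [prod_const_one]
    _ ≤ _ := prod_le_prod (fun _ _ => zero_le_one) h

section
variable {ι : Type} [Fintype ι] [DecidableEq ι]

/-- the forbidden classes -/
def Rr (c : ℤ) (act : ι → ℕ → Prop) (h : ι → ℤ) (p a : ℕ) : Prop := ∃ i, act i p ∧ (p : ℤ) ∣ (a : ℤ) - c + h i

lemma Rr_mod (c : ℤ) (act : ι → ℕ → Prop) (h : ι → ℤ) (p m : ℕ) : Rr c act h p (m % p) ↔ ∃ i, act i p ∧ (p : ℤ) ∣ (m : ℤ) - c + h i := by
  unfold Rr
  have h1 : ∀ i, (p : ℤ) ∣ ((m % p : ℕ) : ℤ) - c + h i ↔ (p : ℤ) ∣ (m : ℤ) - c + h i := by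
    intro i
    have h2 : (m : ℤ) - c + h i = (((m % p : ℕ) : ℤ) - c + h i) + p * ((m / p : ℕ) : ℤ) := by
      have h3 : ((m % p + p * (m / p) : ℕ) : ℤ) = m := by rw [Nat.mod_add_div]
      push_cast at h3 ⊢
      linarith
    rw [h2]
    exact (dvd_add_left (dvd_mul_right _ _)).symm
  simp only [h1]

/-- the representative of the class -/
def rep (c : ℤ) (h : ι → ℤ) (p : ℕ) (i : ι) : ℕ := ((c - h i) % (p : ℤ)).toNat

lemma rep_spec (c : ℤ) (h : ι → ℤ) (p : ℕ) (hp : 0 < p) (i : ι) : rep c h p i < p ∧ (p : ℤ) ∣ (rep c h p i : ℤ) - c + h i := by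
  have hp' : (0 : ℤ) < p := by exact_mod_cast hp
  have h1 := Int.emod_nonneg (c - h i) hp'.ne'
  have h2 := Int.emod_lt_of_pos (c - h i) hp'
  have h3 : ((rep c h p i : ℕ) : ℤ) = (c - h i) % (p : ℤ) := Int.toNat_of_nonneg h1
  constructor
  · have : ((rep c h p i : ℕ) : ℤ) < p := by rw [h3]; exact h2
    exact_mod_cast this
  · rw [h3]
    have h4 := Int.emod_add_mul_ediv (c - h i) (p : ℤ)
    refine ⟨-((c - h i) / (p : ℤ)), ?_⟩
    linarith

lemma rep_uniq (c : ℤ) (h : ι → ℤ) (p : ℕ) (hp : 0 < p) (i : ι) (a : ℕ) (ha : a < p) (hd : (p : ℤ) ∣ (a : ℤ) - c + h i) : a = rep c h p i := by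
  obtain ⟨h1, h2⟩ := rep_spec c h p hp i
  have h3 : (p : ℤ) ∣ (a : ℤ) - (rep c h p i : ℤ) := by
    have := dvd_sub hd h2
    have e : (a : ℤ) - c + h i - ((rep c h p i : ℤ) - c + h i) = (a : ℤ) - (rep c h p i : ℤ) := by ring
    rwa [e] at this
  have h4 : |(a : ℤ) - (rep c h p i : ℤ)| < p := by
    rw [abs_lt]
    constructor <;> omega
  have := Int.eq_zero_of_abs_lt_dvd h3 h4
  omega

open Classical in
/-- the number of the forbidden classes -/
noncomputable def nu (c : ℤ) (act : ι → ℕ → Prop) (h : ι → ℤ) (p : ℕ) : ℕ := ((range p).filter (fun a => Rr c act h p a)).card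

open Classical in
lemma nu_le (c : ℤ) (act : ι → ℕ → Prop) (h : ι → ℤ) (p : ℕ) (hp : 0 < p) : nu c act h p ≤ Fintype.card ι := by
  unfold nu
  calc _ ≤ (univ.image (fun i => rep c h p i)).card := by
        apply card_le_card
        intro a ha
        rw [mem_filter, mem_range] at ha
        obtain ⟨i, _, hd⟩ := ha.2
        rw [mem_image]
        exact ⟨i, mem_univ _, (rep_uniq c h p hp i a ha.1 hd).symm⟩
    _ ≤ _ := card_image_le.trans (by rw [card_univ])

open Classical in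
lemma nu_ge (c : ℤ) (act : ι → ℕ → Prop) (h : ι → ℤ) (p : ℕ) (hp : 0 < p) (hd : ∀ i j, i ≠ j → ¬ (p : ℤ) ∣ h i - h j) :
    (univ.filter (fun i => act i p)).card ≤ nu c act h p := by
  unfold nu
  apply card_le_card_of_injOn (fun i => rep c h p i)
  · intro i hi
    rw [mem_coe, mem_filter] at hi
    rw [mem_coe, mem_filter, mem_range]
    exact ⟨(rep_spec c h p hp i).1, i, hi.2, (rep_spec c h p hp i).2⟩
  · intro i _ j _ hij
    simp only at hij
    by_contra hne
    apply hd i j hne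
    have h1 := (rep_spec c h p hp i).2
    have h2 := (rep_spec c h p hp j).2
    rw [hij] at h1
    have := dvd_sub h1 h2
    have e : (rep c h p j : ℤ) - c + h i - ((rep c h p j : ℤ) - c + h j) = h i - h j := by ring
    rwa [e] at this

open Classical in
/-- the local factors -/
lemma local_le (c : ℤ) (act : ι → ℕ → Prop) (h : ι → ℤ) (p : ℕ) (hp : p.Prime) :
    1 - (nu c act h p : ℝ) / p ≤ (1 - 1 / (p : ℝ)) ^ (univ.filter (fun i => act i p)).card *
      ∏ q ∈ (univ : Finset (ι × ι)).filter (fun q => q.1 ≠ q.2), (if (p : ℤ) ∣ h q.1 - h q.2 then (1 + 1 / (p : ℝ)) ^ (2 * Fintype.card ι) else 1) := by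
  have hp0 : (0 : ℝ) < p := by exact_mod_cast hp.pos
  have hp2 : (2 : ℝ) ≤ p := by exact_mod_cast hp.two_le
  have hx0 : 0 ≤ 1 / (p : ℝ) := by positivity
  have hx1 : 1 / (p : ℝ) ≤ 1 / 2 := one_div_le_one_div_of_le (by norm_num) hp2
  have hfac : ∀ q ∈ (univ : Finset (ι × ι)).filter (fun q => q.1 ≠ q.2),
      (1 : ℝ) ≤ (if (p : ℤ) ∣ h q.1 - h q.2 then (1 + 1 / (p : ℝ)) ^ (2 * Fintype.card ι) else 1) := by
    intro q _
    split_ifs
    · exact one_le_pow₀ (by linarith)
    · exact le_rfl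
  have hk : (univ.filter (fun i => act i p)).card ≤ Fintype.card ι := by
    rw [← card_univ]
    exact card_filter_le _ _
  by_cases hd : ∀ i j, i ≠ j → ¬ (p : ℤ) ∣ h i - h j
  · have h1 := nu_ge c act h p hp.pos hd
    have h2 : 1 - (nu c act h p : ℝ) / p ≤ 1 - ((univ.filter (fun i => act i p)).card : ℝ) / p := by
      have : ((univ.filter (fun i => act i p)).card : ℝ) / p ≤ (nu c act h p : ℝ) / p := by
        apply div_le_div_of_nonneg_right _ hp0.le
        exact_mod_cast h1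
      linarith
    have h3 := one_add_mul_le_pow (show (-2 : ℝ) ≤ -(1 / (p : ℝ)) by linarith) (univ.filter (fun i => act i p)).card
    have h4 : 1 - ((univ.filter (fun i => act i p)).card : ℝ) / p ≤ (1 - 1 / (p : ℝ)) ^ (univ.filter (fun i => act i p)).card := by
      have e1 : 1 + ((univ.filter (fun i => act i p)).card : ℝ) * -(1 / (p : ℝ)) = 1 - ((univ.filter (fun i => act i p)).card : ℝ) / p := by ring
      have e2 : (1 : ℝ) + -(1 / (p : ℝ)) = 1 - 1 / p := by ring
      rw [e1, e2] at h3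
      exact h3
    refine (h2.trans h4).trans ?_
    have h5 : (0 : ℝ) ≤ (1 - 1 / (p : ℝ)) ^ (univ.filter (fun i => act i p)).card := pow_nonneg (by linarith) _
    exact le_mul_of_one_le_right h5 (one_le_prodR _ _ hfac)
  · push Not at hd
    obtain ⟨i, j, hij, hd⟩ := hd
    have h1 : (1 : ℝ) - (nu c act h p : ℝ) / p ≤ 1 := by
      have : (0 : ℝ) ≤ (nu c act h p : ℝ) / p := by positivity
      linarith
    refine h1.trans ?_
    have h2 : (1 + 1 / (p : ℝ)) ^ (2 * Fintype.card ι) ≤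
        ∏ q ∈ (univ : Finset (ι × ι)).filter (fun q => q.1 ≠ q.2), (if (p : ℤ) ∣ h q.1 - h q.2 then (1 + 1 / (p : ℝ)) ^ (2 * Fintype.card ι) else 1) := by
      rw [← mul_prod_erase _ _ (show (i, j) ∈ (univ : Finset (ι × ι)).filter (fun q => q.1 ≠ q.2) by rw [mem_filter]; exact ⟨mem_univ _, hij⟩)]
      rw [if_pos hd]
      apply le_mul_of_one_le_right (by positivity)
      exact one_le_prodR _ _ (fun q hq => hfac q (mem_of_mem_erase hq))
    have h3 : (1 - 1 / (p : ℝ)) ^ Fintype.card ι ≤ (1 - 1 / (p : ℝ)) ^ (univ.filter (fun i => act i p)).card :=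
      pow_le_pow_of_le_one (by linarith) (by linarith) hk
    have h4 := inv_one_sub_le (1 / (p : ℝ)) hx0 hx1 (Fintype.card ι)
    refine h4.trans ?_
    exact mul_le_mul h3 h2 (by positivity) (pow_nonneg (by linarith) _)

open Classical in
/-- the product of the local factors -/
lemma prod_local (c : ℤ) (τ : ι → Bool) (h : ι → ℤ) (hh : ∀ i j, i ≠ j → h i ≠ h j) (z y : ℕ) (hzy : z ≤ y) :
    ∏ p ∈ pz y, (1 - (nu c (fun i p => τ i = true ∨ p ≤ z) h p : ℝ) / p) ≤
      (∏ i, Vz (if τ i then y else z)) * ∏ i, ∏ j, (if i = j then 1 else gg (h i - h j).natAbs) ^ (2 * Fintype.card ι) := by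
  have hpr : ∀ p ∈ pz y, p.Prime := fun p hp => (mem_pz.1 hp).2
  have h1 : ∏ p ∈ pz y, (1 - (nu c (fun i p => τ i = true ∨ p ≤ z) h p : ℝ) / p) ≤
      ∏ p ∈ pz y, ((1 - 1 / (p : ℝ)) ^ (univ.filter (fun i => τ i = true ∨ p ≤ z)).card *
      ∏ q ∈ (univ : Finset (ι × ι)).filter (fun q => q.1 ≠ q.2), (if (p : ℤ) ∣ h q.1 - h q.2 then (1 + 1 / (p : ℝ)) ^ (2 * Fintype.card ι) else 1)) := by
    apply prod_le_prod
    · intro p hp
      have hp0 := (hpr p hp).pos
      rw [sub_nonneg, div_le_one (by exact_mod_cast hp0)]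
      have : nu c (fun i p => τ i = true ∨ p ≤ z) h p ≤ p := by
        unfold nu
        exact (card_filter_le _ _).trans (card_range p).le
      exact_mod_cast this
    · intro p hp
      refine (local_le c (fun i p => τ i = true ∨ p ≤ z) h p (hpr p hp)).trans (le_of_eq ?_)
      congr!
  refine h1.trans ?_
  rw [prod_mul_distrib]
  have hV : ∏ p ∈ pz y, (1 - 1 / (p : ℝ)) ^ (univ.filter (fun i => τ i = true ∨ p ≤ z)).card = ∏ i, Vz (if τ i then y else z) := by
    have h2 : ∀ p ∈ pz y, (1 - 1 / (p : ℝ)) ^ (univ.filter (fun i => τ i = true ∨ p ≤ z)).card =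
        ∏ i, (if τ i = true ∨ p ≤ z then (1 - 1 / (p : ℝ)) else 1) := by
      intro p _
      rw [← prod_filter, prod_const]
    rw [prod_congr rfl h2, prod_comm]
    apply prod_congr rfl
    intro i _
    unfold Vz
    rw [← prod_filter]
    apply prod_congr _ (fun _ _ => rfl)
    ext p
    rw [mem_filter, mem_pz]
    cases hτ : τ i
    · simp only [Bool.false_eq_true, false_or, if_false]
      rw [mem_pz]
      constructor
      · rintro ⟨⟨_, h3⟩, h4⟩; exact ⟨h4, h3⟩
      · rintro ⟨h3, h4⟩; exact ⟨⟨h3.trans hzy, h4⟩, h3⟩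
    · simp only [true_or, and_true, if_true]
      rw [mem_pz]
  rw [hV]
  apply mul_le_mul_of_nonneg_left _ (prod_nonneg fun i _ => (Vz_pos _).le)
  rw [prod_comm]
  have h3 : ∏ i, ∏ j, (if i = j then (1 : ℝ) else gg (h i - h j).natAbs) ^ (2 * Fintype.card ι) =
      ∏ q ∈ (univ : Finset (ι × ι)).filter (fun q => q.1 ≠ q.2), gg (h q.1 - h q.2).natAbs ^ (2 * Fintype.card ι) := by
    rw [prod_filter]
    symm
    refine (Fintype.prod_prod_type _).trans ?_
    apply prod_congr rfl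
    intro i _
    apply prod_congr rfl
    intro j _
    by_cases hij : i = j
    · rw [if_neg (by simpa using hij), if_pos hij, one_pow]
    · rw [if_pos (by simpa using hij), if_neg hij]
  rw [h3]
  apply prod_le_prod
  · intro q _
    apply prod_nonneg
    intro p _
    split_ifs
    · positivity
    · norm_num
  · intro q hq
    rw [mem_filter] at hq
    have hne : h q.1 - h q.2 ≠ 0 := sub_ne_zero.2 (hh _ _ hq.2)
    rw [← prod_filter]
    unfold gg
    rw [← prod_pow]
    apply prod_le_prod_of_subset_of_one_le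
    · intro p hp
      rw [mem_filter] at hp
      rw [Nat.mem_primeFactors]
      exact ⟨hpr p hp.1, Int.natCast_dvd.1 hp.2, by omega⟩
    · intro p _; positivity
    · intro p _ _
      apply one_le_pow₀
      have : (0 : ℝ) ≤ 1 / p := by positivity
      linarith

end

end Pool.Agent.Y820.LT.SB
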