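import Pool.Agent.TH894.CW5
import Pool.Agent.W93.TD5

set_option autoImplicit false

/-!
# Project LT (helper820): prime tuples after adding a bounded number of powers of `b` to the shifts

Definitions and the exact statements of the tasks.
-/

namespace Pool.Agent.Y820.LT
open Finset
open Pool.Agent.H373R2.T7 (lamI lamzI lamz Vz singZ tupleCount Admissible)
open Pool.Agent.H560R3.GB (primeTuples)
open Pool.Agent.W93.HD (gg)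
open Pool.Agent.W93.DG (hh)
open Pool.Agent.TH894.SM (dl Om Pos)

/-- the formula of Hardy and Littlewood with a relative error -/
def HLe {k : ℕ} (ε : ℝ) (N : ℕ) (a : Fin k → ℕ) : Prop :=
  ∃ S : ℝ, Filter.Tendsto (fun z => singZ (fun i => (a i : ℤ)) z) Filter.atTop (nhds S) ∧
    |tupleCount (fun i => (a i : ℤ)) N - S * N| ≤ ε * N ∧
    (Admissible (fun i => (a i : ℤ)) → 0 < S ∧
      |(primeTuples a N : ℝ) - S * (N / Real.log N ^ (k + 1))| ≤ ε * (S * (N / Real.log N ^ (k + 1))))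

/-- the two weights: the von Mangoldt function and its model -/
noncomputable def w (z : ℕ) (τ : Bool) (n : ℤ) : ℝ := if τ then lamI n else lamzI z n

/-- the difference of the two weights, up to `Y` -/
noncomputable def Gc (z Y : ℕ) (n : ℤ) : ℝ := if n ≤ Y then lamI n - lamzI z n else 0

/-- the autocorrelation of `Gc` -/
noncomputable def PC (z Y : ℕ) (h : ℤ) : ℝ := ∑ m ∈ Icc (1 : ℤ) Y, Gc z Y m * Gc z Y (m + h)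

/-- LT-D: the deterministic part -/
def S_D : Prop := ∀ k B E1 : ℕ, 1 ≤ k → k + 6 ≤ E1 → ∀ ε : ℝ, 0 < ε → ∃ δ : ℝ, 0 < δ ∧ ∃ n0 : ℕ, ∀ N : ℕ, n0 ≤ N →
  ∀ z : ℕ, Real.log N ^ E1 ≤ z → (z : ℝ) ≤ Real.log N ^ (E1 + 1) →
    ∀ a : Fin k → ℕ, (∀ i, a i ≤ B * N) → (∀ i, a i ≠ 0) → (∀ i j, i ≠ j → a i ≠ a j) →
    |∑ n ∈ Icc 1 N, ArithmeticFunction.vonMangoldt n *
        (∏ i, lamI ((n : ℤ) + (a i : ℤ)) - ∏ i, lamzI z ((n : ℤ) + (a i : ℤ)))| ≤ δ * N → HLe ε N a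

/-- LT-R: Romanoff's sum with an arbitrary power -/
def S_R : Prop := ∀ b : ℕ, 2 ≤ b → ∀ κ : ℕ, ∃ C : ℝ, 0 ≤ C ∧ ∀ K : ℕ, 2 ≤ K → ∀ e : ℕ → ℤ, (∀ j, e j ≠ 0 ∧ |e j| < b) →
    ∀ J ⊆ range K, ∀ s : ℤ, |s| ≤ (b : ℤ) ^ (2 * K) →
    ∑ j ∈ J, (if e j * (b : ℤ) ^ j + s = 0 then 0 else gg (e j * (b : ℤ) ^ j + s).natAbs ^ κ) ≤ C * K

/-- LT-S: the upper bound of the sieve for the two kinds of weights -/
def S_SB : Prop := ∀ (ι : Type) [Fintype ι] [DecidableEq ι] (B Ez : ℕ), ∃ (C : ℝ) (κ Y₀ : ℕ), 0 ≤ C ∧ ∀ Y : ℕ, Y₀ ≤ Y →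
    ∀ z : ℕ, 2 ≤ z → (z : ℝ) ≤ Real.log Y ^ Ez → ∀ (τ : ι → Bool) (h : ι → ℤ), (∀ i, |h i| ≤ (Y : ℤ) ^ 2) →
    (∀ i j, i ≠ j → h i ≠ h j) →
    ∑ n ∈ Icc (-(B * Y : ℤ)) (B * Y), ∏ i, w z (τ i) (n + h i) ≤
      C * Y * ∏ i, ∏ j, (if i = j then 1 else gg (h i - h j).natAbs) ^ κ

/-- LT-P: the autocorrelations at the differences of the random sums are small in mean square -/
def S_P : Prop := ∀ b : ℕ, 2 ≤ b → ∃ R A B : ℕ, 1 ≤ R ∧ 3 ≤ A ∧ ∀ δ : ℝ, 0 < δ → ∃ t₀ : ℕ, ∀ t : ℕ, t₀ ≤ t →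
    ∀ Ez : ℕ, ∃ k₀ : ℕ, ∀ K : ℕ, k₀ ≤ K → ∀ z : ℕ,
    Real.log ((b ^ K : ℕ) : ℝ) ^ B ≤ z → (z : ℝ) ≤ Real.log ((b ^ K : ℕ) : ℝ) ^ Ez →
    ∀ e : ℕ → ℤ, (∀ j, e j ≠ 0 ∧ |e j| < b) → ∀ J : Fin 3 → Finset ℕ, Pos b R K (hh b A K) J →
    ∑ ω ∈ Om J t, ∑ ω' ∈ Om J t, PC z (b ^ K) (∑ c, dl b e (ω' c) - ∑ c, dl b e (ω c)) ^ 2 ≤
      δ * ((b ^ K : ℕ) : ℝ) ^ 2 * ((Om J t).card : ℝ) ^ 2

end Pool.Agent.Y820.LT
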